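import Pool.Agent.Helper77.EH.Words

/-!
Pairs splitting at a position `s` with the pattern `Q4`, and the absence of triangles on two
adjacent positions.
-/

namespace Pool.Agent.Helper77.EH

open Pool.Agent.Helper18.EH

theorem noTri1 {n a1 a2 a3 b1 b2 b3 c1 c2 c3 p : ℕ} {x y z : ℕ → ℕ}
    (hx : Inc n x)
    (hy : Inc n y)
    (hz : Inc n z)
    (e1 : ∀ j < p + 1, x j = y j)
    (h1 : Q4 x y (p + 1) a1 b1 c1 n)
    (h2 : Q4 y z p a2 b2 c2 n)
    (h3 : Q4 x z p a3 b3 c3 n) : False := by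
  obtain ⟨p11, p12, p13, p14, v11, v12, v13, v14, v15⟩ := h1
  obtain ⟨p21, p22, p23, p24, v21, v22, v23, v24, v25⟩ := h2
  obtain ⟨p31, p32, p33, p34, v31, v32, v33, v34, v35⟩ := h3
  have f5 : x (b1 - 1) < y (p + 1) := v11
  have f9 : x (n - 1) < y b1 := v15
  have f14 : y (b2 - 1) < z p := v21
  have f16 : y (c2 - 1) < z a2 := v23
  have f18 : y (n - 1) < z b2 := v25
  have f24 : z (a3 - 1) < x b3 := v32
  have f26 : z (b3 - 1) < x c3 := v34
  have m39 : x b3 < x (n - 1) := hx _ _ (by omega) (by omega)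
  have m41 : x c3 ≤ x (n - 1) := hx.le (by omega) (by omega)
  have m52 : y b1 < y (n - 1) := hy _ _ (by omega) (by omega)
  have m58 : y (p + 1) ≤ y (b2 - 1) := hy.le (by omega) (by omega)
  have m89 : z p ≤ z (a3 - 1) := hz.le (by omega) (by omega)
  have d98 : b1 - 1 < b3 := hx.lt_of (a := (b1 - 1)) (b := b3) (by omega) (by omega)
  have d99 : b2 - 1 < b1 := hy.lt_of (a := (b2 - 1)) (b := b1) (by omega) (by omega)
  have d102 : b3 - 1 < b2 := hz.lt_of (a := (b3 - 1)) (b := b2) (by omega) (by omega)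
  have m123 : y b1 ≤ y (c2 - 1) := hy.le (by omega) (by omega)
  have m138 : z a2 ≤ z (b3 - 1) := hz.le (by omega) (by omega)
  omega

theorem noTri2 {n a1 a2 a3 b1 b2 b3 c1 c2 c3 p : ℕ} {x y z : ℕ → ℕ}
    (hx : Inc n x)
    (hy : Inc n y)
    (hz : Inc n z)
    (e1 : ∀ j < p + 1, y j = z j)
    (h1 : Q4 x y p a1 b1 c1 n)
    (h2 : Q4 y z (p + 1) a2 b2 c2 n)
    (h3 : Q4 x z p a3 b3 c3 n) : False := by
  obtain ⟨p11, p12, p13, p14, v11, v12, v13, v14, v15⟩ := h1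
  obtain ⟨p21, p22, p23, p24, v21, v22, v23, v24, v25⟩ := h2
  obtain ⟨p31, p32, p33, p34, v31, v32, v33, v34, v35⟩ := h3
  have f5 : x (b1 - 1) < y p := v11
  have f9 : x (n - 1) < y b1 := v15
  have f14 : y (b2 - 1) < z (p + 1) := v21
  have f16 : y (c2 - 1) < z a2 := v23
  have f18 : y (n - 1) < z b2 := v25
  have f24 : z (a3 - 1) < x b3 := v32
  have f26 : z (b3 - 1) < x c3 := v34
  have m28 : y p = z p := e1 _ (by omega)
  have m42 : x c3 ≤ x (n - 1) := hx.le (by omega) (by omega)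
  have m77 : y b1 < y (n - 1) := hy _ _ (by omega) (by omega)
  have m82 : z (p + 1) ≤ z (b3 - 1) := hz.le (by omega) (by omega)
  have m94 : z p ≤ z (a3 - 1) := hz.le (by omega) (by omega)
  have d108 : b1 - 1 < b3 := hx.lt_of (a := (b1 - 1)) (b := b3) (by omega) (by omega)
  have d109 : b2 - 1 < b1 := hy.lt_of (a := (b2 - 1)) (b := b1) (by omega) (by omega)
  have d112 : b3 - 1 < b2 := hz.lt_of (a := (b3 - 1)) (b := b2) (by omega) (by omega)
  have m144 : y b1 ≤ y (c2 - 1) := hy.le (by omega) (by omega)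
  have m148 : z a2 ≤ z (b3 - 1) := hz.le (by omega) (by omega)
  omega

theorem noTri3 {n a1 a2 a3 b1 b2 b3 c1 c2 c3 p : ℕ} {x y z : ℕ → ℕ}
    (hx : Inc n x)
    (hy : Inc n y)
    (hz : Inc n z)
    (h1 : Q4 x y p a1 b1 c1 n)
    (h2 : Q4 y z p a2 b2 c2 n)
    (h3 : Q4 x z p a3 b3 c3 n) : False := by
  obtain ⟨p11, p12, p13, p14, v11, v12, v13, v14, v15⟩ := h1
  obtain ⟨p21, p22, p23, p24, v21, v22, v23, v24, v25⟩ := h2
  obtain ⟨p31, p32, p33, p34, v31, v32, v33, v34, v35⟩ := h3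
  have f5 : x (b1 - 1) < y p := v11
  have f9 : x (n - 1) < y b1 := v15
  have f14 : y (b2 - 1) < z p := v21
  have f16 : y (c2 - 1) < z a2 := v23
  have f18 : y (n - 1) < z b2 := v25
  have f24 : z (a3 - 1) < x b3 := v32
  have f26 : z (b3 - 1) < x c3 := v34
  have m39 : x b3 < x (n - 1) := hx _ _ (by omega) (by omega)
  have m41 : x c3 ≤ x (n - 1) := hx.le (by omega) (by omega)
  have m52 : y b1 < y (n - 1) := hy _ _ (by omega) (by omega)
  have m58 : y p < y (b2 - 1) := hy _ _ (by omega) (by omega)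
  have m89 : z p ≤ z (a3 - 1) := hz.le (by omega) (by omega)
  have d98 : b1 - 1 < b3 := hx.lt_of (a := (b1 - 1)) (b := b3) (by omega) (by omega)
  have d99 : b2 - 1 < b1 := hy.lt_of (a := (b2 - 1)) (b := b1) (by omega) (by omega)
  have d102 : b3 - 1 < b2 := hz.lt_of (a := (b3 - 1)) (b := b2) (by omega) (by omega)
  have m123 : y b1 ≤ y (c2 - 1) := hy.le (by omega) (by omega)
  have m137 : z a2 ≤ z (b3 - 1) := hz.le (by omega) (by omega)
  omega

/-- `x` and `y` split at the position `s` with pattern `Q4`. -/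
def SP (n s : ℕ) (x y : ℕ → ℕ) : Prop := (∀ j < s, x j = y j) ∧ ∃ a b c, Q4 x y s a b c n

theorem SP.lt {n s : ℕ} {x y : ℕ → ℕ} (h : SP n s x y) (hx : Inc n x) : x s < y s := by
  obtain ⟨_, a, b, c, p1, p2, p3, p4, v1, v2, v3, v4, v5⟩ := h
  have := hx.le (show s ≤ b - 1 by omega) (by omega)
  omega

theorem ultra {x y z : ℕ → ℕ} {s1 s2 s3 : ℕ} (e1 : ∀ j < s1, x j = y j) (l1 : x s1 < y s1)
    (e2 : ∀ j < s2, y j = z j) (l2 : y s2 < z s2) (e3 : ∀ j < s3, x j = z j)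
    (l3 : x s3 < z s3) : (s3 = s1 ∧ s1 ≤ s2) ∨ (s3 = s2 ∧ s2 ≤ s1) := by
  rcases Nat.lt_trichotomy s1 s2 with h | h | h
  · left
    refine ⟨?_, h.le⟩
    rcases Nat.lt_trichotomy s3 s1 with g | g | g
    · have := e1 _ g; have := e2 _ (g.trans h); omega
    · exact g
    · have := e3 _ g; have := e2 _ h; omega
  · subst h
    left
    refine ⟨?_, le_rfl⟩
    rcases Nat.lt_trichotomy s3 s1 with g | g | g
    · have := e1 _ g; have := e2 _ g; omega
    · exact g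
    · have := e3 _ g; omega
  · right
    refine ⟨?_, h.le⟩
    rcases Nat.lt_trichotomy s3 s2 with g | g | g
    · have := e1 _ (g.trans h); have := e2 _ g; omega
    · exact g
    · have := e3 _ g; have := e1 _ h; omega

theorem noTri {n p s1 s2 s3 : ℕ} {x y z : ℕ → ℕ} (hx : Inc n x) (hy : Inc n y) (hz : Inc n z)
    (S1 : SP n s1 x y) (S2 : SP n s2 y z) (S3 : SP n s3 x z) (h1 : p ≤ s1) (h1' : s1 ≤ p + 1)
    (h2 : p ≤ s2) (h2' : s2 ≤ p + 1) : False := by
  have hu := ultra S1.1 (S1.lt hx) S2.1 (S2.lt hy) S3.1 (S3.lt hx)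
  obtain ⟨e1, a1, b1, c1, q1⟩ := S1
  obtain ⟨e2, a2, b2, c2, q2⟩ := S2
  obtain ⟨e3, a3, b3, c3, q3⟩ := S3
  have hs1 : s1 = p ∨ s1 = p + 1 := by omega
  have hs2 : s2 = p ∨ s2 = p + 1 := by omega
  rcases hs1 with rfl | rfl <;> rcases hs2 with rfl | rfl
  · obtain rfl : s3 = s2 := by omega
    exact noTri3 hx hy hz q1 q2 q3
  · obtain rfl : s3 = s1 := by omega
    exact noTri2 hx hy hz e2 q1 q2 q3
  · obtain rfl : s3 = s2 := by omega
    exact noTri1 hx hy hz e1 q1 q2 q3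
  · obtain rfl : s3 = p + 1 := by omega
    exact noTri3 hx hy hz q1 q2 q3

end Pool.Agent.Helper77.EH
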