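import Pool.Agent.Helper77.EH.Tri
import Pool.Agent.Helper77.EH.Split

/-!
The five-level colouring has no five pairwise related sequences in different classes.
-/

namespace Pool.Agent.Helper77.EH

open Pool.Agent.Helper18.EH

/-- The pair `x, y` is related with first difference at `i`. -/
def TT (n i : ℕ) (x y : ℕ → ℕ) : Prop := (∀ j < i, x j = y j) ∧ ∃ τ b c, TP n i x y b c τ

/-- The pair `x, y` is related with first difference in `[i + 1, i + 4]`. -/
def SS (n i : ℕ) (x y : ℕ → ℕ) : Prop := ∃ s, i + 1 ≤ s ∧ s ≤ i + 4 ∧ SP n s x y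

theorem TT.lt {n i : ℕ} {x y : ℕ → ℕ} (h : TT n i x y) (hx : Inc n x) : x i < y i := by
  obtain ⟨_, τ, b, c, h⟩ := h
  cases τ
  · obtain ⟨p1, p2, p3, p4, v1, v2, v3, v4, v5⟩ := h
    have := hx.le (show i ≤ b - 1 by omega) (by omega)
    omega
  · obtain ⟨⟨p1, p2, p3, p4, v1, v2, v3, v4, v5⟩, _, _⟩ := h
    have := hx.le (show i ≤ b - 1 by omega) (by omega)
    omega
  · obtain ⟨p1, p2, p3, p4, v1, v2, v3, v4, v5⟩ := h
    have := hx.le (show i ≤ i + 2 - 1 by omega) (by omega)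
    omega
  · obtain ⟨p1, p2, p3, p4, v1, v2, v3, v4, v5⟩ := h
    have := hx.le (show i ≤ i + 3 - 1 by omega) (by omega)
    omega
  · obtain ⟨a, _, _, p1, p2, p3, p4, v1, v2, v3, v4, v5⟩ := h
    have := hx.le (show i ≤ b - 1 by omega) (by omega)
    omega

theorem SS.eq {n i : ℕ} {x y : ℕ → ℕ} (h : SS n i x y) : x i = y i := by
  obtain ⟨s, h1, h2, h3⟩ := h
  exact h3.1 i (by omega)

section

variable {n i : ℕ} {x y z w : ℕ → ℕ}

/-- Type `3 + 1`. -/
theorem p31 (hx : Inc n x) (hy : Inc n y) (hz : Inc n z) (hw : Inc n w)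
    (hxy : SS n i x y) (hyz : SS n i y z) (hxz : SS n i x z)
    (hxw : TT n i x w) (hyw : TT n i y w) (hzw : TT n i z w) : False := by
  obtain ⟨s1, l1, u1, S1⟩ := hxy
  obtain ⟨s2, l2, u2, S2⟩ := hyz
  obtain ⟨s3, l3, u3, S3⟩ := hxz
  have hu := ultra S1.1 (S1.lt hx) S2.1 (S2.lt hy) S3.1 (S3.lt hx)
  obtain ⟨_, t1, b1, c1, T1⟩ := hxw
  obtain ⟨_, t2, b2, c2, T2⟩ := hyw
  obtain ⟨_, t3, b3, c3, T3⟩ := hzw
  obtain ⟨e1, _, _, _, q1⟩ := id S1
  obtain ⟨e2, _, _, _, q2⟩ := id S2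
  obtain ⟨e3, _, _, _, q3⟩ := id S3
  have g1 := G_tri hx hy hw e1 q1 l1 u1 _ _ T2 T1
  have g2 := G_tri hy hz hw e2 q2 l2 u2 _ _ T3 T2
  have g3 := G_tri hx hz hw e3 q3 l3 u3 _ _ T3 T1
  have n1 : ¬ (s1 ≤ i + 2 ∧ s2 ≤ i + 2) := fun h =>
    noTri hx hy hz S1 S2 S3 (p := i + 1) (by omega) (by omega) (by omega) (by omega)
  have n2 : ¬ (i + 3 ≤ s1 ∧ i + 3 ≤ s2) := fun h =>
    noTri hx hy hz S1 S2 S3 (p := i + 3) (by omega) (by omega) (by omega) (by omega)
  simp only [GD] at g1 g2 g3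
  omega

/-- Type `1 + 3`. -/
theorem p13 (hw : Inc n w) (hx : Inc n x) (hy : Inc n y) (hz : Inc n z)
    (hxy : SS n i x y) (hyz : SS n i y z) (hxz : SS n i x z)
    (hwx : TT n i w x) (hwy : TT n i w y) (hwz : TT n i w z) : False := by
  obtain ⟨s1, l1, u1, S1⟩ := hxy
  obtain ⟨s2, l2, u2, S2⟩ := hyz
  obtain ⟨s3, l3, u3, S3⟩ := hxz
  obtain ⟨_, t1, b1, c1, T1⟩ := hwx
  obtain ⟨_, t2, b2, c2, T2⟩ := hwy
  obtain ⟨_, t3, b3, c3, T3⟩ := hwz
  obtain ⟨e1, _, _, _, q1⟩ := id S1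
  obtain ⟨e2, _, _, _, q2⟩ := id S2
  have g1 := H_tri hw hx hy e1 q1 l1 u1 _ _ T1 T2
  have g2 := H_tri hw hy hz e2 q2 l2 u2 _ _ T2 T3
  have n2 : ¬ (i + 3 ≤ s1 ∧ i + 3 ≤ s2) := fun h =>
    noTri hx hy hz S1 S2 S3 (p := i + 3) (by omega) (by omega) (by omega) (by omega)
  simp only [HD] at g1 g2
  omega

/-- Type `2 + 1 + 1`. -/
theorem p211 (hx : Inc n x) (hy : Inc n y) (hz : Inc n z) (hw : Inc n w)
    (hxy : SS n i x y) (hxz : TT n i x z) (hyz : TT n i y z)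
    (hxw : TT n i x w) (hyw : TT n i y w) (hzw : TT n i z w) : False := by
  obtain ⟨s1, l1, u1, S1⟩ := hxy
  obtain ⟨e1, _, _, _, q1⟩ := id S1
  obtain ⟨_, t1, b1, c1, T1⟩ := hxz
  obtain ⟨_, t2, b2, c2, T2⟩ := hyz
  obtain ⟨_, t3, b3, c3, T3⟩ := hxw
  obtain ⟨_, t4, b4, c4, T4⟩ := hyw
  obtain ⟨_, t5, b5, c5, T5⟩ := hzw
  have g1 := G_tri hx hy hz e1 q1 l1 u1 _ _ T2 T1
  have g2 := G_tri hx hy hw e1 q1 l1 u1 _ _ T4 T3
  have f1 := F_tri hy hz hw _ _ _ T2 T5 T4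
  simp only [GD] at g1 g2
  simp only [FD] at f1
  omega

/-- Type `1 + 2 + 1`. -/
theorem p121 (hz : Inc n z) (hx : Inc n x) (hy : Inc n y) (hw : Inc n w)
    (hxy : SS n i x y) (hzx : TT n i z x) (hzy : TT n i z y)
    (hxw : TT n i x w) (hyw : TT n i y w) (hzw : TT n i z w) : False := by
  obtain ⟨s1, l1, u1, S1⟩ := hxy
  obtain ⟨e1, _, _, _, q1⟩ := id S1
  obtain ⟨_, t1, b1, c1, T1⟩ := hzx
  obtain ⟨_, t2, b2, c2, T2⟩ := hzy
  obtain ⟨_, t3, b3, c3, T3⟩ := hxw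
  obtain ⟨_, t4, b4, c4, T4⟩ := hyw
  obtain ⟨_, t5, b5, c5, T5⟩ := hzw
  have g1 := H_tri hz hx hy e1 q1 l1 u1 _ _ T1 T2
  have g2 := G_tri hx hy hw e1 q1 l1 u1 _ _ T4 T3
  have f1 := F_tri hz hx hw _ _ _ T1 T3 T5
  have f2 := F_tri hz hy hw _ _ _ T2 T4 T5
  simp only [GD] at g2
  simp only [HD] at g1
  simp only [FD] at f1 f2
  omega

/-- Type `1 + 1 + 2`. -/
theorem p112 (hz : Inc n z) (hw : Inc n w) (hx : Inc n x) (hy : Inc n y)
    (hxy : SS n i x y) (hzx : TT n i z x) (hzy : TT n i z y)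
    (hwx : TT n i w x) (hwy : TT n i w y) (hzw : TT n i z w) : False := by
  obtain ⟨s1, l1, u1, S1⟩ := hxy
  obtain ⟨e1, _, _, _, q1⟩ := id S1
  obtain ⟨_, t1, b1, c1, T1⟩ := hzx
  obtain ⟨_, t2, b2, c2, T2⟩ := hzy
  obtain ⟨_, t3, b3, c3, T3⟩ := hwx
  obtain ⟨_, t4, b4, c4, T4⟩ := hwy
  obtain ⟨_, t5, b5, c5, T5⟩ := hzw
  have g1 := H_tri hz hx hy e1 q1 l1 u1 _ _ T1 T2
  have g2 := H_tri hw hx hy e1 q1 l1 u1 _ _ T3 T4
  have f1 := F_tri hz hw hx _ _ _ T5 T3 T1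
  simp only [HD] at g1 g2
  simp only [FD] at f1
  omega

/-- Type `1 + 1 + 1 + 1`. -/
theorem p1111 (hx : Inc n x) (hy : Inc n y) (hz : Inc n z) (hw : Inc n w)
    (hxy : TT n i x y) (hxz : TT n i x z) (hyz : TT n i y z)
    (hxw : TT n i x w) (hyw : TT n i y w) (hzw : TT n i z w) : False := by
  obtain ⟨_, t1, b1, c1, T1⟩ := hxy
  obtain ⟨_, t2, b2, c2, T2⟩ := hyz
  obtain ⟨_, t3, b3, c3, T3⟩ := hzw
  obtain ⟨_, t4, b4, c4, T4⟩ := hxz
  obtain ⟨_, t5, b5, c5, T5⟩ := hyw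
  obtain ⟨_, t6, b6, c6, T6⟩ := hxw
  have f1 := F_tri hx hy hz _ _ _ T1 T2 T4
  have f2 := F_tri hy hz hw _ _ _ T2 T3 T5
  have f3 := F_tri hx hy hw _ _ _ T1 T5 T6
  have f4 := F_tri hx hz hw _ _ _ T4 T3 T6
  simp only [FD] at f1 f2 f3 f4
  omega

/-- No five sequences with a common initial segment up to `i` are pairwise related. -/
theorem pS (x : Fin 5 → ℕ → ℕ) (hx : ∀ k, Inc n (x k))
    (h : ∀ k l, k < l → SS n i (x k) (x l)) : False := by
  obtain ⟨s01, l01, u01, S01⟩ := h 0 1 (by decide)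
  obtain ⟨s12, l12, u12, S12⟩ := h 1 2 (by decide)
  obtain ⟨s23, l23, u23, S23⟩ := h 2 3 (by decide)
  obtain ⟨s34, l34, u34, S34⟩ := h 3 4 (by decide)
  obtain ⟨s02, l02, u02, S02⟩ := h 0 2 (by decide)
  obtain ⟨s24, l24, u24, S24⟩ := h 2 4 (by decide)
  obtain ⟨s04, l04, u04, S04⟩ := h 0 4 (by decide)
  have a1 := ultra S01.1 (S01.lt (hx 0)) S12.1 (S12.lt (hx 1)) S02.1 (S02.lt (hx 0))
  have a2 := ultra S23.1 (S23.lt (hx 2)) S34.1 (S34.lt (hx 3)) S24.1 (S24.lt (hx 2))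
  have a3 := ultra S02.1 (S02.lt (hx 0)) S24.1 (S24.lt (hx 2)) S04.1 (S04.lt (hx 0))
  have n1 : ¬ (i + 3 ≤ s02) := fun g =>
    noTri (hx 0) (hx 1) (hx 2) S01 S12 S02 (p := i + 3) (by omega) (by omega) (by omega)
      (by omega)
  have n2 : ¬ (i + 3 ≤ s24) := fun g =>
    noTri (hx 2) (hx 3) (hx 4) S23 S34 S24 (p := i + 3) (by omega) (by omega) (by omega)
      (by omega)
  exact noTri (hx 0) (hx 2) (hx 4) S02 S24 S04 (p := i + 1) (by omega) (by omega) (by omega)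
      (by omega)

/-- No five sequences are pairwise related. -/
theorem no5 (x : Fin 5 → ℕ → ℕ) (hx : ∀ k, Inc n (x k))
    (h : ∀ k l, k < l → TT n i (x k) (x l) ∨ SS n i (x k) (x l)) : False := by
  have hle : ∀ k l, k < l → x k i ≤ x l i := by
    intro k l hkl
    rcases h k l hkl with g | g
    · exact (g.lt (hx k)).le
    · exact g.eq.le
  have hT : ∀ k l, k < l → x k i < x l i → TT n i (x k) (x l) := by
    intro k l hkl hlt
    rcases h k l hkl with g | g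
    · exact g
    · exact absurd g.eq hlt.ne
  have hS : ∀ k l, k < l → x k i = x l i → SS n i (x k) (x l) := by
    intro k l hkl he
    rcases h k l hkl with g | g
    · exact absurd he (g.lt (hx k)).ne
    · exact g
  have c01 := hle 0 1 (by decide)
  have c12 := hle 1 2 (by decide)
  have c23 := hle 2 3 (by decide)
  have c34 := hle 3 4 (by decide)
  rcases Nat.lt_or_ge (x 0 i) (x 1 i) with d0 | d0
  · -- T
    rcases Nat.lt_or_ge (x 1 i) (x 2 i) with d1 | d1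
    · rcases Nat.lt_or_ge (x 2 i) (x 3 i) with d2 | d2
      · -- T T T : 0 1 2 3
        exact p1111 (hx 0) (hx 1) (hx 2) (hx 3) (hT 0 1 (by decide) (by omega))
          (hT 0 2 (by decide) (by omega)) (hT 1 2 (by decide) (by omega))
          (hT 0 3 (by decide) (by omega)) (hT 1 3 (by decide) (by omega))
          (hT 2 3 (by decide) (by omega))
      · -- T T S : 0 | 1 | 2 3
        exact p112 (hx 0) (hx 1) (hx 2) (hx 3) (hS 2 3 (by decide) (by omega))
          (hT 0 2 (by decide) (by omega)) (hT 0 3 (by decide) (by omega))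
          (hT 1 2 (by decide) (by omega)) (hT 1 3 (by decide) (by omega))
          (hT 0 1 (by decide) (by omega))
    · rcases Nat.lt_or_ge (x 2 i) (x 3 i) with d2 | d2
      · -- T S T : 0 | 1 2 | 3
        exact p121 (hx 0) (hx 1) (hx 2) (hx 3) (hS 1 2 (by decide) (by omega))
          (hT 0 1 (by decide) (by omega)) (hT 0 2 (by decide) (by omega))
          (hT 1 3 (by decide) (by omega)) (hT 2 3 (by decide) (by omega))
          (hT 0 3 (by decide) (by omega))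
      · -- T S S : 0 | 1 2 3
        exact p13 (hx 0) (hx 1) (hx 2) (hx 3) (hS 1 2 (by decide) (by omega))
          (hS 2 3 (by decide) (by omega)) (hS 1 3 (by decide) (by omega))
          (hT 0 1 (by decide) (by omega)) (hT 0 2 (by decide) (by omega))
          (hT 0 3 (by decide) (by omega))
  · rcases Nat.lt_or_ge (x 1 i) (x 2 i) with d1 | d1
    · rcases Nat.lt_or_ge (x 2 i) (x 3 i) with d2 | d2
      · -- S T T : 0 1 | 2 | 3
        exact p211 (hx 0) (hx 1) (hx 2) (hx 3) (hS 0 1 (by decide) (by omega))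
          (hT 0 2 (by decide) (by omega)) (hT 1 2 (by decide) (by omega))
          (hT 0 3 (by decide) (by omega)) (hT 1 3 (by decide) (by omega))
          (hT 2 3 (by decide) (by omega))
      · rcases Nat.lt_or_ge (x 3 i) (x 4 i) with d3 | d3
        · -- S T S T : 0 1 | 2 | 4
          exact p211 (hx 0) (hx 1) (hx 2) (hx 4) (hS 0 1 (by decide) (by omega))
            (hT 0 2 (by decide) (by omega)) (hT 1 2 (by decide) (by omega))
            (hT 0 4 (by decide) (by omega)) (hT 1 4 (by decide) (by omega))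
            (hT 2 4 (by decide) (by omega))
        · -- S T S S : 0 | 2 3 4
          exact p13 (hx 0) (hx 2) (hx 3) (hx 4) (hS 2 3 (by decide) (by omega))
            (hS 3 4 (by decide) (by omega)) (hS 2 4 (by decide) (by omega))
            (hT 0 2 (by decide) (by omega)) (hT 0 3 (by decide) (by omega))
            (hT 0 4 (by decide) (by omega))
    · rcases Nat.lt_or_ge (x 2 i) (x 4 i) with d2 | d2
      · -- S S, then a jump : 0 1 2 | 4
        exact p31 (hx 0) (hx 1) (hx 2) (hx 4) (hS 0 1 (by decide) (by omega))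
          (hS 1 2 (by decide) (by omega)) (hS 0 2 (by decide) (by omega))
          (hT 0 4 (by decide) (by omega)) (hT 1 4 (by decide) (by omega))
          (hT 2 4 (by decide) (by omega))
      · refine pS x hx fun k l hkl => hS k l hkl ?_
        have all : ∀ k, x k i = x 0 i := by
          intro k
          fin_cases k
          · rfl
          · show x 1 i = x 0 i
            omega
          · show x 2 i = x 0 i
            omega
          · show x 3 i = x 0 i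
            omega
          · show x 4 i = x 0 i
            omega
        rw [all k, all l]

end

end Pool.Agent.Helper77.EH
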