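import Pool.Agent.Helper77.EH.Types

/-!
Triangles of the five-level colouring (generated case analysis).
-/

set_option linter.unusedVariables false

namespace Pool.Agent.Helper77.EH

open Pool.Agent.Helper18.EH

theorem flat_AAA {n b1 b2 b3 c1 c2 c3 i : ℕ} {x y z : ℕ → ℕ}
    (hx : Inc n x)
    (hy : Inc n y)
    (hz : Inc n z)
    (h1 : TP n i x y b1 c1 .A)
    (h2 : TP n i y z b2 c2 .A)
    (h3 : TP n i x z b3 c3 .A) : False := by
  obtain ⟨p11, p12, p13, p14, v11, v12, v13, v14, v15⟩ := h1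
  obtain ⟨p21, p22, p23, p24, v21, v22, v23, v24, v25⟩ := h2
  obtain ⟨p31, p32, p33, p34, v31, v32, v33, v34, v35⟩ := h3
  have f7 : x (c1 - 1) < y (i + 1) := v13
  have f9 : x (n - 1) < y c1 := v15
  have f14 : y (b2 - 1) < z i := v21
  have f16 : y (c2 - 1) < z (i + 1) := v23
  have f18 : y (n - 1) < z c2 := v25
  have f24 : z i < x b3 := v32
  have f26 : z (c3 - 1) < x c3 := v34
  have m35 : x c3 ≤ x (n - 1) := hx.le (by omega) (by omega)
  have m67 : y (i + 1) ≤ y (b2 - 1) := hy.le (by omega) (by omega)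
  have m75 : y c1 ≤ y (n - 1) := hy.le (by omega) (by omega)
  have m82 : z (i + 1) < z (c3 - 1) := hz _ _ (by omega) (by omega)
  have d87 : c1 - 1 < b3 := hx.lt_of (a := (c1 - 1)) (b := b3) (by omega) (by omega)
  have d89 : c2 - 1 < c1 := hy.lt_of (a := (c2 - 1)) (b := c1) (by omega) (by omega)
  have d90 : c3 - 1 < c2 := hz.lt_of (a := (c3 - 1)) (b := c2) (by omega) (by omega)
  omega

theorem flat_AAB {n b1 b2 b3 c1 c2 c3 i : ℕ} {x y z : ℕ → ℕ}
    (hx : Inc n x)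
    (hy : Inc n y)
    (hz : Inc n z)
    (h1 : TP n i x y b1 c1 .A)
    (h2 : TP n i y z b2 c2 .A)
    (h3 : TP n i x z b3 c3 .B) : False := by
  obtain ⟨p11, p12, p13, p14, v11, v12, v13, v14, v15⟩ := h1
  obtain ⟨p21, p22, p23, p24, v21, v22, v23, v24, v25⟩ := h2
  obtain ⟨⟨p31, p32, p33, p34, v31, v32, v33, v34, v35⟩, q31, q32⟩ := h3
  have f7 : x (c1 - 1) < y (i + 1) := v13
  have f9 : x (n - 1) < y c1 := v15
  have f16 : y (c2 - 1) < z (i + 1) := v23
  have f18 : y (n - 1) < z c2 := v25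
  have f24 : z (i + 1) < x b3 := v32
  have f26 : z (c3 - 1) < x c3 := v34
  have m31 : x b3 < x (n - 1) := hx _ _ (by omega) (by omega)
  have m38 : x c3 ≤ x (n - 1) := hx.le (by omega) (by omega)
  have m75 : y (i + 1) < y (c2 - 1) := hy _ _ (by omega) (by omega)
  have m79 : y c1 ≤ y (n - 1) := hy.le (by omega) (by omega)
  have d97 : c1 - 1 < b3 := hx.lt_of (a := (c1 - 1)) (b := b3) (by omega) (by omega)
  have d99 : c2 - 1 < c1 := hy.lt_of (a := (c2 - 1)) (b := c1) (by omega) (by omega)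
  have d100 : c3 - 1 < c2 := hz.lt_of (a := (c3 - 1)) (b := c2) (by omega) (by omega)
  omega

theorem flat_AAC {n b1 b2 b3 c1 c2 c3 i : ℕ} {x y z : ℕ → ℕ}
    (hx : Inc n x)
    (hy : Inc n y)
    (hz : Inc n z)
    (h1 : TP n i x y b1 c1 .A)
    (h2 : TP n i y z b2 c2 .A)
    (h3 : TP n i x z b3 c3 .C) : False := by
  obtain ⟨p11, p12, p13, p14, v11, v12, v13, v14, v15⟩ := h1
  obtain ⟨p21, p22, p23, p24, v21, v22, v23, v24, v25⟩ := h2
  obtain ⟨p31, p32, p33, p34, v31, v32, v33, v34, v35⟩ := h3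
  have f7 : x (c1 - 1) < y (i + 1) := v13
  have f16 : y (c2 - 1) < z (i + 1) := v23
  have f24 : z (i + 1) < x (i + 2) := v32
  have m40 : x (i + 2) ≤ x (c1 - 1) := hx.le (by omega) (by omega)
  have m79 : y (i + 1) < y (c2 - 1) := hy _ _ (by omega) (by omega)
  omega

theorem flat_AAD {n b1 b2 b3 c1 c2 c3 i : ℕ} {x y z : ℕ → ℕ}
    (hx : Inc n x)
    (hy : Inc n y)
    (hz : Inc n z)
    (h1 : TP n i x y b1 c1 .A)
    (h2 : TP n i y z b2 c2 .A)
    (h3 : TP n i x z b3 c3 .D) : False := by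
  obtain ⟨p11, p12, p13, p14, v11, v12, v13, v14, v15⟩ := h1
  obtain ⟨p21, p22, p23, p24, v21, v22, v23, v24, v25⟩ := h2
  obtain ⟨p31, p32, p33, p34, v31, v32, v33, v34, v35⟩ := h3
  have f7 : x (c1 - 1) < y (i + 1) := v13
  have f9 : x (n - 1) < y c1 := v15
  have f14 : y (b2 - 1) < z i := v21
  have f16 : y (c2 - 1) < z (i + 1) := v23
  have f18 : y (n - 1) < z c2 := v25
  have f24 : z (i + 2) < x (i + 3) := v32
  have f26 : z (i + 3) < x c3 := v34
  have m33 : x c3 ≤ x (n - 1) := hx.le (by omega) (by omega)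
  have m46 : x (i + 3) < x (n - 1) := hx _ _ (by omega) (by omega)
  have m72 : y (i + 1) ≤ y (b2 - 1) := hy.le (by omega) (by omega)
  have m80 : y c1 ≤ y (n - 1) := hy.le (by omega) (by omega)
  have m85 : z i < z (i + 2) := hz _ _ (by omega) (by omega)
  have m90 : z (i + 1) < z (i + 2) := hz _ _ (by omega) (by omega)
  have d100 : c1 - 1 < i + 3 := hx.lt_of (a := (c1 - 1)) (b := (i + 3)) (by omega) (by omega)
  have d102 : c2 - 1 < c1 := hy.lt_of (a := (c2 - 1)) (b := c1) (by omega) (by omega)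
  have d103 : i + 3 < c2 := hz.lt_of (a := (i + 3)) (b := c2) (by omega) (by omega)
  omega

theorem flat_AAE_c1 {n b1 b2 b3 c1 c2 c3 i : ℕ} {x y z : ℕ → ℕ}
    (hx : Inc n x)
    (hy : Inc n y)
    (hz : Inc n z)
    (h1 : TP n i x y b1 c1 .A)
    (h2 : TP n i y z b2 c2 .A)
    (h3 : TP n i x z b3 c3 .E)
    (g1 : c1 ≤ i + 4) : False := by
  obtain ⟨p11, p12, p13, p14, v11, v12, v13, v14, v15⟩ := h1
  obtain ⟨p21, p22, p23, p24, v21, v22, v23, v24, v25⟩ := h2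
  obtain ⟨a3, q31, q32, p31, p32, p33, p34, v31, v32, v33, v34, v35⟩ := h3
  have f8 : y (c1 - 1) < x c1 := v14
  have f9 : x (n - 1) < y c1 := v15
  have f15 : z i < y b2 := v22
  have f16 : y (c2 - 1) < z (i + 1) := v23
  have f23 : x (b3 - 1) < z i := v31
  have f24 : z (a3 - 1) < x b3 := v32
  have m31 : x b3 < x (n - 1) := hx _ _ (by omega) (by omega)
  have m47 : x c1 ≤ x (b3 - 1) := hx.le (by omega) (by omega)
  have m69 : y b2 ≤ y (c2 - 1) := hy.le (by omega) (by omega)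
  have m111 : z (i + 1) ≤ z (a3 - 1) := hz.le (by omega) (by omega)
  have d116 : b2 < c1 := hy.lt_of (a := b2) (b := c1) (by omega) (by omega)
  have d117 : c1 - 1 < b2 := hy.lt_of (a := (c1 - 1)) (b := b2) (by omega) (by omega)
  omega

theorem flat_AAE_c2 {n b1 b2 b3 c1 c2 c3 i : ℕ} {x y z : ℕ → ℕ}
    (hx : Inc n x)
    (hy : Inc n y)
    (hz : Inc n z)
    (h1 : TP n i x y b1 c1 .A)
    (h2 : TP n i y z b2 c2 .A)
    (h3 : TP n i x z b3 c3 .E)
    (g1 : c2 ≤ i + 4) : False := by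
  obtain ⟨p11, p12, p13, p14, v11, v12, v13, v14, v15⟩ := h1
  obtain ⟨p21, p22, p23, p24, v21, v22, v23, v24, v25⟩ := h2
  obtain ⟨a3, q31, q32, p31, p32, p33, p34, v31, v32, v33, v34, v35⟩ := h3
  have f9 : x (n - 1) < y c1 := v15
  have f18 : y (n - 1) < z c2 := v25
  have f26 : z (b3 - 1) < x c3 := v34
  have m38 : x c3 ≤ x (n - 1) := hx.le (by omega) (by omega)
  have m82 : y c1 ≤ y (n - 1) := hy.le (by omega) (by omega)
  have m84 : z c2 ≤ z (b3 - 1) := hz.le (by omega) (by omega)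
  omega

theorem flat_ABA {n b1 b2 b3 c1 c2 c3 i : ℕ} {x y z : ℕ → ℕ}
    (hx : Inc n x)
    (hy : Inc n y)
    (hz : Inc n z)
    (h1 : TP n i x y b1 c1 .A)
    (h2 : TP n i y z b2 c2 .B)
    (h3 : TP n i x z b3 c3 .A) : False := by
  obtain ⟨p11, p12, p13, p14, v11, v12, v13, v14, v15⟩ := h1
  obtain ⟨⟨p21, p22, p23, p24, v21, v22, v23, v24, v25⟩, q21, q22⟩ := h2
  obtain ⟨p31, p32, p33, p34, v31, v32, v33, v34, v35⟩ := h3
  have f7 : x (c1 - 1) < y (i + 1) := v13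
  have f9 : x (n - 1) < y c1 := v15
  have f14 : y (b2 - 1) < z i := v21
  have f16 : y (c2 - 1) < z (i + 2) := v23
  have f18 : y (n - 1) < z c2 := v25
  have f24 : z i < x b3 := v32
  have f26 : z (c3 - 1) < x c3 := v34
  have m38 : x c3 ≤ x (n - 1) := hx.le (by omega) (by omega)
  have m71 : y (i + 1) < y (b2 - 1) := hy _ _ (by omega) (by omega)
  have m79 : y c1 ≤ y (n - 1) := hy.le (by omega) (by omega)
  have m93 : z (i + 2) ≤ z (c3 - 1) := hz.le (by omega) (by omega)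
  have d97 : c1 - 1 < b3 := hx.lt_of (a := (c1 - 1)) (b := b3) (by omega) (by omega)
  have d99 : c2 - 1 < c1 := hy.lt_of (a := (c2 - 1)) (b := c1) (by omega) (by omega)
  have d100 : c3 - 1 < c2 := hz.lt_of (a := (c3 - 1)) (b := c2) (by omega) (by omega)
  omega

theorem flat_ABB {n b1 b2 b3 c1 c2 c3 i : ℕ} {x y z : ℕ → ℕ}
    (hx : Inc n x)
    (hy : Inc n y)
    (hz : Inc n z)
    (h1 : TP n i x y b1 c1 .A)
    (h2 : TP n i y z b2 c2 .B)
    (h3 : TP n i x z b3 c3 .B) : False := by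
  obtain ⟨p11, p12, p13, p14, v11, v12, v13, v14, v15⟩ := h1
  obtain ⟨⟨p21, p22, p23, p24, v21, v22, v23, v24, v25⟩, q21, q22⟩ := h2
  obtain ⟨⟨p31, p32, p33, p34, v31, v32, v33, v34, v35⟩, q31, q32⟩ := h3
  have f7 : x (c1 - 1) < y (i + 1) := v13
  have f9 : x (n - 1) < y c1 := v15
  have f14 : y (b2 - 1) < z i := v21
  have f16 : y (c2 - 1) < z (i + 2) := v23
  have f24 : z (i + 1) < x b3 := v32
  have f26 : z (c3 - 1) < x c3 := v34
  have m41 : x c3 ≤ x (n - 1) := hx.le (by omega) (by omega)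
  have m75 : y (i + 1) < y (b2 - 1) := hy _ _ (by omega) (by omega)
  have m87 : z i < z (i + 1) := hz _ _ (by omega) (by omega)
  have m97 : z (i + 2) < z (c3 - 1) := hz _ _ (by omega) (by omega)
  have d101 : c1 - 1 < b3 := hx.lt_of (a := (c1 - 1)) (b := b3) (by omega) (by omega)
  have d103 : c2 - 1 < c1 := hy.lt_of (a := (c2 - 1)) (b := c1) (by omega) (by omega)
  omega

theorem flat_ABC {n b1 b2 b3 c1 c2 c3 i : ℕ} {x y z : ℕ → ℕ}
    (hx : Inc n x)
    (hy : Inc n y)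
    (hz : Inc n z)
    (h1 : TP n i x y b1 c1 .A)
    (h2 : TP n i y z b2 c2 .B)
    (h3 : TP n i x z b3 c3 .C) : False := by
  obtain ⟨p11, p12, p13, p14, v11, v12, v13, v14, v15⟩ := h1
  obtain ⟨⟨p21, p22, p23, p24, v21, v22, v23, v24, v25⟩, q21, q22⟩ := h2
  obtain ⟨p31, p32, p33, p34, v31, v32, v33, v34, v35⟩ := h3
  have f7 : x (c1 - 1) < y (i + 1) := v13
  have f14 : y (b2 - 1) < z i := v21
  have f24 : z (i + 1) < x (i + 2) := v32
  have m43 : x (i + 2) ≤ x (c1 - 1) := hx.le (by omega) (by omega)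
  have m79 : y (i + 1) < y (b2 - 1) := hy _ _ (by omega) (by omega)
  have m89 : z i < z (i + 1) := hz _ _ (by omega) (by omega)
  omega

theorem flat_ABD {n b1 b2 b3 c1 c2 c3 i : ℕ} {x y z : ℕ → ℕ}
    (hx : Inc n x)
    (hy : Inc n y)
    (hz : Inc n z)
    (h1 : TP n i x y b1 c1 .A)
    (h2 : TP n i y z b2 c2 .B)
    (h3 : TP n i x z b3 c3 .D) : False := by
  obtain ⟨p11, p12, p13, p14, v11, v12, v13, v14, v15⟩ := h1
  obtain ⟨⟨p21, p22, p23, p24, v21, v22, v23, v24, v25⟩, q21, q22⟩ := h2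
  obtain ⟨p31, p32, p33, p34, v31, v32, v33, v34, v35⟩ := h3
  have f7 : x (c1 - 1) < y (i + 1) := v13
  have f9 : x (n - 1) < y c1 := v15
  have f16 : y (c2 - 1) < z (i + 2) := v23
  have f24 : z (i + 2) < x (i + 3) := v32
  have m49 : x (i + 3) < x (n - 1) := hx _ _ (by omega) (by omega)
  have m58 : y b2 ≤ y (c2 - 1) := hy.le (by omega) (by omega)
  have m80 : y (i + 1) < y (c2 - 1) := hy _ _ (by omega) (by omega)
  have d107 : c1 - 1 < i + 3 := hx.lt_of (a := (c1 - 1)) (b := (i + 3)) (by omega) (by omega)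
  have d108 : b2 < c1 := hy.lt_of (a := b2) (b := c1) (by omega) (by omega)
  omega

theorem flat_ABE_c1 {n b1 b2 b3 c1 c2 c3 i : ℕ} {x y z : ℕ → ℕ}
    (hx : Inc n x)
    (hy : Inc n y)
    (hz : Inc n z)
    (h1 : TP n i x y b1 c1 .A)
    (h2 : TP n i y z b2 c2 .B)
    (h3 : TP n i x z b3 c3 .E)
    (g1 : c1 ≤ i + 4) : False := by
  obtain ⟨p11, p12, p13, p14, v11, v12, v13, v14, v15⟩ := h1
  obtain ⟨⟨p21, p22, p23, p24, v21, v22, v23, v24, v25⟩, q21, q22⟩ := h2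
  obtain ⟨a3, q31, q32, p31, p32, p33, p34, v31, v32, v33, v34, v35⟩ := h3
  have f9 : x (n - 1) < y c1 := v15
  have f16 : y (c2 - 1) < z (i + 2) := v23
  have f26 : z (b3 - 1) < x c3 := v34
  have m45 : x c3 ≤ x (n - 1) := hx.le (by omega) (by omega)
  have m103 : y c1 ≤ y (c2 - 1) := hy.le (by omega) (by omega)
  have m126 : z (i + 2) < z (b3 - 1) := hz _ _ (by omega) (by omega)
  omega

theorem flat_ACA {n b1 b2 b3 c1 c2 c3 i : ℕ} {x y z : ℕ → ℕ}
    (hx : Inc n x)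
    (hy : Inc n y)
    (hz : Inc n z)
    (h1 : TP n i x y b1 c1 .A)
    (h2 : TP n i y z b2 c2 .C)
    (h3 : TP n i x z b3 c3 .A) : False := by
  obtain ⟨p11, p12, p13, p14, v11, v12, v13, v14, v15⟩ := h1
  obtain ⟨p21, p22, p23, p24, v21, v22, v23, v24, v25⟩ := h2
  obtain ⟨p31, p32, p33, p34, v31, v32, v33, v34, v35⟩ := h3
  have f7 : x (c1 - 1) < y (i + 1) := v13
  have f8 : y (c1 - 1) < x c1 := v14
  have f14 : y (i + 1) < z i := v21
  have f15 : z (i + 1) < y (i + 2) := v22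
  have f24 : z i < x b3 := v32
  have f25 : x (c3 - 1) < z (i + 1) := v33
  have m29 : x b3 ≤ x (c3 - 1) := hx.le (by omega) (by omega)
  have m50 : y (i + 2) ≤ y (c1 - 1) := hy.le (by omega) (by omega)
  have d87 : b3 < c1 := hx.lt_of (a := b3) (b := c1) (by omega) (by omega)
  have d89 : c1 - 1 < b3 := hx.lt_of (a := (c1 - 1)) (b := b3) (by omega) (by omega)
  omega

theorem flat_ACB {n b1 b2 b3 c1 c2 c3 i : ℕ} {x y z : ℕ → ℕ}
    (hx : Inc n x)
    (hy : Inc n y)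
    (hz : Inc n z)
    (h1 : TP n i x y b1 c1 .A)
    (h2 : TP n i y z b2 c2 .C)
    (h3 : TP n i x z b3 c3 .B) : False := by
  obtain ⟨p11, p12, p13, p14, v11, v12, v13, v14, v15⟩ := h1
  obtain ⟨p21, p22, p23, p24, v21, v22, v23, v24, v25⟩ := h2
  obtain ⟨⟨p31, p32, p33, p34, v31, v32, v33, v34, v35⟩, q31, q32⟩ := h3
  have f9 : x (n - 1) < y c1 := v15
  have f18 : y (n - 1) < z (i + 3) := v25
  have f26 : z (c3 - 1) < x c3 := v34
  have m38 : x c3 ≤ x (n - 1) := hx.le (by omega) (by omega)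
  have m76 : y c1 ≤ y (n - 1) := hy.le (by omega) (by omega)
  have m90 : z (i + 3) < z (c3 - 1) := hz _ _ (by omega) (by omega)
  omega

theorem flat_ACC {n b1 b2 b3 c1 c2 c3 i : ℕ} {x y z : ℕ → ℕ}
    (hx : Inc n x)
    (hy : Inc n y)
    (hz : Inc n z)
    (h1 : TP n i x y b1 c1 .A)
    (h2 : TP n i y z b2 c2 .C)
    (h3 : TP n i x z b3 c3 .C) : False := by
  obtain ⟨p11, p12, p13, p14, v11, v12, v13, v14, v15⟩ := h1
  obtain ⟨p21, p22, p23, p24, v21, v22, v23, v24, v25⟩ := h2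
  obtain ⟨p31, p32, p33, p34, v31, v32, v33, v34, v35⟩ := h3
  have f7 : x (c1 - 1) < y (i + 1) := v13
  have f14 : y (i + 1) < z i := v21
  have f24 : z (i + 1) < x (i + 2) := v32
  have m40 : x (i + 2) ≤ x (c1 - 1) := hx.le (by omega) (by omega)
  have m81 : z i < z (i + 1) := hz _ _ (by omega) (by omega)
  omega

theorem flat_ACD {n b1 b2 b3 c1 c2 c3 i : ℕ} {x y z : ℕ → ℕ}
    (hx : Inc n x)
    (hy : Inc n y)
    (hz : Inc n z)
    (h1 : TP n i x y b1 c1 .A)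
    (h2 : TP n i y z b2 c2 .C)
    (h3 : TP n i x z b3 c3 .D) : False := by
  obtain ⟨p11, p12, p13, p14, v11, v12, v13, v14, v15⟩ := h1
  obtain ⟨p21, p22, p23, p24, v21, v22, v23, v24, v25⟩ := h2
  obtain ⟨p31, p32, p33, p34, v31, v32, v33, v34, v35⟩ := h3
  have f9 : x (n - 1) < y c1 := v15
  have f18 : y (n - 1) < z (i + 3) := v25
  have f26 : z (i + 3) < x c3 := v34
  have m33 : x c3 ≤ x (n - 1) := hx.le (by omega) (by omega)
  have m77 : y c1 ≤ y (n - 1) := hy.le (by omega) (by omega)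
  omega

theorem flat_ACE {n b1 b2 b3 c1 c2 c3 i : ℕ} {x y z : ℕ → ℕ}
    (hx : Inc n x)
    (hy : Inc n y)
    (hz : Inc n z)
    (h1 : TP n i x y b1 c1 .A)
    (h2 : TP n i y z b2 c2 .C)
    (h3 : TP n i x z b3 c3 .E) : False := by
  obtain ⟨p11, p12, p13, p14, v11, v12, v13, v14, v15⟩ := h1
  obtain ⟨p21, p22, p23, p24, v21, v22, v23, v24, v25⟩ := h2
  obtain ⟨a3, q31, q32, p31, p32, p33, p34, v31, v32, v33, v34, v35⟩ := h3
  have f9 : x (n - 1) < y c1 := v15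
  have f18 : y (n - 1) < z (i + 3) := v25
  have f26 : z (b3 - 1) < x c3 := v34
  have m37 : x c3 ≤ x (n - 1) := hx.le (by omega) (by omega)
  have m74 : y c1 ≤ y (n - 1) := hy.le (by omega) (by omega)
  have m98 : z (i + 3) < z (b3 - 1) := hz _ _ (by omega) (by omega)
  omega

theorem flat_ADA {n b1 b2 b3 c1 c2 c3 i : ℕ} {x y z : ℕ → ℕ}
    (hx : Inc n x)
    (hy : Inc n y)
    (hz : Inc n z)
    (h1 : TP n i x y b1 c1 .A)
    (h2 : TP n i y z b2 c2 .D)
    (h3 : TP n i x z b3 c3 .A) : False := by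
  obtain ⟨p11, p12, p13, p14, v11, v12, v13, v14, v15⟩ := h1
  obtain ⟨p21, p22, p23, p24, v21, v22, v23, v24, v25⟩ := h2
  obtain ⟨p31, p32, p33, p34, v31, v32, v33, v34, v35⟩ := h3
  have f7 : x (c1 - 1) < y (i + 1) := v13
  have f9 : x (n - 1) < y c1 := v15
  have f14 : y (i + 2) < z i := v21
  have f16 : y (c2 - 1) < z (i + 3) := v23
  have f18 : y (n - 1) < z (i + 4) := v25
  have f24 : z i < x b3 := v32
  have f26 : z (c3 - 1) < x c3 := v34
  have m36 : x c3 ≤ x (n - 1) := hx.le (by omega) (by omega)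
  have m70 : y (i + 1) < y (i + 2) := hy _ _ (by omega) (by omega)
  have m79 : y c1 ≤ y (n - 1) := hy.le (by omega) (by omega)
  have d98 : c1 - 1 < b3 := hx.lt_of (a := (c1 - 1)) (b := b3) (by omega) (by omega)
  have d99 : c3 - 1 < i + 4 := hz.lt_of (a := (c3 - 1)) (b := (i + 4)) (by omega) (by omega)
  have m108 : x c3 < x (n - 1) := hx _ _ (by omega) (by omega)
  have m131 : y c1 < y (c2 - 1) := hy _ _ (by omega) (by omega)
  have m137 : z (i + 3) ≤ z (c3 - 1) := hz.le (by omega) (by omega)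
  omega

theorem flat_ADB {n b1 b2 b3 c1 c2 c3 i : ℕ} {x y z : ℕ → ℕ}
    (hx : Inc n x)
    (hy : Inc n y)
    (hz : Inc n z)
    (h1 : TP n i x y b1 c1 .A)
    (h2 : TP n i y z b2 c2 .D)
    (h3 : TP n i x z b3 c3 .B) : False := by
  obtain ⟨p11, p12, p13, p14, v11, v12, v13, v14, v15⟩ := h1
  obtain ⟨p21, p22, p23, p24, v21, v22, v23, v24, v25⟩ := h2
  obtain ⟨⟨p31, p32, p33, p34, v31, v32, v33, v34, v35⟩, q31, q32⟩ := h3
  have f9 : x (n - 1) < y c1 := v15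
  have f18 : y (n - 1) < z (i + 4) := v25
  have f26 : z (c3 - 1) < x c3 := v34
  have m39 : x c3 ≤ x (n - 1) := hx.le (by omega) (by omega)
  have m83 : y c1 ≤ y (n - 1) := hy.le (by omega) (by omega)
  have m84 : z (i + 4) ≤ z (c3 - 1) := hz.le (by omega) (by omega)
  omega

theorem flat_ADC {n b1 b2 b3 c1 c2 c3 i : ℕ} {x y z : ℕ → ℕ}
    (hx : Inc n x)
    (hy : Inc n y)
    (hz : Inc n z)
    (h1 : TP n i x y b1 c1 .A)
    (h2 : TP n i y z b2 c2 .D)
    (h3 : TP n i x z b3 c3 .C) : False := by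
  obtain ⟨p11, p12, p13, p14, v11, v12, v13, v14, v15⟩ := h1
  obtain ⟨p21, p22, p23, p24, v21, v22, v23, v24, v25⟩ := h2
  obtain ⟨p31, p32, p33, p34, v31, v32, v33, v34, v35⟩ := h3
  have f7 : x (c1 - 1) < y (i + 1) := v13
  have f14 : y (i + 2) < z i := v21
  have f24 : z (i + 1) < x (i + 2) := v32
  have m41 : x (i + 2) ≤ x (c1 - 1) := hx.le (by omega) (by omega)
  have m78 : y (i + 1) < y (i + 2) := hy _ _ (by omega) (by omega)
  have m89 : z i < z (i + 1) := hz _ _ (by omega) (by omega)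
  omega

theorem flat_ADD {n b1 b2 b3 c1 c2 c3 i : ℕ} {x y z : ℕ → ℕ}
    (hx : Inc n x)
    (hy : Inc n y)
    (hz : Inc n z)
    (h1 : TP n i x y b1 c1 .A)
    (h2 : TP n i y z b2 c2 .D)
    (h3 : TP n i x z b3 c3 .D) : False := by
  obtain ⟨p11, p12, p13, p14, v11, v12, v13, v14, v15⟩ := h1
  obtain ⟨p21, p22, p23, p24, v21, v22, v23, v24, v25⟩ := h2
  obtain ⟨p31, p32, p33, p34, v31, v32, v33, v34, v35⟩ := h3
  have f7 : x (c1 - 1) < y (i + 1) := v13
  have f9 : x (n - 1) < y c1 := v15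
  have f14 : y (i + 2) < z i := v21
  have f16 : y (c2 - 1) < z (i + 3) := v23
  have f24 : z (i + 2) < x (i + 3) := v32
  have f26 : z (i + 3) < x c3 := v34
  have m34 : x c3 ≤ x (n - 1) := hx.le (by omega) (by omega)
  have m62 : y (i + 3) < y (c2 - 1) := hy _ _ (by omega) (by omega)
  have m75 : y (i + 1) < y (i + 2) := hy _ _ (by omega) (by omega)
  have m86 : z i < z (i + 2) := hz _ _ (by omega) (by omega)
  have d92 : c1 - 1 < i + 3 := hx.lt_of (a := (c1 - 1)) (b := (i + 3)) (by omega) (by omega)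
  have d93 : i + 3 < c1 := hy.lt_of (a := (i + 3)) (b := c1) (by omega) (by omega)
  omega

theorem flat_ADE {n b1 b2 b3 c1 c2 c3 i : ℕ} {x y z : ℕ → ℕ}
    (hx : Inc n x)
    (hy : Inc n y)
    (hz : Inc n z)
    (h1 : TP n i x y b1 c1 .A)
    (h2 : TP n i y z b2 c2 .D)
    (h3 : TP n i x z b3 c3 .E) : False := by
  obtain ⟨p11, p12, p13, p14, v11, v12, v13, v14, v15⟩ := h1
  obtain ⟨p21, p22, p23, p24, v21, v22, v23, v24, v25⟩ := h2
  obtain ⟨a3, q31, q32, p31, p32, p33, p34, v31, v32, v33, v34, v35⟩ := h3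
  have f9 : x (n - 1) < y c1 := v15
  have f18 : y (n - 1) < z (i + 4) := v25
  have f26 : z (b3 - 1) < x c3 := v34
  have m38 : x c3 ≤ x (n - 1) := hx.le (by omega) (by omega)
  have m81 : y c1 ≤ y (n - 1) := hy.le (by omega) (by omega)
  have m83 : z (i + 4) ≤ z (b3 - 1) := hz.le (by omega) (by omega)
  omega

theorem flat_AEA {n b1 b2 b3 c1 c2 c3 i : ℕ} {x y z : ℕ → ℕ}
    (hx : Inc n x)
    (hy : Inc n y)
    (hz : Inc n z)
    (h1 : TP n i x y b1 c1 .A)
    (h2 : TP n i y z b2 c2 .E)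
    (h3 : TP n i x z b3 c3 .A) : False := by
  obtain ⟨p11, p12, p13, p14, v11, v12, v13, v14, v15⟩ := h1
  obtain ⟨a2, q21, q22, p21, p22, p23, p24, v21, v22, v23, v24, v25⟩ := h2
  obtain ⟨p31, p32, p33, p34, v31, v32, v33, v34, v35⟩ := h3
  have f7 : x (c1 - 1) < y (i + 1) := v13
  have f9 : x (n - 1) < y c1 := v15
  have f14 : y (b2 - 1) < z i := v21
  have f18 : y (n - 1) < z b2 := v25
  have f24 : z i < x b3 := v32
  have f26 : z (c3 - 1) < x c3 := v34
  have m30 : x b3 < x (n - 1) := hx _ _ (by omega) (by omega)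
  have m37 : x c3 ≤ x (n - 1) := hx.le (by omega) (by omega)
  have m69 : y (i + 1) < y (b2 - 1) := hy _ _ (by omega) (by omega)
  have m77 : y c1 ≤ y (n - 1) := hy.le (by omega) (by omega)
  have d98 : c1 - 1 < b3 := hx.lt_of (a := (c1 - 1)) (b := b3) (by omega) (by omega)
  have d99 : b2 - 1 < c1 := hy.lt_of (a := (b2 - 1)) (b := c1) (by omega) (by omega)
  have d100 : c3 - 1 < b2 := hz.lt_of (a := (c3 - 1)) (b := b2) (by omega) (by omega)
  omega

theorem flat_AEB {n b1 b2 b3 c1 c2 c3 i : ℕ} {x y z : ℕ → ℕ}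
    (hx : Inc n x)
    (hy : Inc n y)
    (hz : Inc n z)
    (h1 : TP n i x y b1 c1 .A)
    (h2 : TP n i y z b2 c2 .E)
    (h3 : TP n i x z b3 c3 .B) : False := by
  obtain ⟨p11, p12, p13, p14, v11, v12, v13, v14, v15⟩ := h1
  obtain ⟨a2, q21, q22, p21, p22, p23, p24, v21, v22, v23, v24, v25⟩ := h2
  obtain ⟨⟨p31, p32, p33, p34, v31, v32, v33, v34, v35⟩, q31, q32⟩ := h3
  have f7 : x (c1 - 1) < y (i + 1) := v13
  have f9 : x (n - 1) < y c1 := v15
  have f14 : y (b2 - 1) < z i := v21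
  have f24 : z (i + 1) < x b3 := v32
  have f26 : z (c3 - 1) < x c3 := v34
  have m40 : x c3 ≤ x (n - 1) := hx.le (by omega) (by omega)
  have m73 : y (i + 1) < y (b2 - 1) := hy _ _ (by omega) (by omega)
  have m86 : z i < z (c3 - 1) := hz _ _ (by omega) (by omega)
  have m89 : z i < z (i + 1) := hz _ _ (by omega) (by omega)
  have d109 : c1 - 1 < b3 := hx.lt_of (a := (c1 - 1)) (b := b3) (by omega) (by omega)
  have d110 : b2 - 1 < c1 := hy.lt_of (a := (b2 - 1)) (b := c1) (by omega) (by omega)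
  omega

theorem flat_AEC {n b1 b2 b3 c1 c2 c3 i : ℕ} {x y z : ℕ → ℕ}
    (hx : Inc n x)
    (hy : Inc n y)
    (hz : Inc n z)
    (h1 : TP n i x y b1 c1 .A)
    (h2 : TP n i y z b2 c2 .E)
    (h3 : TP n i x z b3 c3 .C) : False := by
  obtain ⟨p11, p12, p13, p14, v11, v12, v13, v14, v15⟩ := h1
  obtain ⟨a2, q21, q22, p21, p22, p23, p24, v21, v22, v23, v24, v25⟩ := h2
  obtain ⟨p31, p32, p33, p34, v31, v32, v33, v34, v35⟩ := h3
  have f7 : x (c1 - 1) < y (i + 1) := v13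
  have f14 : y (b2 - 1) < z i := v21
  have f24 : z (i + 1) < x (i + 2) := v32
  have m42 : x (i + 2) ≤ x (c1 - 1) := hx.le (by omega) (by omega)
  have m77 : y (i + 1) < y (b2 - 1) := hy _ _ (by omega) (by omega)
  have m91 : z i < z (i + 1) := hz _ _ (by omega) (by omega)
  omega

theorem flat_AED {n b1 b2 b3 c1 c2 c3 i : ℕ} {x y z : ℕ → ℕ}
    (hx : Inc n x)
    (hy : Inc n y)
    (hz : Inc n z)
    (h1 : TP n i x y b1 c1 .A)
    (h2 : TP n i y z b2 c2 .E)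
    (h3 : TP n i x z b3 c3 .D) : False := by
  obtain ⟨p11, p12, p13, p14, v11, v12, v13, v14, v15⟩ := h1
  obtain ⟨a2, q21, q22, p21, p22, p23, p24, v21, v22, v23, v24, v25⟩ := h2
  obtain ⟨p31, p32, p33, p34, v31, v32, v33, v34, v35⟩ := h3
  have f7 : x (c1 - 1) < y (i + 1) := v13
  have f9 : x (n - 1) < y c1 := v15
  have f14 : y (b2 - 1) < z i := v21
  have f24 : z (i + 2) < x (i + 3) := v32
  have m48 : x (i + 3) < x (n - 1) := hx _ _ (by omega) (by omega)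
  have m74 : y (i + 1) < y (b2 - 1) := hy _ _ (by omega) (by omega)
  have m92 : z i < z (i + 2) := hz _ _ (by omega) (by omega)
  have d107 : c1 - 1 < i + 3 := hx.lt_of (a := (c1 - 1)) (b := (i + 3)) (by omega) (by omega)
  have d108 : b2 - 1 < c1 := hy.lt_of (a := (b2 - 1)) (b := c1) (by omega) (by omega)
  omega

theorem flat_AEE {n b1 b2 b3 c1 c2 c3 i : ℕ} {x y z : ℕ → ℕ}
    (hx : Inc n x)
    (hy : Inc n y)
    (hz : Inc n z)
    (h1 : TP n i x y b1 c1 .A)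
    (h2 : TP n i y z b2 c2 .E)
    (h3 : TP n i x z b3 c3 .E) : False := by
  obtain ⟨p11, p12, p13, p14, v11, v12, v13, v14, v15⟩ := h1
  obtain ⟨a2, q21, q22, p21, p22, p23, p24, v21, v22, v23, v24, v25⟩ := h2
  obtain ⟨a3, q31, q32, p31, p32, p33, p34, v31, v32, v33, v34, v35⟩ := h3
  have f7 : x (c1 - 1) < y (i + 1) := v13
  have f9 : x (n - 1) < y c1 := v15
  have f14 : y (b2 - 1) < z i := v21
  have f16 : y (c2 - 1) < z a2 := v23
  have f18 : y (n - 1) < z b2 := v25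
  have f24 : z (a3 - 1) < x b3 := v32
  have f26 : z (b3 - 1) < x c3 := v34
  have m32 : x b3 < x (n - 1) := hx _ _ (by omega) (by omega)
  have m39 : x c3 ≤ x (n - 1) := hx.le (by omega) (by omega)
  have m71 : y (i + 1) < y (b2 - 1) := hy _ _ (by omega) (by omega)
  have m79 : y c1 ≤ y (n - 1) := hy.le (by omega) (by omega)
  have m90 : z i < z (a3 - 1) := hz _ _ (by omega) (by omega)
  have d100 : c1 - 1 < b3 := hx.lt_of (a := (c1 - 1)) (b := b3) (by omega) (by omega)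
  have d101 : b2 - 1 < c1 := hy.lt_of (a := (b2 - 1)) (b := c1) (by omega) (by omega)
  have d102 : b3 - 1 < b2 := hz.lt_of (a := (b3 - 1)) (b := b2) (by omega) (by omega)
  have m132 : y c1 ≤ y (c2 - 1) := hy.le (by omega) (by omega)
  have m135 : z a2 ≤ z (b3 - 1) := hz.le (by omega) (by omega)
  omega

end Pool.Agent.Helper77.EH
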