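import Pool.Agent.Helper77.EH.Types

/-!
Triangles of the five-level colouring (generated case analysis).
-/

set_option linter.unusedVariables false

namespace Pool.Agent.Helper77.EH

open Pool.Agent.Helper18.EH

theorem flat_BAA_b2 {n b1 b2 b3 c1 c2 c3 i : ℕ} {x y z : ℕ → ℕ}
    (hx : Inc n x)
    (hy : Inc n y)
    (hz : Inc n z)
    (h1 : TP n i x y b1 c1 .B)
    (h2 : TP n i y z b2 c2 .A)
    (h3 : TP n i x z b3 c3 .A)
    (g1 : i + 3 ≤ b2) : False := by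
  obtain ⟨⟨p11, p12, p13, p14, v11, v12, v13, v14, v15⟩, q11, q12⟩ := h1
  obtain ⟨p21, p22, p23, p24, v21, v22, v23, v24, v25⟩ := h2
  obtain ⟨p31, p32, p33, p34, v31, v32, v33, v34, v35⟩ := h3
  have f7 : x (c1 - 1) < y (i + 2) := v13
  have f9 : x (n - 1) < y c1 := v15
  have f14 : y (b2 - 1) < z i := v21
  have f16 : y (c2 - 1) < z (i + 1) := v23
  have f18 : y (n - 1) < z c2 := v25
  have f24 : z i < x b3 := v32
  have f26 : z (c3 - 1) < x c3 := v34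
  have m39 : x c3 ≤ x (n - 1) := hx.le (by omega) (by omega)
  have m57 : y (i + 2) ≤ y (b2 - 1) := hy.le (by omega) (by omega)
  have m89 : y c1 ≤ y (n - 1) := hy.le (by omega) (by omega)
  have m96 : z (i + 1) < z (c3 - 1) := hz _ _ (by omega) (by omega)
  have d101 : c1 - 1 < b3 := hx.lt_of (a := (c1 - 1)) (b := b3) (by omega) (by omega)
  have d103 : c2 - 1 < c1 := hy.lt_of (a := (c2 - 1)) (b := c1) (by omega) (by omega)
  have d104 : c3 - 1 < c2 := hz.lt_of (a := (c3 - 1)) (b := c2) (by omega) (by omega)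
  omega

theorem flat_BAA_b3 {n b1 b2 b3 c1 c2 c3 i : ℕ} {x y z : ℕ → ℕ}
    (hx : Inc n x)
    (hy : Inc n y)
    (hz : Inc n z)
    (h1 : TP n i x y b1 c1 .B)
    (h2 : TP n i y z b2 c2 .A)
    (h3 : TP n i x z b3 c3 .A)
    (g1 : b3 ≤ i + 2) : False := by
  obtain ⟨⟨p11, p12, p13, p14, v11, v12, v13, v14, v15⟩, q11, q12⟩ := h1
  obtain ⟨p21, p22, p23, p24, v21, v22, v23, v24, v25⟩ := h2
  obtain ⟨p31, p32, p33, p34, v31, v32, v33, v34, v35⟩ := h3
  have f5 : x (b1 - 1) < y i := v11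
  have f14 : y (b2 - 1) < z i := v21
  have f24 : z i < x b3 := v32
  have m37 : x b3 ≤ x (b1 - 1) := hx.le (by omega) (by omega)
  have m78 : y i < y (b2 - 1) := hy _ _ (by omega) (by omega)
  omega

theorem flat_BAA_c2 {n b1 b2 b3 c1 c2 c3 i : ℕ} {x y z : ℕ → ℕ}
    (hx : Inc n x)
    (hy : Inc n y)
    (hz : Inc n z)
    (h1 : TP n i x y b1 c1 .B)
    (h2 : TP n i y z b2 c2 .A)
    (h3 : TP n i x z b3 c3 .A)
    (g1 : c2 ≤ i + 4) : False := by
  obtain ⟨⟨p11, p12, p13, p14, v11, v12, v13, v14, v15⟩, q11, q12⟩ := h1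
  obtain ⟨p21, p22, p23, p24, v21, v22, v23, v24, v25⟩ := h2
  obtain ⟨p31, p32, p33, p34, v31, v32, v33, v34, v35⟩ := h3
  have f7 : x (c1 - 1) < y (i + 2) := v13
  have f9 : x (n - 1) < y c1 := v15
  have f16 : y (c2 - 1) < z (i + 1) := v23
  have f18 : y (n - 1) < z c2 := v25
  have f26 : z (c3 - 1) < x c3 := v34
  have m39 : x c3 ≤ x (n - 1) := hx.le (by omega) (by omega)
  have m62 : y (i + 2) ≤ y (c2 - 1) := hy.le (by omega) (by omega)
  have m97 : y c1 ≤ y (n - 1) := hy.le (by omega) (by omega)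
  have m104 : z (i + 1) < z (c3 - 1) := hz _ _ (by omega) (by omega)
  have d112 : c1 - 1 < c3 := hx.lt_of (a := (c1 - 1)) (b := c3) (by omega) (by omega)
  have d114 : c3 - 1 < c2 := hz.lt_of (a := (c3 - 1)) (b := c2) (by omega) (by omega)
  omega

theorem flat_BAA_c3 {n b1 b2 b3 c1 c2 c3 i : ℕ} {x y z : ℕ → ℕ}
    (hx : Inc n x)
    (hy : Inc n y)
    (hz : Inc n z)
    (h1 : TP n i x y b1 c1 .B)
    (h2 : TP n i y z b2 c2 .A)
    (h3 : TP n i x z b3 c3 .A)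
    (g1 : c3 ≤ i + 4) : False := by
  obtain ⟨⟨p11, p12, p13, p14, v11, v12, v13, v14, v15⟩, q11, q12⟩ := h1
  obtain ⟨p21, p22, p23, p24, v21, v22, v23, v24, v25⟩ := h2
  obtain ⟨p31, p32, p33, p34, v31, v32, v33, v34, v35⟩ := h3
  have f7 : x (c1 - 1) < y (i + 2) := v13
  have f16 : y (c2 - 1) < z (i + 1) := v23
  have f26 : z (c3 - 1) < x c3 := v34
  have m46 : x c3 ≤ x (c1 - 1) := hx.le (by omega) (by omega)
  have m72 : y (i + 2) ≤ y (c2 - 1) := hy.le (by omega) (by omega)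
  have m108 : z (i + 1) < z (c3 - 1) := hz _ _ (by omega) (by omega)
  omega

theorem flat_BAB {n b1 b2 b3 c1 c2 c3 i : ℕ} {x y z : ℕ → ℕ}
    (hx : Inc n x)
    (hy : Inc n y)
    (hz : Inc n z)
    (h1 : TP n i x y b1 c1 .B)
    (h2 : TP n i y z b2 c2 .A)
    (h3 : TP n i x z b3 c3 .B) : False := by
  obtain ⟨⟨p11, p12, p13, p14, v11, v12, v13, v14, v15⟩, q11, q12⟩ := h1
  obtain ⟨p21, p22, p23, p24, v21, v22, v23, v24, v25⟩ := h2
  obtain ⟨⟨p31, p32, p33, p34, v31, v32, v33, v34, v35⟩, q31, q32⟩ := h3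
  have f7 : x (c1 - 1) < y (i + 2) := v13
  have f16 : y (c2 - 1) < z (i + 1) := v23
  have f24 : z (i + 1) < x b3 := v32
  have m36 : x b3 ≤ x (c1 - 1) := hx.le (by omega) (by omega)
  have m71 : y (i + 2) ≤ y (c2 - 1) := hy.le (by omega) (by omega)
  omega

theorem flat_BAC {n b1 b2 b3 c1 c2 c3 i : ℕ} {x y z : ℕ → ℕ}
    (hx : Inc n x)
    (hy : Inc n y)
    (hz : Inc n z)
    (h1 : TP n i x y b1 c1 .B)
    (h2 : TP n i y z b2 c2 .A)
    (h3 : TP n i x z b3 c3 .C) : False := by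
  obtain ⟨⟨p11, p12, p13, p14, v11, v12, v13, v14, v15⟩, q11, q12⟩ := h1
  obtain ⟨p21, p22, p23, p24, v21, v22, v23, v24, v25⟩ := h2
  obtain ⟨p31, p32, p33, p34, v31, v32, v33, v34, v35⟩ := h3
  have f5 : x (b1 - 1) < y i := v11
  have f16 : y (c2 - 1) < z (i + 1) := v23
  have f24 : z (i + 1) < x (i + 2) := v32
  have m45 : x (i + 2) ≤ x (b1 - 1) := hx.le (by omega) (by omega)
  have m89 : y i < y (c2 - 1) := hy _ _ (by omega) (by omega)
  omega

theorem flat_BAD {n b1 b2 b3 c1 c2 c3 i : ℕ} {x y z : ℕ → ℕ}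
    (hx : Inc n x)
    (hy : Inc n y)
    (hz : Inc n z)
    (h1 : TP n i x y b1 c1 .B)
    (h2 : TP n i y z b2 c2 .A)
    (h3 : TP n i x z b3 c3 .D) : False := by
  obtain ⟨⟨p11, p12, p13, p14, v11, v12, v13, v14, v15⟩, q11, q12⟩ := h1
  obtain ⟨p21, p22, p23, p24, v21, v22, v23, v24, v25⟩ := h2
  obtain ⟨p31, p32, p33, p34, v31, v32, v33, v34, v35⟩ := h3
  have f7 : x (c1 - 1) < y (i + 2) := v13
  have f16 : y (c2 - 1) < z (i + 1) := v23
  have f24 : z (i + 2) < x (i + 3) := v32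
  have m55 : x (i + 3) < x (c1 - 1) := hx _ _ (by omega) (by omega)
  have m71 : y (i + 2) ≤ y (c2 - 1) := hy.le (by omega) (by omega)
  have m109 : z (i + 1) < z (i + 2) := hz _ _ (by omega) (by omega)
  omega

theorem flat_BAE_c2 {n b1 b2 b3 c1 c2 c3 i : ℕ} {x y z : ℕ → ℕ}
    (hx : Inc n x)
    (hy : Inc n y)
    (hz : Inc n z)
    (h1 : TP n i x y b1 c1 .B)
    (h2 : TP n i y z b2 c2 .A)
    (h3 : TP n i x z b3 c3 .E)
    (g1 : c2 ≤ i + 4) : False := by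
  obtain ⟨⟨p11, p12, p13, p14, v11, v12, v13, v14, v15⟩, q11, q12⟩ := h1
  obtain ⟨p21, p22, p23, p24, v21, v22, v23, v24, v25⟩ := h2
  obtain ⟨a3, q31, q32, p31, p32, p33, p34, v31, v32, v33, v34, v35⟩ := h3
  have f9 : x (n - 1) < y c1 := v15
  have f18 : y (n - 1) < z c2 := v25
  have f26 : z (b3 - 1) < x c3 := v34
  have m41 : x c3 ≤ x (n - 1) := hx.le (by omega) (by omega)
  have m106 : y c1 ≤ y (n - 1) := hy.le (by omega) (by omega)
  have m108 : z c2 ≤ z (b3 - 1) := hz.le (by omega) (by omega)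
  omega

theorem flat_BBA {n b1 b2 b3 c1 c2 c3 i : ℕ} {x y z : ℕ → ℕ}
    (hx : Inc n x)
    (hy : Inc n y)
    (hz : Inc n z)
    (h1 : TP n i x y b1 c1 .B)
    (h2 : TP n i y z b2 c2 .B)
    (h3 : TP n i x z b3 c3 .A) : False := by
  obtain ⟨⟨p11, p12, p13, p14, v11, v12, v13, v14, v15⟩, q11, q12⟩ := h1
  obtain ⟨⟨p21, p22, p23, p24, v21, v22, v23, v24, v25⟩, q21, q22⟩ := h2
  obtain ⟨p31, p32, p33, p34, v31, v32, v33, v34, v35⟩ := h3
  have f7 : x (c1 - 1) < y (i + 2) := v13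
  have f8 : y (c1 - 1) < x c1 := v14
  have f14 : y (b2 - 1) < z i := v21
  have f15 : z (i + 1) < y b2 := v22
  have f24 : z i < x b3 := v32
  have f25 : x (c3 - 1) < z (i + 1) := v33
  have m35 : x b3 ≤ x (c3 - 1) := hx.le (by omega) (by omega)
  have m55 : y b2 ≤ y (c1 - 1) := hy.le (by omega) (by omega)
  have m61 : y (i + 2) ≤ y (b2 - 1) := hy.le (by omega) (by omega)
  have d113 : b3 < c1 := hx.lt_of (a := b3) (b := c1) (by omega) (by omega)
  have d115 : c1 - 1 < b3 := hx.lt_of (a := (c1 - 1)) (b := b3) (by omega) (by omega)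
  omega

theorem flat_BBB {n b1 b2 b3 c1 c2 c3 i : ℕ} {x y z : ℕ → ℕ}
    (hx : Inc n x)
    (hy : Inc n y)
    (hz : Inc n z)
    (h1 : TP n i x y b1 c1 .B)
    (h2 : TP n i y z b2 c2 .B)
    (h3 : TP n i x z b3 c3 .B) : False := by
  obtain ⟨⟨p11, p12, p13, p14, v11, v12, v13, v14, v15⟩, q11, q12⟩ := h1
  obtain ⟨⟨p21, p22, p23, p24, v21, v22, v23, v24, v25⟩, q21, q22⟩ := h2
  obtain ⟨⟨p31, p32, p33, p34, v31, v32, v33, v34, v35⟩, q31, q32⟩ := h3
  have f7 : x (c1 - 1) < y (i + 2) := v13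
  have f14 : y (b2 - 1) < z i := v21
  have f24 : z (i + 1) < x b3 := v32
  have m39 : x b3 ≤ x (c1 - 1) := hx.le (by omega) (by omega)
  have m73 : y (i + 2) ≤ y (b2 - 1) := hy.le (by omega) (by omega)
  have m111 : z i < z (i + 1) := hz _ _ (by omega) (by omega)
  omega

theorem flat_BBC {n b1 b2 b3 c1 c2 c3 i : ℕ} {x y z : ℕ → ℕ}
    (hx : Inc n x)
    (hy : Inc n y)
    (hz : Inc n z)
    (h1 : TP n i x y b1 c1 .B)
    (h2 : TP n i y z b2 c2 .B)
    (h3 : TP n i x z b3 c3 .C) : False := by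
  obtain ⟨⟨p11, p12, p13, p14, v11, v12, v13, v14, v15⟩, q11, q12⟩ := h1
  obtain ⟨⟨p21, p22, p23, p24, v21, v22, v23, v24, v25⟩, q21, q22⟩ := h2
  obtain ⟨p31, p32, p33, p34, v31, v32, v33, v34, v35⟩ := h3
  have f7 : x (c1 - 1) < y (i + 2) := v13
  have f16 : y (c2 - 1) < z (i + 2) := v23
  have f26 : z (i + 2) < x (i + 4) := v34
  have m64 : x (i + 4) ≤ x (c1 - 1) := hx.le (by omega) (by omega)
  have m80 : y (i + 2) < y (c2 - 1) := hy _ _ (by omega) (by omega)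
  omega

theorem flat_BBD {n b1 b2 b3 c1 c2 c3 i : ℕ} {x y z : ℕ → ℕ}
    (hx : Inc n x)
    (hy : Inc n y)
    (hz : Inc n z)
    (h1 : TP n i x y b1 c1 .B)
    (h2 : TP n i y z b2 c2 .B)
    (h3 : TP n i x z b3 c3 .D) : False := by
  obtain ⟨⟨p11, p12, p13, p14, v11, v12, v13, v14, v15⟩, q11, q12⟩ := h1
  obtain ⟨⟨p21, p22, p23, p24, v21, v22, v23, v24, v25⟩, q21, q22⟩ := h2
  obtain ⟨p31, p32, p33, p34, v31, v32, v33, v34, v35⟩ := h3
  have f7 : x (c1 - 1) < y (i + 2) := v13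
  have f16 : y (c2 - 1) < z (i + 2) := v23
  have f24 : z (i + 2) < x (i + 3) := v32
  have m58 : x (i + 3) < x (c1 - 1) := hx _ _ (by omega) (by omega)
  have m77 : y (i + 2) < y (c2 - 1) := hy _ _ (by omega) (by omega)
  omega

theorem flat_BCA {n b1 b2 b3 c1 c2 c3 i : ℕ} {x y z : ℕ → ℕ}
    (hx : Inc n x)
    (hy : Inc n y)
    (hz : Inc n z)
    (h1 : TP n i x y b1 c1 .B)
    (h2 : TP n i y z b2 c2 .C)
    (h3 : TP n i x z b3 c3 .A) : False := by
  obtain ⟨⟨p11, p12, p13, p14, v11, v12, v13, v14, v15⟩, q11, q12⟩ := h1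
  obtain ⟨p21, p22, p23, p24, v21, v22, v23, v24, v25⟩ := h2
  obtain ⟨p31, p32, p33, p34, v31, v32, v33, v34, v35⟩ := h3
  have f7 : x (c1 - 1) < y (i + 2) := v13
  have f9 : x (n - 1) < y c1 := v15
  have f16 : y (i + 3) < z (i + 2) := v23
  have f18 : y (n - 1) < z (i + 3) := v25
  have f26 : z (c3 - 1) < x c3 := v34
  have m38 : x c3 ≤ x (n - 1) := hx.le (by omega) (by omega)
  have m52 : y (i + 2) < y (i + 3) := hy _ _ (by omega) (by omega)
  have m79 : y c1 ≤ y (n - 1) := hy.le (by omega) (by omega)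
  have m90 : z (i + 2) ≤ z (c3 - 1) := hz.le (by omega) (by omega)
  have d96 : c1 - 1 < c3 := hx.lt_of (a := (c1 - 1)) (b := c3) (by omega) (by omega)
  have d98 : c3 - 1 < i + 3 := hz.lt_of (a := (c3 - 1)) (b := (i + 3)) (by omega) (by omega)
  omega

theorem flat_BCB {n b1 b2 b3 c1 c2 c3 i : ℕ} {x y z : ℕ → ℕ}
    (hx : Inc n x)
    (hy : Inc n y)
    (hz : Inc n z)
    (h1 : TP n i x y b1 c1 .B)
    (h2 : TP n i y z b2 c2 .C)
    (h3 : TP n i x z b3 c3 .B) : False := by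
  obtain ⟨⟨p11, p12, p13, p14, v11, v12, v13, v14, v15⟩, q11, q12⟩ := h1
  obtain ⟨p21, p22, p23, p24, v21, v22, v23, v24, v25⟩ := h2
  obtain ⟨⟨p31, p32, p33, p34, v31, v32, v33, v34, v35⟩, q31, q32⟩ := h3
  have f9 : x (n - 1) < y c1 := v15
  have f18 : y (n - 1) < z (i + 3) := v25
  have f26 : z (c3 - 1) < x c3 := v34
  have m43 : x c3 ≤ x (n - 1) := hx.le (by omega) (by omega)
  have m91 : y c1 ≤ y (n - 1) := hy.le (by omega) (by omega)
  have m105 : z (i + 3) < z (c3 - 1) := hz _ _ (by omega) (by omega)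
  omega

theorem flat_BCC {n b1 b2 b3 c1 c2 c3 i : ℕ} {x y z : ℕ → ℕ}
    (hx : Inc n x)
    (hy : Inc n y)
    (hz : Inc n z)
    (h1 : TP n i x y b1 c1 .B)
    (h2 : TP n i y z b2 c2 .C)
    (h3 : TP n i x z b3 c3 .C) : False := by
  obtain ⟨⟨p11, p12, p13, p14, v11, v12, v13, v14, v15⟩, q11, q12⟩ := h1
  obtain ⟨p21, p22, p23, p24, v21, v22, v23, v24, v25⟩ := h2
  obtain ⟨p31, p32, p33, p34, v31, v32, v33, v34, v35⟩ := h3
  have f7 : x (c1 - 1) < y (i + 2) := v13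
  have f16 : y (i + 3) < z (i + 2) := v23
  have f26 : z (i + 2) < x (i + 4) := v34
  have m61 : x (i + 4) ≤ x (c1 - 1) := hx.le (by omega) (by omega)
  have m67 : y (i + 2) < y (i + 3) := hy _ _ (by omega) (by omega)
  omega

theorem flat_BCD {n b1 b2 b3 c1 c2 c3 i : ℕ} {x y z : ℕ → ℕ}
    (hx : Inc n x)
    (hy : Inc n y)
    (hz : Inc n z)
    (h1 : TP n i x y b1 c1 .B)
    (h2 : TP n i y z b2 c2 .C)
    (h3 : TP n i x z b3 c3 .D) : False := by
  obtain ⟨⟨p11, p12, p13, p14, v11, v12, v13, v14, v15⟩, q11, q12⟩ := h1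
  obtain ⟨p21, p22, p23, p24, v21, v22, v23, v24, v25⟩ := h2
  obtain ⟨p31, p32, p33, p34, v31, v32, v33, v34, v35⟩ := h3
  have f7 : x (c1 - 1) < y (i + 2) := v13
  have f16 : y (i + 3) < z (i + 2) := v23
  have f24 : z (i + 2) < x (i + 3) := v32
  have m55 : x (i + 3) < x (c1 - 1) := hx _ _ (by omega) (by omega)
  have m64 : y (i + 2) < y (i + 3) := hy _ _ (by omega) (by omega)
  omega

theorem flat_BCE {n b1 b2 b3 c1 c2 c3 i : ℕ} {x y z : ℕ → ℕ}
    (hx : Inc n x)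
    (hy : Inc n y)
    (hz : Inc n z)
    (h1 : TP n i x y b1 c1 .B)
    (h2 : TP n i y z b2 c2 .C)
    (h3 : TP n i x z b3 c3 .E) : False := by
  obtain ⟨⟨p11, p12, p13, p14, v11, v12, v13, v14, v15⟩, q11, q12⟩ := h1
  obtain ⟨p21, p22, p23, p24, v21, v22, v23, v24, v25⟩ := h2
  obtain ⟨a3, q31, q32, p31, p32, p33, p34, v31, v32, v33, v34, v35⟩ := h3
  have f9 : x (n - 1) < y c1 := v15
  have f18 : y (n - 1) < z (i + 3) := v25
  have f26 : z (b3 - 1) < x c3 := v34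
  have m40 : x c3 ≤ x (n - 1) := hx.le (by omega) (by omega)
  have m88 : y c1 ≤ y (n - 1) := hy.le (by omega) (by omega)
  have m112 : z (i + 3) < z (b3 - 1) := hz _ _ (by omega) (by omega)
  omega

theorem flat_BDA {n b1 b2 b3 c1 c2 c3 i : ℕ} {x y z : ℕ → ℕ}
    (hx : Inc n x)
    (hy : Inc n y)
    (hz : Inc n z)
    (h1 : TP n i x y b1 c1 .B)
    (h2 : TP n i y z b2 c2 .D)
    (h3 : TP n i x z b3 c3 .A) : False := by
  obtain ⟨⟨p11, p12, p13, p14, v11, v12, v13, v14, v15⟩, q11, q12⟩ := h1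
  obtain ⟨p21, p22, p23, p24, v21, v22, v23, v24, v25⟩ := h2
  obtain ⟨p31, p32, p33, p34, v31, v32, v33, v34, v35⟩ := h3
  have f7 : x (c1 - 1) < y (i + 2) := v13
  have f8 : y (c1 - 1) < x c1 := v14
  have f14 : y (i + 2) < z i := v21
  have f15 : z (i + 2) < y (i + 3) := v22
  have f24 : z i < x b3 := v32
  have f25 : x (c3 - 1) < z (i + 1) := v33
  have m33 : x b3 ≤ x (c3 - 1) := hx.le (by omega) (by omega)
  have m59 : y (i + 3) < y (c1 - 1) := hy _ _ (by omega) (by omega)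
  have m95 : z (i + 1) < z (i + 2) := hz _ _ (by omega) (by omega)
  have d103 : b3 < c1 := hx.lt_of (a := b3) (b := c1) (by omega) (by omega)
  have d105 : c1 - 1 < b3 := hx.lt_of (a := (c1 - 1)) (b := b3) (by omega) (by omega)
  omega

theorem flat_BDB {n b1 b2 b3 c1 c2 c3 i : ℕ} {x y z : ℕ → ℕ}
    (hx : Inc n x)
    (hy : Inc n y)
    (hz : Inc n z)
    (h1 : TP n i x y b1 c1 .B)
    (h2 : TP n i y z b2 c2 .D)
    (h3 : TP n i x z b3 c3 .B) : False := by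
  obtain ⟨⟨p11, p12, p13, p14, v11, v12, v13, v14, v15⟩, q11, q12⟩ := h1
  obtain ⟨p21, p22, p23, p24, v21, v22, v23, v24, v25⟩ := h2
  obtain ⟨⟨p31, p32, p33, p34, v31, v32, v33, v34, v35⟩, q31, q32⟩ := h3
  have f9 : x (n - 1) < y c1 := v15
  have f18 : y (n - 1) < z (i + 4) := v25
  have f26 : z (c3 - 1) < x c3 := v34
  have m44 : x c3 ≤ x (n - 1) := hx.le (by omega) (by omega)
  have m96 : y c1 ≤ y (n - 1) := hy.le (by omega) (by omega)
  have m97 : z (i + 4) ≤ z (c3 - 1) := hz.le (by omega) (by omega)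
  omega

theorem flat_BDC {n b1 b2 b3 c1 c2 c3 i : ℕ} {x y z : ℕ → ℕ}
    (hx : Inc n x)
    (hy : Inc n y)
    (hz : Inc n z)
    (h1 : TP n i x y b1 c1 .B)
    (h2 : TP n i y z b2 c2 .D)
    (h3 : TP n i x z b3 c3 .C) : False := by
  obtain ⟨⟨p11, p12, p13, p14, v11, v12, v13, v14, v15⟩, q11, q12⟩ := h1
  obtain ⟨p21, p22, p23, p24, v21, v22, v23, v24, v25⟩ := h2
  obtain ⟨p31, p32, p33, p34, v31, v32, v33, v34, v35⟩ := h3
  have f7 : x (c1 - 1) < y (i + 2) := v13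
  have f14 : y (i + 2) < z i := v21
  have f24 : z (i + 1) < x (i + 2) := v32
  have m44 : x (i + 2) < x (c1 - 1) := hx _ _ (by omega) (by omega)
  have m101 : z i < z (i + 1) := hz _ _ (by omega) (by omega)
  omega

theorem flat_BDD {n b1 b2 b3 c1 c2 c3 i : ℕ} {x y z : ℕ → ℕ}
    (hx : Inc n x)
    (hy : Inc n y)
    (hz : Inc n z)
    (h1 : TP n i x y b1 c1 .B)
    (h2 : TP n i y z b2 c2 .D)
    (h3 : TP n i x z b3 c3 .D) : False := by
  obtain ⟨⟨p11, p12, p13, p14, v11, v12, v13, v14, v15⟩, q11, q12⟩ := h1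
  obtain ⟨p21, p22, p23, p24, v21, v22, v23, v24, v25⟩ := h2
  obtain ⟨p31, p32, p33, p34, v31, v32, v33, v34, v35⟩ := h3
  have f7 : x (c1 - 1) < y (i + 2) := v13
  have f14 : y (i + 2) < z i := v21
  have f24 : z (i + 2) < x (i + 3) := v32
  have m56 : x (i + 3) < x (c1 - 1) := hx _ _ (by omega) (by omega)
  have m98 : z i < z (i + 2) := hz _ _ (by omega) (by omega)
  omega

theorem flat_BDE {n b1 b2 b3 c1 c2 c3 i : ℕ} {x y z : ℕ → ℕ}
    (hx : Inc n x)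
    (hy : Inc n y)
    (hz : Inc n z)
    (h1 : TP n i x y b1 c1 .B)
    (h2 : TP n i y z b2 c2 .D)
    (h3 : TP n i x z b3 c3 .E) : False := by
  obtain ⟨⟨p11, p12, p13, p14, v11, v12, v13, v14, v15⟩, q11, q12⟩ := h1
  obtain ⟨p21, p22, p23, p24, v21, v22, v23, v24, v25⟩ := h2
  obtain ⟨a3, q31, q32, p31, p32, p33, p34, v31, v32, v33, v34, v35⟩ := h3
  have f9 : x (n - 1) < y c1 := v15
  have f18 : y (n - 1) < z (i + 4) := v25
  have f26 : z (b3 - 1) < x c3 := v34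
  have m41 : x c3 ≤ x (n - 1) := hx.le (by omega) (by omega)
  have m93 : y c1 ≤ y (n - 1) := hy.le (by omega) (by omega)
  have m95 : z (i + 4) ≤ z (b3 - 1) := hz.le (by omega) (by omega)
  omega

theorem flat_BEA {n b1 b2 b3 c1 c2 c3 i : ℕ} {x y z : ℕ → ℕ}
    (hx : Inc n x)
    (hy : Inc n y)
    (hz : Inc n z)
    (h1 : TP n i x y b1 c1 .B)
    (h2 : TP n i y z b2 c2 .E)
    (h3 : TP n i x z b3 c3 .A) : False := by
  obtain ⟨⟨p11, p12, p13, p14, v11, v12, v13, v14, v15⟩, q11, q12⟩ := h1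
  obtain ⟨a2, q21, q22, p21, p22, p23, p24, v21, v22, v23, v24, v25⟩ := h2
  obtain ⟨p31, p32, p33, p34, v31, v32, v33, v34, v35⟩ := h3
  have f7 : x (c1 - 1) < y (i + 2) := v13
  have f9 : x (n - 1) < y c1 := v15
  have f14 : y (b2 - 1) < z i := v21
  have f18 : y (n - 1) < z b2 := v25
  have f24 : z i < x b3 := v32
  have f26 : z (c3 - 1) < x c3 := v34
  have m33 : x b3 < x (n - 1) := hx _ _ (by omega) (by omega)
  have m40 : x c3 ≤ x (n - 1) := hx.le (by omega) (by omega)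
  have m58 : y (i + 2) < y (b2 - 1) := hy _ _ (by omega) (by omega)
  have m90 : y c1 ≤ y (n - 1) := hy.le (by omega) (by omega)
  have d111 : c1 - 1 < b3 := hx.lt_of (a := (c1 - 1)) (b := b3) (by omega) (by omega)
  have d112 : b2 - 1 < c1 := hy.lt_of (a := (b2 - 1)) (b := c1) (by omega) (by omega)
  have d113 : c3 - 1 < b2 := hz.lt_of (a := (c3 - 1)) (b := b2) (by omega) (by omega)
  omega

theorem flat_BEB {n b1 b2 b3 c1 c2 c3 i : ℕ} {x y z : ℕ → ℕ}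
    (hx : Inc n x)
    (hy : Inc n y)
    (hz : Inc n z)
    (h1 : TP n i x y b1 c1 .B)
    (h2 : TP n i y z b2 c2 .E)
    (h3 : TP n i x z b3 c3 .B) : False := by
  obtain ⟨⟨p11, p12, p13, p14, v11, v12, v13, v14, v15⟩, q11, q12⟩ := h1
  obtain ⟨a2, q21, q22, p21, p22, p23, p24, v21, v22, v23, v24, v25⟩ := h2
  obtain ⟨⟨p31, p32, p33, p34, v31, v32, v33, v34, v35⟩, q31, q32⟩ := h3
  have f7 : x (c1 - 1) < y (i + 2) := v13
  have f14 : y (b2 - 1) < z i := v21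
  have f24 : z (i + 1) < x b3 := v32
  have m38 : x b3 ≤ x (c1 - 1) := hx.le (by omega) (by omega)
  have m70 : y (i + 2) < y (b2 - 1) := hy _ _ (by omega) (by omega)
  have m110 : z i < z (i + 1) := hz _ _ (by omega) (by omega)
  omega

theorem flat_BEC {n b1 b2 b3 c1 c2 c3 i : ℕ} {x y z : ℕ → ℕ}
    (hx : Inc n x)
    (hy : Inc n y)
    (hz : Inc n z)
    (h1 : TP n i x y b1 c1 .B)
    (h2 : TP n i y z b2 c2 .E)
    (h3 : TP n i x z b3 c3 .C) : False := by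
  obtain ⟨⟨p11, p12, p13, p14, v11, v12, v13, v14, v15⟩, q11, q12⟩ := h1
  obtain ⟨a2, q21, q22, p21, p22, p23, p24, v21, v22, v23, v24, v25⟩ := h2
  obtain ⟨p31, p32, p33, p34, v31, v32, v33, v34, v35⟩ := h3
  have f5 : x (b1 - 1) < y i := v11
  have f14 : y (b2 - 1) < z i := v21
  have f24 : z (i + 1) < x (i + 2) := v32
  have m47 : x (i + 2) ≤ x (b1 - 1) := hx.le (by omega) (by omega)
  have m87 : y i < y (b2 - 1) := hy _ _ (by omega) (by omega)
  have m111 : z i < z (i + 1) := hz _ _ (by omega) (by omega)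
  omega

theorem flat_BED {n b1 b2 b3 c1 c2 c3 i : ℕ} {x y z : ℕ → ℕ}
    (hx : Inc n x)
    (hy : Inc n y)
    (hz : Inc n z)
    (h1 : TP n i x y b1 c1 .B)
    (h2 : TP n i y z b2 c2 .E)
    (h3 : TP n i x z b3 c3 .D) : False := by
  obtain ⟨⟨p11, p12, p13, p14, v11, v12, v13, v14, v15⟩, q11, q12⟩ := h1
  obtain ⟨a2, q21, q22, p21, p22, p23, p24, v21, v22, v23, v24, v25⟩ := h2
  obtain ⟨p31, p32, p33, p34, v31, v32, v33, v34, v35⟩ := h3
  have f7 : x (c1 - 1) < y (i + 2) := v13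
  have f14 : y (b2 - 1) < z i := v21
  have f24 : z (i + 2) < x (i + 3) := v32
  have m57 : x (i + 3) < x (c1 - 1) := hx _ _ (by omega) (by omega)
  have m70 : y (i + 2) < y (b2 - 1) := hy _ _ (by omega) (by omega)
  have m112 : z i < z (i + 2) := hz _ _ (by omega) (by omega)
  omega

theorem flat_BEE {n b1 b2 b3 c1 c2 c3 i : ℕ} {x y z : ℕ → ℕ}
    (hx : Inc n x)
    (hy : Inc n y)
    (hz : Inc n z)
    (h1 : TP n i x y b1 c1 .B)
    (h2 : TP n i y z b2 c2 .E)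
    (h3 : TP n i x z b3 c3 .E) : False := by
  obtain ⟨⟨p11, p12, p13, p14, v11, v12, v13, v14, v15⟩, q11, q12⟩ := h1
  obtain ⟨a2, q21, q22, p21, p22, p23, p24, v21, v22, v23, v24, v25⟩ := h2
  obtain ⟨a3, q31, q32, p31, p32, p33, p34, v31, v32, v33, v34, v35⟩ := h3
  have f7 : x (c1 - 1) < y (i + 2) := v13
  have f9 : x (n - 1) < y c1 := v15
  have f14 : y (b2 - 1) < z i := v21
  have f16 : y (c2 - 1) < z a2 := v23
  have f18 : y (n - 1) < z b2 := v25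
  have f24 : z (a3 - 1) < x b3 := v32
  have f26 : z (b3 - 1) < x c3 := v34
  have m35 : x b3 < x (n - 1) := hx _ _ (by omega) (by omega)
  have m42 : x c3 ≤ x (n - 1) := hx.le (by omega) (by omega)
  have m67 : y (i + 2) < y (b2 - 1) := hy _ _ (by omega) (by omega)
  have m99 : y c1 ≤ y (n - 1) := hy.le (by omega) (by omega)
  have m110 : z i < z (a3 - 1) := hz _ _ (by omega) (by omega)
  have d120 : c1 - 1 < b3 := hx.lt_of (a := (c1 - 1)) (b := b3) (by omega) (by omega)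
  have d121 : b2 - 1 < c1 := hy.lt_of (a := (b2 - 1)) (b := c1) (by omega) (by omega)
  have d122 : b3 - 1 < b2 := hz.lt_of (a := (b3 - 1)) (b := b2) (by omega) (by omega)
  have m144 : y c1 ≤ y (c2 - 1) := hy.le (by omega) (by omega)
  have m147 : z a2 ≤ z (b3 - 1) := hz.le (by omega) (by omega)
  omega

end Pool.Agent.Helper77.EH
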