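import Pool.Agent.Helper77.EH.Types

/-!
Triangles of the five-level colouring (generated case analysis).
-/

set_option linter.unusedVariables false

namespace Pool.Agent.Helper77.EH

open Pool.Agent.Helper18.EH

theorem flat_CAA {n b1 b2 b3 c1 c2 c3 i : ℕ} {x y z : ℕ → ℕ}
    (hx : Inc n x)
    (hy : Inc n y)
    (hz : Inc n z)
    (h1 : TP n i x y b1 c1 .C)
    (h2 : TP n i y z b2 c2 .A)
    (h3 : TP n i x z b3 c3 .A) : False := by
  obtain ⟨p11, p12, p13, p14, v11, v12, v13, v14, v15⟩ := h1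
  obtain ⟨p21, p22, p23, p24, v21, v22, v23, v24, v25⟩ := h2
  obtain ⟨p31, p32, p33, p34, v31, v32, v33, v34, v35⟩ := h3
  have f7 : x (i + 3) < y (i + 2) := v13
  have f9 : x (n - 1) < y (i + 3) := v15
  have f16 : y (c2 - 1) < z (i + 1) := v23
  have f18 : y (n - 1) < z c2 := v25
  have f26 : z (c3 - 1) < x c3 := v34
  have m31 : x c3 ≤ x (n - 1) := hx.le (by omega) (by omega)
  have m63 : y (i + 2) ≤ y (c2 - 1) := hy.le (by omega) (by omega)
  have m65 : y (i + 3) < y (n - 1) := hy _ _ (by omega) (by omega)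
  have m94 : z (i + 1) < z (c3 - 1) := hz _ _ (by omega) (by omega)
  have d99 : i + 3 < c3 := hx.lt_of (a := (i + 3)) (b := c3) (by omega) (by omega)
  have d101 : c2 - 1 < i + 3 := hy.lt_of (a := (c2 - 1)) (b := (i + 3)) (by omega) (by omega)
  have d102 : c3 - 1 < c2 := hz.lt_of (a := (c3 - 1)) (b := c2) (by omega) (by omega)
  omega

theorem flat_CAB {n b1 b2 b3 c1 c2 c3 i : ℕ} {x y z : ℕ → ℕ}
    (hx : Inc n x)
    (hy : Inc n y)
    (hz : Inc n z)
    (h1 : TP n i x y b1 c1 .C)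
    (h2 : TP n i y z b2 c2 .A)
    (h3 : TP n i x z b3 c3 .B) : False := by
  obtain ⟨p11, p12, p13, p14, v11, v12, v13, v14, v15⟩ := h1
  obtain ⟨p21, p22, p23, p24, v21, v22, v23, v24, v25⟩ := h2
  obtain ⟨⟨p31, p32, p33, p34, v31, v32, v33, v34, v35⟩, q31, q32⟩ := h3
  have f9 : x (n - 1) < y (i + 3) := v15
  have f16 : y (c2 - 1) < z (i + 1) := v23
  have f18 : y (n - 1) < z c2 := v25
  have f24 : z (i + 1) < x b3 := v32
  have f26 : z (c3 - 1) < x c3 := v34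
  have m31 : x b3 < x (n - 1) := hx _ _ (by omega) (by omega)
  have m35 : x c3 ≤ x (n - 1) := hx.le (by omega) (by omega)
  have m76 : y (i + 3) < y (n - 1) := hy _ _ (by omega) (by omega)
  have d118 : c2 - 1 < i + 3 := hy.lt_of (a := (c2 - 1)) (b := (i + 3)) (by omega) (by omega)
  have d119 : c3 - 1 < c2 := hz.lt_of (a := (c3 - 1)) (b := c2) (by omega) (by omega)
  omega

theorem flat_CAC {n b1 b2 b3 c1 c2 c3 i : ℕ} {x y z : ℕ → ℕ}
    (hx : Inc n x)
    (hy : Inc n y)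
    (hz : Inc n z)
    (h1 : TP n i x y b1 c1 .C)
    (h2 : TP n i y z b2 c2 .A)
    (h3 : TP n i x z b3 c3 .C) : False := by
  obtain ⟨p11, p12, p13, p14, v11, v12, v13, v14, v15⟩ := h1
  obtain ⟨p21, p22, p23, p24, v21, v22, v23, v24, v25⟩ := h2
  obtain ⟨p31, p32, p33, p34, v31, v32, v33, v34, v35⟩ := h3
  have f7 : x (i + 3) < y (i + 2) := v13
  have f16 : y (c2 - 1) < z (i + 1) := v23
  have f24 : z (i + 1) < x (i + 2) := v32
  have m33 : x (i + 2) < x (i + 3) := hx _ _ (by omega) (by omega)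
  have m45 : y (i + 2) ≤ y (c2 - 1) := hy.le (by omega) (by omega)
  omega

theorem flat_CAD {n b1 b2 b3 c1 c2 c3 i : ℕ} {x y z : ℕ → ℕ}
    (hx : Inc n x)
    (hy : Inc n y)
    (hz : Inc n z)
    (h1 : TP n i x y b1 c1 .C)
    (h2 : TP n i y z b2 c2 .A)
    (h3 : TP n i x z b3 c3 .D) : False := by
  obtain ⟨p11, p12, p13, p14, v11, v12, v13, v14, v15⟩ := h1
  obtain ⟨p21, p22, p23, p24, v21, v22, v23, v24, v25⟩ := h2
  obtain ⟨p31, p32, p33, p34, v31, v32, v33, v34, v35⟩ := h3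
  have f7 : x (i + 3) < y (i + 2) := v13
  have f16 : y (c2 - 1) < z (i + 1) := v23
  have f24 : z (i + 2) < x (i + 3) := v32
  have m57 : y (i + 2) ≤ y (c2 - 1) := hy.le (by omega) (by omega)
  have m91 : z (i + 1) < z (i + 2) := hz _ _ (by omega) (by omega)
  omega

theorem flat_CAE {n b1 b2 b3 c1 c2 c3 i : ℕ} {x y z : ℕ → ℕ}
    (hx : Inc n x)
    (hy : Inc n y)
    (hz : Inc n z)
    (h1 : TP n i x y b1 c1 .C)
    (h2 : TP n i y z b2 c2 .A)
    (h3 : TP n i x z b3 c3 .E) : False := by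
  obtain ⟨p11, p12, p13, p14, v11, v12, v13, v14, v15⟩ := h1
  obtain ⟨p21, p22, p23, p24, v21, v22, v23, v24, v25⟩ := h2
  obtain ⟨a3, q31, q32, p31, p32, p33, p34, v31, v32, v33, v34, v35⟩ := h3
  have f8 : y (i + 2) < x (i + 4) := v14
  have f9 : x (n - 1) < y (i + 3) := v15
  have f15 : z i < y b2 := v22
  have f16 : y (c2 - 1) < z (i + 1) := v23
  have f23 : x (b3 - 1) < z i := v31
  have f24 : z (a3 - 1) < x b3 := v32
  have m30 : x b3 < x (n - 1) := hx _ _ (by omega) (by omega)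
  have m62 : x (i + 4) ≤ x (b3 - 1) := hx.le (by omega) (by omega)
  have m68 : y b2 ≤ y (c2 - 1) := hy.le (by omega) (by omega)
  have m113 : z (i + 1) ≤ z (a3 - 1) := hz.le (by omega) (by omega)
  have d118 : b2 < i + 3 := hy.lt_of (a := b2) (b := (i + 3)) (by omega) (by omega)
  have d119 : i + 2 < b2 := hy.lt_of (a := (i + 2)) (b := b2) (by omega) (by omega)
  omega

theorem flat_CBA {n b1 b2 b3 c1 c2 c3 i : ℕ} {x y z : ℕ → ℕ}
    (hx : Inc n x)
    (hy : Inc n y)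
    (hz : Inc n z)
    (h1 : TP n i x y b1 c1 .C)
    (h2 : TP n i y z b2 c2 .B)
    (h3 : TP n i x z b3 c3 .A) : False := by
  obtain ⟨p11, p12, p13, p14, v11, v12, v13, v14, v15⟩ := h1
  obtain ⟨⟨p21, p22, p23, p24, v21, v22, v23, v24, v25⟩, q21, q22⟩ := h2
  obtain ⟨p31, p32, p33, p34, v31, v32, v33, v34, v35⟩ := h3
  have f9 : x (n - 1) < y (i + 3) := v15
  have f16 : y (c2 - 1) < z (i + 2) := v23
  have f26 : z (c3 - 1) < x c3 := v34
  have m34 : x c3 ≤ x (n - 1) := hx.le (by omega) (by omega)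
  have m71 : y (i + 3) < y (c2 - 1) := hy _ _ (by omega) (by omega)
  have m108 : z (i + 2) ≤ z (c3 - 1) := hz.le (by omega) (by omega)
  omega

theorem flat_CBB {n b1 b2 b3 c1 c2 c3 i : ℕ} {x y z : ℕ → ℕ}
    (hx : Inc n x)
    (hy : Inc n y)
    (hz : Inc n z)
    (h1 : TP n i x y b1 c1 .C)
    (h2 : TP n i y z b2 c2 .B)
    (h3 : TP n i x z b3 c3 .B) : False := by
  obtain ⟨p11, p12, p13, p14, v11, v12, v13, v14, v15⟩ := h1
  obtain ⟨⟨p21, p22, p23, p24, v21, v22, v23, v24, v25⟩, q21, q22⟩ := h2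
  obtain ⟨⟨p31, p32, p33, p34, v31, v32, v33, v34, v35⟩, q31, q32⟩ := h3
  have f9 : x (n - 1) < y (i + 3) := v15
  have f16 : y (c2 - 1) < z (i + 2) := v23
  have f26 : z (c3 - 1) < x c3 := v34
  have m38 : x c3 ≤ x (n - 1) := hx.le (by omega) (by omega)
  have m82 : y (i + 3) < y (c2 - 1) := hy _ _ (by omega) (by omega)
  have m119 : z (i + 2) < z (c3 - 1) := hz _ _ (by omega) (by omega)
  omega

theorem flat_CBC {n b1 b2 b3 c1 c2 c3 i : ℕ} {x y z : ℕ → ℕ}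
    (hx : Inc n x)
    (hy : Inc n y)
    (hz : Inc n z)
    (h1 : TP n i x y b1 c1 .C)
    (h2 : TP n i y z b2 c2 .B)
    (h3 : TP n i x z b3 c3 .C) : False := by
  obtain ⟨p11, p12, p13, p14, v11, v12, v13, v14, v15⟩ := h1
  obtain ⟨⟨p21, p22, p23, p24, v21, v22, v23, v24, v25⟩, q21, q22⟩ := h2
  obtain ⟨p31, p32, p33, p34, v31, v32, v33, v34, v35⟩ := h3
  have f9 : x (n - 1) < y (i + 3) := v15
  have f16 : y (c2 - 1) < z (i + 2) := v23
  have f26 : z (i + 2) < x (i + 4) := v34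
  have m40 : x (i + 4) < x (n - 1) := hx _ _ (by omega) (by omega)
  have m53 : y (i + 3) < y (c2 - 1) := hy _ _ (by omega) (by omega)
  omega

theorem flat_CBD {n b1 b2 b3 c1 c2 c3 i : ℕ} {x y z : ℕ → ℕ}
    (hx : Inc n x)
    (hy : Inc n y)
    (hz : Inc n z)
    (h1 : TP n i x y b1 c1 .C)
    (h2 : TP n i y z b2 c2 .B)
    (h3 : TP n i x z b3 c3 .D) : False := by
  obtain ⟨p11, p12, p13, p14, v11, v12, v13, v14, v15⟩ := h1
  obtain ⟨⟨p21, p22, p23, p24, v21, v22, v23, v24, v25⟩, q21, q22⟩ := h2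
  obtain ⟨p31, p32, p33, p34, v31, v32, v33, v34, v35⟩ := h3
  have f7 : x (i + 3) < y (i + 2) := v13
  have f16 : y (c2 - 1) < z (i + 2) := v23
  have f24 : z (i + 2) < x (i + 3) := v32
  have m61 : y (i + 2) < y (c2 - 1) := hy _ _ (by omega) (by omega)
  omega

theorem flat_CBE {n b1 b2 b3 c1 c2 c3 i : ℕ} {x y z : ℕ → ℕ}
    (hx : Inc n x)
    (hy : Inc n y)
    (hz : Inc n z)
    (h1 : TP n i x y b1 c1 .C)
    (h2 : TP n i y z b2 c2 .B)
    (h3 : TP n i x z b3 c3 .E) : False := by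
  obtain ⟨p11, p12, p13, p14, v11, v12, v13, v14, v15⟩ := h1
  obtain ⟨⟨p21, p22, p23, p24, v21, v22, v23, v24, v25⟩, q21, q22⟩ := h2
  obtain ⟨a3, q31, q32, p31, p32, p33, p34, v31, v32, v33, v34, v35⟩ := h3
  have f9 : x (n - 1) < y (i + 3) := v15
  have f16 : y (c2 - 1) < z (i + 2) := v23
  have f26 : z (b3 - 1) < x c3 := v34
  have m36 : x c3 ≤ x (n - 1) := hx.le (by omega) (by omega)
  have m81 : y (i + 3) < y (c2 - 1) := hy _ _ (by omega) (by omega)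
  have m127 : z (i + 2) < z (b3 - 1) := hz _ _ (by omega) (by omega)
  omega

theorem flat_CCA {n b1 b2 b3 c1 c2 c3 i : ℕ} {x y z : ℕ → ℕ}
    (hx : Inc n x)
    (hy : Inc n y)
    (hz : Inc n z)
    (h1 : TP n i x y b1 c1 .C)
    (h2 : TP n i y z b2 c2 .C)
    (h3 : TP n i x z b3 c3 .A) : False := by
  obtain ⟨p11, p12, p13, p14, v11, v12, v13, v14, v15⟩ := h1
  obtain ⟨p21, p22, p23, p24, v21, v22, v23, v24, v25⟩ := h2
  obtain ⟨p31, p32, p33, p34, v31, v32, v33, v34, v35⟩ := h3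
  have f9 : x (n - 1) < y (i + 3) := v15
  have f16 : y (i + 3) < z (i + 2) := v23
  have f26 : z (c3 - 1) < x c3 := v34
  have m31 : x c3 ≤ x (n - 1) := hx.le (by omega) (by omega)
  have m81 : z (i + 2) ≤ z (c3 - 1) := hz.le (by omega) (by omega)
  omega

theorem flat_CCB {n b1 b2 b3 c1 c2 c3 i : ℕ} {x y z : ℕ → ℕ}
    (hx : Inc n x)
    (hy : Inc n y)
    (hz : Inc n z)
    (h1 : TP n i x y b1 c1 .C)
    (h2 : TP n i y z b2 c2 .C)
    (h3 : TP n i x z b3 c3 .B) : False := by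
  obtain ⟨p11, p12, p13, p14, v11, v12, v13, v14, v15⟩ := h1
  obtain ⟨p21, p22, p23, p24, v21, v22, v23, v24, v25⟩ := h2
  obtain ⟨⟨p31, p32, p33, p34, v31, v32, v33, v34, v35⟩, q31, q32⟩ := h3
  have f9 : x (n - 1) < y (i + 3) := v15
  have f16 : y (i + 3) < z (i + 2) := v23
  have f26 : z (c3 - 1) < x c3 := v34
  have m35 : x c3 ≤ x (n - 1) := hx.le (by omega) (by omega)
  have m92 : z (i + 2) < z (c3 - 1) := hz _ _ (by omega) (by omega)
  omega

theorem flat_CCC {n b1 b2 b3 c1 c2 c3 i : ℕ} {x y z : ℕ → ℕ}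
    (hx : Inc n x)
    (hy : Inc n y)
    (hz : Inc n z)
    (h1 : TP n i x y b1 c1 .C)
    (h2 : TP n i y z b2 c2 .C)
    (h3 : TP n i x z b3 c3 .C) : False := by
  obtain ⟨p11, p12, p13, p14, v11, v12, v13, v14, v15⟩ := h1
  obtain ⟨p21, p22, p23, p24, v21, v22, v23, v24, v25⟩ := h2
  obtain ⟨p31, p32, p33, p34, v31, v32, v33, v34, v35⟩ := h3
  have f9 : x (n - 1) < y (i + 3) := v15
  have f16 : y (i + 3) < z (i + 2) := v23
  have f26 : z (i + 2) < x (i + 4) := v34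
  have m33 : x (i + 4) ≤ x (n - 1) := hx.le (by omega) (by omega)
  omega

theorem flat_CCD {n b1 b2 b3 c1 c2 c3 i : ℕ} {x y z : ℕ → ℕ}
    (hx : Inc n x)
    (hy : Inc n y)
    (hz : Inc n z)
    (h1 : TP n i x y b1 c1 .C)
    (h2 : TP n i y z b2 c2 .C)
    (h3 : TP n i x z b3 c3 .D) : False := by
  obtain ⟨p11, p12, p13, p14, v11, v12, v13, v14, v15⟩ := h1
  obtain ⟨p21, p22, p23, p24, v21, v22, v23, v24, v25⟩ := h2
  obtain ⟨p31, p32, p33, p34, v31, v32, v33, v34, v35⟩ := h3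
  have f9 : x (n - 1) < y (i + 3) := v15
  have f16 : y (i + 3) < z (i + 2) := v23
  have f24 : z (i + 2) < x (i + 3) := v32
  have m29 : x (i + 3) < x (n - 1) := hx _ _ (by omega) (by omega)
  omega

theorem flat_CCE {n b1 b2 b3 c1 c2 c3 i : ℕ} {x y z : ℕ → ℕ}
    (hx : Inc n x)
    (hy : Inc n y)
    (hz : Inc n z)
    (h1 : TP n i x y b1 c1 .C)
    (h2 : TP n i y z b2 c2 .C)
    (h3 : TP n i x z b3 c3 .E) : False := by
  obtain ⟨p11, p12, p13, p14, v11, v12, v13, v14, v15⟩ := h1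
  obtain ⟨p21, p22, p23, p24, v21, v22, v23, v24, v25⟩ := h2
  obtain ⟨a3, q31, q32, p31, p32, p33, p34, v31, v32, v33, v34, v35⟩ := h3
  have f9 : x (n - 1) < y (i + 3) := v15
  have f16 : y (i + 3) < z (i + 2) := v23
  have f26 : z (b3 - 1) < x c3 := v34
  have m33 : x c3 ≤ x (n - 1) := hx.le (by omega) (by omega)
  have m100 : z (i + 2) < z (b3 - 1) := hz _ _ (by omega) (by omega)
  omega

theorem flat_CDA {n b1 b2 b3 c1 c2 c3 i : ℕ} {x y z : ℕ → ℕ}
    (hx : Inc n x)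
    (hy : Inc n y)
    (hz : Inc n z)
    (h1 : TP n i x y b1 c1 .C)
    (h2 : TP n i y z b2 c2 .D)
    (h3 : TP n i x z b3 c3 .A) : False := by
  obtain ⟨p11, p12, p13, p14, v11, v12, v13, v14, v15⟩ := h1
  obtain ⟨p21, p22, p23, p24, v21, v22, v23, v24, v25⟩ := h2
  obtain ⟨p31, p32, p33, p34, v31, v32, v33, v34, v35⟩ := h3
  have f7 : x (i + 3) < y (i + 2) := v13
  have f9 : x (n - 1) < y (i + 3) := v15
  have f14 : y (i + 2) < z i := v21
  have f18 : y (n - 1) < z (i + 4) := v25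
  have f24 : z i < x b3 := v32
  have f26 : z (c3 - 1) < x c3 := v34
  have m32 : x c3 ≤ x (n - 1) := hx.le (by omega) (by omega)
  have m62 : y (i + 3) < y (n - 1) := hy _ _ (by omega) (by omega)
  have d97 : i + 3 < b3 := hx.lt_of (a := (i + 3)) (b := b3) (by omega) (by omega)
  have d98 : c3 - 1 < i + 4 := hz.lt_of (a := (c3 - 1)) (b := (i + 4)) (by omega) (by omega)
  omega

theorem flat_CDB {n b1 b2 b3 c1 c2 c3 i : ℕ} {x y z : ℕ → ℕ}
    (hx : Inc n x)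
    (hy : Inc n y)
    (hz : Inc n z)
    (h1 : TP n i x y b1 c1 .C)
    (h2 : TP n i y z b2 c2 .D)
    (h3 : TP n i x z b3 c3 .B) : False := by
  obtain ⟨p11, p12, p13, p14, v11, v12, v13, v14, v15⟩ := h1
  obtain ⟨p21, p22, p23, p24, v21, v22, v23, v24, v25⟩ := h2
  obtain ⟨⟨p31, p32, p33, p34, v31, v32, v33, v34, v35⟩, q31, q32⟩ := h3
  have f9 : x (n - 1) < y (i + 3) := v15
  have f16 : y (c2 - 1) < z (i + 3) := v23
  have f26 : z (c3 - 1) < x c3 := v34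
  have m38 : x c3 ≤ x (n - 1) := hx.le (by omega) (by omega)
  have m74 : y (i + 3) < y (c2 - 1) := hy _ _ (by omega) (by omega)
  have m108 : z (i + 3) < z (c3 - 1) := hz _ _ (by omega) (by omega)
  omega

theorem flat_CDC {n b1 b2 b3 c1 c2 c3 i : ℕ} {x y z : ℕ → ℕ}
    (hx : Inc n x)
    (hy : Inc n y)
    (hz : Inc n z)
    (h1 : TP n i x y b1 c1 .C)
    (h2 : TP n i y z b2 c2 .D)
    (h3 : TP n i x z b3 c3 .C) : False := by
  obtain ⟨p11, p12, p13, p14, v11, v12, v13, v14, v15⟩ := h1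
  obtain ⟨p21, p22, p23, p24, v21, v22, v23, v24, v25⟩ := h2
  obtain ⟨p31, p32, p33, p34, v31, v32, v33, v34, v35⟩ := h3
  have f7 : x (i + 3) < y (i + 2) := v13
  have f14 : y (i + 2) < z i := v21
  have f24 : z (i + 1) < x (i + 2) := v32
  have m31 : x (i + 2) < x (i + 3) := hx _ _ (by omega) (by omega)
  have m62 : z i < z (i + 1) := hz _ _ (by omega) (by omega)
  omega

theorem flat_CDD {n b1 b2 b3 c1 c2 c3 i : ℕ} {x y z : ℕ → ℕ}
    (hx : Inc n x)
    (hy : Inc n y)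
    (hz : Inc n z)
    (h1 : TP n i x y b1 c1 .C)
    (h2 : TP n i y z b2 c2 .D)
    (h3 : TP n i x z b3 c3 .D) : False := by
  obtain ⟨p11, p12, p13, p14, v11, v12, v13, v14, v15⟩ := h1
  obtain ⟨p21, p22, p23, p24, v21, v22, v23, v24, v25⟩ := h2
  obtain ⟨p31, p32, p33, p34, v31, v32, v33, v34, v35⟩ := h3
  have f9 : x (n - 1) < y (i + 3) := v15
  have f16 : y (c2 - 1) < z (i + 3) := v23
  have f26 : z (i + 3) < x c3 := v34
  have m44 : x c3 ≤ x (n - 1) := hx.le (by omega) (by omega)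
  have m69 : y (i + 3) < y (c2 - 1) := hy _ _ (by omega) (by omega)
  omega

theorem flat_CDE {n b1 b2 b3 c1 c2 c3 i : ℕ} {x y z : ℕ → ℕ}
    (hx : Inc n x)
    (hy : Inc n y)
    (hz : Inc n z)
    (h1 : TP n i x y b1 c1 .C)
    (h2 : TP n i y z b2 c2 .D)
    (h3 : TP n i x z b3 c3 .E) : False := by
  obtain ⟨p11, p12, p13, p14, v11, v12, v13, v14, v15⟩ := h1
  obtain ⟨p21, p22, p23, p24, v21, v22, v23, v24, v25⟩ := h2
  obtain ⟨a3, q31, q32, p31, p32, p33, p34, v31, v32, v33, v34, v35⟩ := h3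
  have f9 : x (n - 1) < y (i + 3) := v15
  have f16 : y (c2 - 1) < z (i + 3) := v23
  have f26 : z (b3 - 1) < x c3 := v34
  have m36 : x c3 ≤ x (n - 1) := hx.le (by omega) (by omega)
  have m73 : y (i + 3) < y (c2 - 1) := hy _ _ (by omega) (by omega)
  have m108 : z (i + 3) < z (b3 - 1) := hz _ _ (by omega) (by omega)
  omega

theorem flat_CEA {n b1 b2 b3 c1 c2 c3 i : ℕ} {x y z : ℕ → ℕ}
    (hx : Inc n x)
    (hy : Inc n y)
    (hz : Inc n z)
    (h1 : TP n i x y b1 c1 .C)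
    (h2 : TP n i y z b2 c2 .E)
    (h3 : TP n i x z b3 c3 .A) : False := by
  obtain ⟨p11, p12, p13, p14, v11, v12, v13, v14, v15⟩ := h1
  obtain ⟨a2, q21, q22, p21, p22, p23, p24, v21, v22, v23, v24, v25⟩ := h2
  obtain ⟨p31, p32, p33, p34, v31, v32, v33, v34, v35⟩ := h3
  have f9 : x (n - 1) < y (i + 3) := v15
  have f14 : y (b2 - 1) < z i := v21
  have f24 : z i < x b3 := v32
  have m30 : x b3 < x (n - 1) := hx _ _ (by omega) (by omega)
  have m68 : y (i + 3) < y (b2 - 1) := hy _ _ (by omega) (by omega)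
  omega

theorem flat_CEB {n b1 b2 b3 c1 c2 c3 i : ℕ} {x y z : ℕ → ℕ}
    (hx : Inc n x)
    (hy : Inc n y)
    (hz : Inc n z)
    (h1 : TP n i x y b1 c1 .C)
    (h2 : TP n i y z b2 c2 .E)
    (h3 : TP n i x z b3 c3 .B) : False := by
  obtain ⟨p11, p12, p13, p14, v11, v12, v13, v14, v15⟩ := h1
  obtain ⟨a2, q21, q22, p21, p22, p23, p24, v21, v22, v23, v24, v25⟩ := h2
  obtain ⟨⟨p31, p32, p33, p34, v31, v32, v33, v34, v35⟩, q31, q32⟩ := h3
  have f9 : x (n - 1) < y (i + 3) := v15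
  have f14 : y (b2 - 1) < z i := v21
  have f26 : z (c3 - 1) < x c3 := v34
  have m37 : x c3 ≤ x (n - 1) := hx.le (by omega) (by omega)
  have m79 : y (i + 3) < y (b2 - 1) := hy _ _ (by omega) (by omega)
  have m109 : z i < z (c3 - 1) := hz _ _ (by omega) (by omega)
  omega

theorem flat_CEC {n b1 b2 b3 c1 c2 c3 i : ℕ} {x y z : ℕ → ℕ}
    (hx : Inc n x)
    (hy : Inc n y)
    (hz : Inc n z)
    (h1 : TP n i x y b1 c1 .C)
    (h2 : TP n i y z b2 c2 .E)
    (h3 : TP n i x z b3 c3 .C) : False := by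
  obtain ⟨p11, p12, p13, p14, v11, v12, v13, v14, v15⟩ := h1
  obtain ⟨a2, q21, q22, p21, p22, p23, p24, v21, v22, v23, v24, v25⟩ := h2
  obtain ⟨p31, p32, p33, p34, v31, v32, v33, v34, v35⟩ := h3
  have f7 : x (i + 3) < y (i + 2) := v13
  have f14 : y (b2 - 1) < z i := v21
  have f24 : z (i + 1) < x (i + 2) := v32
  have m35 : x (i + 2) < x (i + 3) := hx _ _ (by omega) (by omega)
  have m45 : y (i + 2) < y (b2 - 1) := hy _ _ (by omega) (by omega)
  have m81 : z i < z (i + 1) := hz _ _ (by omega) (by omega)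
  omega

theorem flat_CED {n b1 b2 b3 c1 c2 c3 i : ℕ} {x y z : ℕ → ℕ}
    (hx : Inc n x)
    (hy : Inc n y)
    (hz : Inc n z)
    (h1 : TP n i x y b1 c1 .C)
    (h2 : TP n i y z b2 c2 .E)
    (h3 : TP n i x z b3 c3 .D) : False := by
  obtain ⟨p11, p12, p13, p14, v11, v12, v13, v14, v15⟩ := h1
  obtain ⟨a2, q21, q22, p21, p22, p23, p24, v21, v22, v23, v24, v25⟩ := h2
  obtain ⟨p31, p32, p33, p34, v31, v32, v33, v34, v35⟩ := h3
  have f7 : x (i + 3) < y (i + 2) := v13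
  have f14 : y (b2 - 1) < z i := v21
  have f24 : z (i + 2) < x (i + 3) := v32
  have m57 : y (i + 2) < y (b2 - 1) := hy _ _ (by omega) (by omega)
  have m97 : z i < z (i + 2) := hz _ _ (by omega) (by omega)
  omega

theorem flat_CEE {n b1 b2 b3 c1 c2 c3 i : ℕ} {x y z : ℕ → ℕ}
    (hx : Inc n x)
    (hy : Inc n y)
    (hz : Inc n z)
    (h1 : TP n i x y b1 c1 .C)
    (h2 : TP n i y z b2 c2 .E)
    (h3 : TP n i x z b3 c3 .E) : False := by
  obtain ⟨p11, p12, p13, p14, v11, v12, v13, v14, v15⟩ := h1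
  obtain ⟨a2, q21, q22, p21, p22, p23, p24, v21, v22, v23, v24, v25⟩ := h2
  obtain ⟨a3, q31, q32, p31, p32, p33, p34, v31, v32, v33, v34, v35⟩ := h3
  have f9 : x (n - 1) < y (i + 3) := v15
  have f14 : y (b2 - 1) < z i := v21
  have f24 : z (a3 - 1) < x b3 := v32
  have m32 : x b3 < x (n - 1) := hx _ _ (by omega) (by omega)
  have m78 : y (i + 3) < y (b2 - 1) := hy _ _ (by omega) (by omega)
  have m114 : z i < z (a3 - 1) := hz _ _ (by omega) (by omega)
  omega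

end Pool.Agent.Helper77.EH
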