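import Pool.Agent.Helper77.EH.Types

/-!
Triangles of the five-level colouring (generated case analysis).
-/

set_option linter.unusedVariables false

namespace Pool.Agent.Helper77.EH

open Pool.Agent.Helper18.EH

theorem flat_DAA {n b1 b2 b3 c1 c2 c3 i : ℕ} {x y z : ℕ → ℕ}
    (hx : Inc n x)
    (hy : Inc n y)
    (hz : Inc n z)
    (h1 : TP n i x y b1 c1 .D)
    (h2 : TP n i y z b2 c2 .A)
    (h3 : TP n i x z b3 c3 .A) : False := by
  obtain ⟨p11, p12, p13, p14, v11, v12, v13, v14, v15⟩ := h1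
  obtain ⟨p21, p22, p23, p24, v21, v22, v23, v24, v25⟩ := h2
  obtain ⟨p31, p32, p33, p34, v31, v32, v33, v34, v35⟩ := h3
  have f5 : x (i + 2) < y i := v11
  have f7 : x (c1 - 1) < y (i + 3) := v13
  have f9 : x (n - 1) < y (i + 4) := v15
  have f14 : y (b2 - 1) < z i := v21
  have f16 : y (c2 - 1) < z (i + 1) := v23
  have f18 : y (n - 1) < z c2 := v25
  have f24 : z i < x b3 := v32
  have f26 : z (c3 - 1) < x c3 := v34
  have m32 : x c3 ≤ x (n - 1) := hx.le (by omega) (by omega)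
  have m65 : y (i + 4) < y (n - 1) := hy _ _ (by omega) (by omega)
  have m74 : y i < y (b2 - 1) := hy _ _ (by omega) (by omega)
  have m87 : z (i + 1) < z (c3 - 1) := hz _ _ (by omega) (by omega)
  have d92 : i + 2 < b3 := hx.lt_of (a := (i + 2)) (b := b3) (by omega) (by omega)
  have d94 : c2 - 1 < i + 4 := hy.lt_of (a := (c2 - 1)) (b := (i + 4)) (by omega) (by omega)
  have d95 : c3 - 1 < c2 := hz.lt_of (a := (c3 - 1)) (b := c2) (by omega) (by omega)
  have m101 : x c3 ≤ x (c1 - 1) := hx.le (by omega) (by omega)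
  have m120 : y (i + 3) ≤ y (c2 - 1) := hy.le (by omega) (by omega)
  omega

theorem flat_DAB {n b1 b2 b3 c1 c2 c3 i : ℕ} {x y z : ℕ → ℕ}
    (hx : Inc n x)
    (hy : Inc n y)
    (hz : Inc n z)
    (h1 : TP n i x y b1 c1 .D)
    (h2 : TP n i y z b2 c2 .A)
    (h3 : TP n i x z b3 c3 .B) : False := by
  obtain ⟨p11, p12, p13, p14, v11, v12, v13, v14, v15⟩ := h1
  obtain ⟨p21, p22, p23, p24, v21, v22, v23, v24, v25⟩ := h2
  obtain ⟨⟨p31, p32, p33, p34, v31, v32, v33, v34, v35⟩, q31, q32⟩ := h3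
  have f7 : x (c1 - 1) < y (i + 3) := v13
  have f9 : x (n - 1) < y (i + 4) := v15
  have f16 : y (c2 - 1) < z (i + 1) := v23
  have f18 : y (n - 1) < z c2 := v25
  have f24 : z (i + 1) < x b3 := v32
  have f26 : z (c3 - 1) < x c3 := v34
  have m36 : x b3 ≤ x (c1 - 1) := hx.le (by omega) (by omega)
  have m37 : x c3 ≤ x (n - 1) := hx.le (by omega) (by omega)
  have m76 : y (i + 4) < y (n - 1) := hy _ _ (by omega) (by omega)
  have d110 : c2 - 1 < i + 3 := hy.lt_of (a := (c2 - 1)) (b := (i + 3)) (by omega) (by omega)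
  have d111 : c3 - 1 < c2 := hz.lt_of (a := (c3 - 1)) (b := c2) (by omega) (by omega)
  omega

theorem flat_DAC {n b1 b2 b3 c1 c2 c3 i : ℕ} {x y z : ℕ → ℕ}
    (hx : Inc n x)
    (hy : Inc n y)
    (hz : Inc n z)
    (h1 : TP n i x y b1 c1 .D)
    (h2 : TP n i y z b2 c2 .A)
    (h3 : TP n i x z b3 c3 .C) : False := by
  obtain ⟨p11, p12, p13, p14, v11, v12, v13, v14, v15⟩ := h1
  obtain ⟨p21, p22, p23, p24, v21, v22, v23, v24, v25⟩ := h2
  obtain ⟨p31, p32, p33, p34, v31, v32, v33, v34, v35⟩ := h3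
  have f5 : x (i + 2) < y i := v11
  have f16 : y (c2 - 1) < z (i + 1) := v23
  have f24 : z (i + 1) < x (i + 2) := v32
  have m74 : y i < y (c2 - 1) := hy _ _ (by omega) (by omega)
  omega

theorem flat_DAD {n b1 b2 b3 c1 c2 c3 i : ℕ} {x y z : ℕ → ℕ}
    (hx : Inc n x)
    (hy : Inc n y)
    (hz : Inc n z)
    (h1 : TP n i x y b1 c1 .D)
    (h2 : TP n i y z b2 c2 .A)
    (h3 : TP n i x z b3 c3 .D) : False := by
  obtain ⟨p11, p12, p13, p14, v11, v12, v13, v14, v15⟩ := h1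
  obtain ⟨p21, p22, p23, p24, v21, v22, v23, v24, v25⟩ := h2
  obtain ⟨p31, p32, p33, p34, v31, v32, v33, v34, v35⟩ := h3
  have f7 : x (c1 - 1) < y (i + 3) := v13
  have f9 : x (n - 1) < y (i + 4) := v15
  have f16 : y (c2 - 1) < z (i + 1) := v23
  have f18 : y (n - 1) < z c2 := v25
  have f24 : z (i + 2) < x (i + 3) := v32
  have f26 : z (i + 3) < x c3 := v34
  have m30 : x c3 ≤ x (n - 1) := hx.le (by omega) (by omega)
  have m42 : x (i + 3) < x (c1 - 1) := hx _ _ (by omega) (by omega)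
  have m59 : y (i + 4) < y (n - 1) := hy _ _ (by omega) (by omega)
  have m84 : z (i + 1) < z (i + 2) := hz _ _ (by omega) (by omega)
  have d94 : c2 - 1 < i + 3 := hy.lt_of (a := (c2 - 1)) (b := (i + 3)) (by omega) (by omega)
  have d95 : i + 3 < c2 := hz.lt_of (a := (i + 3)) (b := c2) (by omega) (by omega)
  omega

theorem flat_DAE {n b1 b2 b3 c1 c2 c3 i : ℕ} {x y z : ℕ → ℕ}
    (hx : Inc n x)
    (hy : Inc n y)
    (hz : Inc n z)
    (h1 : TP n i x y b1 c1 .D)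
    (h2 : TP n i y z b2 c2 .A)
    (h3 : TP n i x z b3 c3 .E) : False := by
  obtain ⟨p11, p12, p13, p14, v11, v12, v13, v14, v15⟩ := h1
  obtain ⟨p21, p22, p23, p24, v21, v22, v23, v24, v25⟩ := h2
  obtain ⟨a3, q31, q32, p31, p32, p33, p34, v31, v32, v33, v34, v35⟩ := h3
  have f9 : x (n - 1) < y (i + 4) := v15
  have f16 : y (c2 - 1) < z (i + 1) := v23
  have f18 : y (n - 1) < z c2 := v25
  have f24 : z (a3 - 1) < x b3 := v32
  have f26 : z (b3 - 1) < x c3 := v34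
  have m31 : x b3 < x (n - 1) := hx _ _ (by omega) (by omega)
  have m34 : x c3 ≤ x (n - 1) := hx.le (by omega) (by omega)
  have m71 : y (i + 4) < y (n - 1) := hy _ _ (by omega) (by omega)
  have m102 : z (i + 1) ≤ z (a3 - 1) := hz.le (by omega) (by omega)
  have d109 : c2 - 1 < i + 4 := hy.lt_of (a := (c2 - 1)) (b := (i + 4)) (by omega) (by omega)
  have d110 : b3 - 1 < c2 := hz.lt_of (a := (b3 - 1)) (b := c2) (by omega) (by omega)
  omega

theorem flat_DBA {n b1 b2 b3 c1 c2 c3 i : ℕ} {x y z : ℕ → ℕ}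
    (hx : Inc n x)
    (hy : Inc n y)
    (hz : Inc n z)
    (h1 : TP n i x y b1 c1 .D)
    (h2 : TP n i y z b2 c2 .B)
    (h3 : TP n i x z b3 c3 .A) : False := by
  obtain ⟨p11, p12, p13, p14, v11, v12, v13, v14, v15⟩ := h1
  obtain ⟨⟨p21, p22, p23, p24, v21, v22, v23, v24, v25⟩, q21, q22⟩ := h2
  obtain ⟨p31, p32, p33, p34, v31, v32, v33, v34, v35⟩ := h3
  have f9 : x (n - 1) < y (i + 4) := v15
  have f16 : y (c2 - 1) < z (i + 2) := v23
  have f26 : z (c3 - 1) < x c3 := v34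
  have m35 : x c3 ≤ x (n - 1) := hx.le (by omega) (by omega)
  have m74 : y (i + 4) ≤ y (c2 - 1) := hy.le (by omega) (by omega)
  have m105 : z (i + 2) ≤ z (c3 - 1) := hz.le (by omega) (by omega)
  omega

theorem flat_DBB {n b1 b2 b3 c1 c2 c3 i : ℕ} {x y z : ℕ → ℕ}
    (hx : Inc n x)
    (hy : Inc n y)
    (hz : Inc n z)
    (h1 : TP n i x y b1 c1 .D)
    (h2 : TP n i y z b2 c2 .B)
    (h3 : TP n i x z b3 c3 .B) : False := by
  obtain ⟨p11, p12, p13, p14, v11, v12, v13, v14, v15⟩ := h1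
  obtain ⟨⟨p21, p22, p23, p24, v21, v22, v23, v24, v25⟩, q21, q22⟩ := h2
  obtain ⟨⟨p31, p32, p33, p34, v31, v32, v33, v34, v35⟩, q31, q32⟩ := h3
  have f9 : x (n - 1) < y (i + 4) := v15
  have f16 : y (c2 - 1) < z (i + 2) := v23
  have f26 : z (c3 - 1) < x c3 := v34
  have m40 : x c3 ≤ x (n - 1) := hx.le (by omega) (by omega)
  have m85 : y (i + 4) ≤ y (c2 - 1) := hy.le (by omega) (by omega)
  have m116 : z (i + 2) < z (c3 - 1) := hz _ _ (by omega) (by omega)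
  omega

theorem flat_DBC {n b1 b2 b3 c1 c2 c3 i : ℕ} {x y z : ℕ → ℕ}
    (hx : Inc n x)
    (hy : Inc n y)
    (hz : Inc n z)
    (h1 : TP n i x y b1 c1 .D)
    (h2 : TP n i y z b2 c2 .B)
    (h3 : TP n i x z b3 c3 .C) : False := by
  obtain ⟨p11, p12, p13, p14, v11, v12, v13, v14, v15⟩ := h1
  obtain ⟨⟨p21, p22, p23, p24, v21, v22, v23, v24, v25⟩, q21, q22⟩ := h2
  obtain ⟨p31, p32, p33, p34, v31, v32, v33, v34, v35⟩ := h3
  have f7 : x (c1 - 1) < y (i + 3) := v13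
  have f16 : y (c2 - 1) < z (i + 2) := v23
  have f26 : z (i + 2) < x (i + 4) := v34
  have m50 : x (i + 4) ≤ x (c1 - 1) := hx.le (by omega) (by omega)
  have m68 : y (i + 3) < y (c2 - 1) := hy _ _ (by omega) (by omega)
  omega

theorem flat_DBD {n b1 b2 b3 c1 c2 c3 i : ℕ} {x y z : ℕ → ℕ}
    (hx : Inc n x)
    (hy : Inc n y)
    (hz : Inc n z)
    (h1 : TP n i x y b1 c1 .D)
    (h2 : TP n i y z b2 c2 .B)
    (h3 : TP n i x z b3 c3 .D) : False := by
  obtain ⟨p11, p12, p13, p14, v11, v12, v13, v14, v15⟩ := h1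
  obtain ⟨⟨p21, p22, p23, p24, v21, v22, v23, v24, v25⟩, q21, q22⟩ := h2
  obtain ⟨p31, p32, p33, p34, v31, v32, v33, v34, v35⟩ := h3
  have f7 : x (c1 - 1) < y (i + 3) := v13
  have f16 : y (c2 - 1) < z (i + 2) := v23
  have f24 : z (i + 2) < x (i + 3) := v32
  have m45 : x (i + 3) < x (c1 - 1) := hx _ _ (by omega) (by omega)
  have m65 : y (i + 3) < y (c2 - 1) := hy _ _ (by omega) (by omega)
  omega

theorem flat_DBE {n b1 b2 b3 c1 c2 c3 i : ℕ} {x y z : ℕ → ℕ}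
    (hx : Inc n x)
    (hy : Inc n y)
    (hz : Inc n z)
    (h1 : TP n i x y b1 c1 .D)
    (h2 : TP n i y z b2 c2 .B)
    (h3 : TP n i x z b3 c3 .E) : False := by
  obtain ⟨p11, p12, p13, p14, v11, v12, v13, v14, v15⟩ := h1
  obtain ⟨⟨p21, p22, p23, p24, v21, v22, v23, v24, v25⟩, q21, q22⟩ := h2
  obtain ⟨a3, q31, q32, p31, p32, p33, p34, v31, v32, v33, v34, v35⟩ := h3
  have f9 : x (n - 1) < y (i + 4) := v15
  have f16 : y (c2 - 1) < z (i + 2) := v23
  have f26 : z (b3 - 1) < x c3 := v34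
  have m37 : x c3 ≤ x (n - 1) := hx.le (by omega) (by omega)
  have m80 : y (i + 4) ≤ y (c2 - 1) := hy.le (by omega) (by omega)
  have m120 : z (i + 2) < z (b3 - 1) := hz _ _ (by omega) (by omega)
  omega

theorem flat_DCA {n b1 b2 b3 c1 c2 c3 i : ℕ} {x y z : ℕ → ℕ}
    (hx : Inc n x)
    (hy : Inc n y)
    (hz : Inc n z)
    (h1 : TP n i x y b1 c1 .D)
    (h2 : TP n i y z b2 c2 .C)
    (h3 : TP n i x z b3 c3 .A) : False := by
  obtain ⟨p11, p12, p13, p14, v11, v12, v13, v14, v15⟩ := h1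
  obtain ⟨p21, p22, p23, p24, v21, v22, v23, v24, v25⟩ := h2
  obtain ⟨p31, p32, p33, p34, v31, v32, v33, v34, v35⟩ := h3
  have f5 : x (i + 2) < y i := v11
  have f6 : y (i + 2) < x (i + 3) := v12
  have f14 : y (i + 1) < z i := v21
  have f15 : z (i + 1) < y (i + 2) := v22
  have f24 : z i < x b3 := v32
  have f25 : x (c3 - 1) < z (i + 1) := v33
  have m31 : x b3 ≤ x (c3 - 1) := hx.le (by omega) (by omega)
  have m63 : y i < y (i + 1) := hy _ _ (by omega) (by omega)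
  have d83 : b3 < i + 3 := hx.lt_of (a := b3) (b := (i + 3)) (by omega) (by omega)
  have d84 : i + 2 < b3 := hx.lt_of (a := (i + 2)) (b := b3) (by omega) (by omega)
  omega

theorem flat_DCB {n b1 b2 b3 c1 c2 c3 i : ℕ} {x y z : ℕ → ℕ}
    (hx : Inc n x)
    (hy : Inc n y)
    (hz : Inc n z)
    (h1 : TP n i x y b1 c1 .D)
    (h2 : TP n i y z b2 c2 .C)
    (h3 : TP n i x z b3 c3 .B) : False := by
  obtain ⟨p11, p12, p13, p14, v11, v12, v13, v14, v15⟩ := h1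
  obtain ⟨p21, p22, p23, p24, v21, v22, v23, v24, v25⟩ := h2
  obtain ⟨⟨p31, p32, p33, p34, v31, v32, v33, v34, v35⟩, q31, q32⟩ := h3
  have f9 : x (n - 1) < y (i + 4) := v15
  have f18 : y (n - 1) < z (i + 3) := v25
  have f26 : z (c3 - 1) < x c3 := v34
  have m37 : x c3 ≤ x (n - 1) := hx.le (by omega) (by omega)
  have m69 : y (i + 4) < y (n - 1) := hy _ _ (by omega) (by omega)
  have m92 : z (i + 3) < z (c3 - 1) := hz _ _ (by omega) (by omega)
  omega

theorem flat_DCC {n b1 b2 b3 c1 c2 c3 i : ℕ} {x y z : ℕ → ℕ}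
    (hx : Inc n x)
    (hy : Inc n y)
    (hz : Inc n z)
    (h1 : TP n i x y b1 c1 .D)
    (h2 : TP n i y z b2 c2 .C)
    (h3 : TP n i x z b3 c3 .C) : False := by
  obtain ⟨p11, p12, p13, p14, v11, v12, v13, v14, v15⟩ := h1
  obtain ⟨p21, p22, p23, p24, v21, v22, v23, v24, v25⟩ := h2
  obtain ⟨p31, p32, p33, p34, v31, v32, v33, v34, v35⟩ := h3
  have f7 : x (c1 - 1) < y (i + 3) := v13
  have f16 : y (i + 3) < z (i + 2) := v23
  have f26 : z (i + 2) < x (i + 4) := v34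
  have m47 : x (i + 4) ≤ x (c1 - 1) := hx.le (by omega) (by omega)
  omega

theorem flat_DCD {n b1 b2 b3 c1 c2 c3 i : ℕ} {x y z : ℕ → ℕ}
    (hx : Inc n x)
    (hy : Inc n y)
    (hz : Inc n z)
    (h1 : TP n i x y b1 c1 .D)
    (h2 : TP n i y z b2 c2 .C)
    (h3 : TP n i x z b3 c3 .D) : False := by
  obtain ⟨p11, p12, p13, p14, v11, v12, v13, v14, v15⟩ := h1
  obtain ⟨p21, p22, p23, p24, v21, v22, v23, v24, v25⟩ := h2
  obtain ⟨p31, p32, p33, p34, v31, v32, v33, v34, v35⟩ := h3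
  have f7 : x (c1 - 1) < y (i + 3) := v13
  have f16 : y (i + 3) < z (i + 2) := v23
  have f24 : z (i + 2) < x (i + 3) := v32
  have m34 : x (i + 3) < x (c1 - 1) := hx _ _ (by omega) (by omega)
  omega

theorem flat_DCE {n b1 b2 b3 c1 c2 c3 i : ℕ} {x y z : ℕ → ℕ}
    (hx : Inc n x)
    (hy : Inc n y)
    (hz : Inc n z)
    (h1 : TP n i x y b1 c1 .D)
    (h2 : TP n i y z b2 c2 .C)
    (h3 : TP n i x z b3 c3 .E) : False := by
  obtain ⟨p11, p12, p13, p14, v11, v12, v13, v14, v15⟩ := h1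
  obtain ⟨p21, p22, p23, p24, v21, v22, v23, v24, v25⟩ := h2
  obtain ⟨a3, q31, q32, p31, p32, p33, p34, v31, v32, v33, v34, v35⟩ := h3
  have f9 : x (n - 1) < y (i + 4) := v15
  have f18 : y (n - 1) < z (i + 3) := v25
  have f26 : z (b3 - 1) < x c3 := v34
  have m34 : x c3 ≤ x (n - 1) := hx.le (by omega) (by omega)
  have m64 : y (i + 4) < y (n - 1) := hy _ _ (by omega) (by omega)
  have m97 : z (i + 3) < z (b3 - 1) := hz _ _ (by omega) (by omega)
  omega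

theorem flat_DDA {n b1 b2 b3 c1 c2 c3 i : ℕ} {x y z : ℕ → ℕ}
    (hx : Inc n x)
    (hy : Inc n y)
    (hz : Inc n z)
    (h1 : TP n i x y b1 c1 .D)
    (h2 : TP n i y z b2 c2 .D)
    (h3 : TP n i x z b3 c3 .A) : False := by
  obtain ⟨p11, p12, p13, p14, v11, v12, v13, v14, v15⟩ := h1
  obtain ⟨p21, p22, p23, p24, v21, v22, v23, v24, v25⟩ := h2
  obtain ⟨p31, p32, p33, p34, v31, v32, v33, v34, v35⟩ := h3
  have f5 : x (i + 2) < y i := v11
  have f9 : x (n - 1) < y (i + 4) := v15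
  have f14 : y (i + 2) < z i := v21
  have f16 : y (c2 - 1) < z (i + 3) := v23
  have f24 : z i < x b3 := v32
  have f26 : z (c3 - 1) < x c3 := v34
  have m33 : x c3 ≤ x (n - 1) := hx.le (by omega) (by omega)
  have m65 : y (i + 4) ≤ y (c2 - 1) := hy.le (by omega) (by omega)
  have m66 : y i < y (i + 2) := hy _ _ (by omega) (by omega)
  have d94 : i + 2 < b3 := hx.lt_of (a := (i + 2)) (b := b3) (by omega) (by omega)
  have d97 : c3 - 1 < i + 3 := hz.lt_of (a := (c3 - 1)) (b := (i + 3)) (by omega) (by omega)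
  omega

theorem flat_DDB {n b1 b2 b3 c1 c2 c3 i : ℕ} {x y z : ℕ → ℕ}
    (hx : Inc n x)
    (hy : Inc n y)
    (hz : Inc n z)
    (h1 : TP n i x y b1 c1 .D)
    (h2 : TP n i y z b2 c2 .D)
    (h3 : TP n i x z b3 c3 .B) : False := by
  obtain ⟨p11, p12, p13, p14, v11, v12, v13, v14, v15⟩ := h1
  obtain ⟨p21, p22, p23, p24, v21, v22, v23, v24, v25⟩ := h2
  obtain ⟨⟨p31, p32, p33, p34, v31, v32, v33, v34, v35⟩, q31, q32⟩ := h3
  have f9 : x (n - 1) < y (i + 4) := v15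
  have f16 : y (c2 - 1) < z (i + 3) := v23
  have f26 : z (c3 - 1) < x c3 := v34
  have m40 : x c3 ≤ x (n - 1) := hx.le (by omega) (by omega)
  have m76 : y (i + 4) ≤ y (c2 - 1) := hy.le (by omega) (by omega)
  have m105 : z (i + 3) < z (c3 - 1) := hz _ _ (by omega) (by omega)
  omega

theorem flat_DDC {n b1 b2 b3 c1 c2 c3 i : ℕ} {x y z : ℕ → ℕ}
    (hx : Inc n x)
    (hy : Inc n y)
    (hz : Inc n z)
    (h1 : TP n i x y b1 c1 .D)
    (h2 : TP n i y z b2 c2 .D)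
    (h3 : TP n i x z b3 c3 .C) : False := by
  obtain ⟨p11, p12, p13, p14, v11, v12, v13, v14, v15⟩ := h1
  obtain ⟨p21, p22, p23, p24, v21, v22, v23, v24, v25⟩ := h2
  obtain ⟨p31, p32, p33, p34, v31, v32, v33, v34, v35⟩ := h3
  have f5 : x (i + 2) < y i := v11
  have f14 : y (i + 2) < z i := v21
  have f24 : z (i + 1) < x (i + 2) := v32
  have m63 : y i < y (i + 2) := hy _ _ (by omega) (by omega)
  have m73 : z i < z (i + 1) := hz _ _ (by omega) (by omega)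
  omega

theorem flat_DDD {n b1 b2 b3 c1 c2 c3 i : ℕ} {x y z : ℕ → ℕ}
    (hx : Inc n x)
    (hy : Inc n y)
    (hz : Inc n z)
    (h1 : TP n i x y b1 c1 .D)
    (h2 : TP n i y z b2 c2 .D)
    (h3 : TP n i x z b3 c3 .D) : False := by
  obtain ⟨p11, p12, p13, p14, v11, v12, v13, v14, v15⟩ := h1
  obtain ⟨p21, p22, p23, p24, v21, v22, v23, v24, v25⟩ := h2
  obtain ⟨p31, p32, p33, p34, v31, v32, v33, v34, v35⟩ := h3
  have f9 : x (n - 1) < y (i + 4) := v15
  have f16 : y (c2 - 1) < z (i + 3) := v23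
  have f26 : z (i + 3) < x c3 := v34
  have m45 : x c3 ≤ x (n - 1) := hx.le (by omega) (by omega)
  have m65 : y (i + 4) ≤ y (c2 - 1) := hy.le (by omega) (by omega)
  omega

theorem flat_DDE {n b1 b2 b3 c1 c2 c3 i : ℕ} {x y z : ℕ → ℕ}
    (hx : Inc n x)
    (hy : Inc n y)
    (hz : Inc n z)
    (h1 : TP n i x y b1 c1 .D)
    (h2 : TP n i y z b2 c2 .D)
    (h3 : TP n i x z b3 c3 .E) : False := by
  obtain ⟨p11, p12, p13, p14, v11, v12, v13, v14, v15⟩ := h1
  obtain ⟨p21, p22, p23, p24, v21, v22, v23, v24, v25⟩ := h2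
  obtain ⟨a3, q31, q32, p31, p32, p33, p34, v31, v32, v33, v34, v35⟩ := h3
  have f9 : x (n - 1) < y (i + 4) := v15
  have f16 : y (c2 - 1) < z (i + 3) := v23
  have f26 : z (b3 - 1) < x c3 := v34
  have m37 : x c3 ≤ x (n - 1) := hx.le (by omega) (by omega)
  have m71 : y (i + 4) ≤ y (c2 - 1) := hy.le (by omega) (by omega)
  have m101 : z (i + 3) < z (b3 - 1) := hz _ _ (by omega) (by omega)
  omega

theorem flat_DEA {n b1 b2 b3 c1 c2 c3 i : ℕ} {x y z : ℕ → ℕ}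
    (hx : Inc n x)
    (hy : Inc n y)
    (hz : Inc n z)
    (h1 : TP n i x y b1 c1 .D)
    (h2 : TP n i y z b2 c2 .E)
    (h3 : TP n i x z b3 c3 .A) : False := by
  obtain ⟨p11, p12, p13, p14, v11, v12, v13, v14, v15⟩ := h1
  obtain ⟨a2, q21, q22, p21, p22, p23, p24, v21, v22, v23, v24, v25⟩ := h2
  obtain ⟨p31, p32, p33, p34, v31, v32, v33, v34, v35⟩ := h3
  have f9 : x (n - 1) < y (i + 4) := v15
  have f14 : y (b2 - 1) < z i := v21
  have f24 : z i < x b3 := v32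
  have m31 : x b3 < x (n - 1) := hx _ _ (by omega) (by omega)
  have m72 : y (i + 4) ≤ y (b2 - 1) := hy.le (by omega) (by omega)
  omega

theorem flat_DEB {n b1 b2 b3 c1 c2 c3 i : ℕ} {x y z : ℕ → ℕ}
    (hx : Inc n x)
    (hy : Inc n y)
    (hz : Inc n z)
    (h1 : TP n i x y b1 c1 .D)
    (h2 : TP n i y z b2 c2 .E)
    (h3 : TP n i x z b3 c3 .B) : False := by
  obtain ⟨p11, p12, p13, p14, v11, v12, v13, v14, v15⟩ := h1
  obtain ⟨a2, q21, q22, p21, p22, p23, p24, v21, v22, v23, v24, v25⟩ := h2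
  obtain ⟨⟨p31, p32, p33, p34, v31, v32, v33, v34, v35⟩, q31, q32⟩ := h3
  have f9 : x (n - 1) < y (i + 4) := v15
  have f14 : y (b2 - 1) < z i := v21
  have f26 : z (c3 - 1) < x c3 := v34
  have m39 : x c3 ≤ x (n - 1) := hx.le (by omega) (by omega)
  have m83 : y (i + 4) ≤ y (b2 - 1) := hy.le (by omega) (by omega)
  have m106 : z i < z (c3 - 1) := hz _ _ (by omega) (by omega)
  omega

theorem flat_DEC {n b1 b2 b3 c1 c2 c3 i : ℕ} {x y z : ℕ → ℕ}
    (hx : Inc n x)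
    (hy : Inc n y)
    (hz : Inc n z)
    (h1 : TP n i x y b1 c1 .D)
    (h2 : TP n i y z b2 c2 .E)
    (h3 : TP n i x z b3 c3 .C) : False := by
  obtain ⟨p11, p12, p13, p14, v11, v12, v13, v14, v15⟩ := h1
  obtain ⟨a2, q21, q22, p21, p22, p23, p24, v21, v22, v23, v24, v25⟩ := h2
  obtain ⟨p31, p32, p33, p34, v31, v32, v33, v34, v35⟩ := h3
  have f5 : x (i + 2) < y i := v11
  have f14 : y (b2 - 1) < z i := v21
  have f24 : z (i + 1) < x (i + 2) := v32
  have m81 : y i < y (b2 - 1) := hy _ _ (by omega) (by omega)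
  have m93 : z i < z (i + 1) := hz _ _ (by omega) (by omega)
  omega

theorem flat_DED {n b1 b2 b3 c1 c2 c3 i : ℕ} {x y z : ℕ → ℕ}
    (hx : Inc n x)
    (hy : Inc n y)
    (hz : Inc n z)
    (h1 : TP n i x y b1 c1 .D)
    (h2 : TP n i y z b2 c2 .E)
    (h3 : TP n i x z b3 c3 .D) : False := by
  obtain ⟨p11, p12, p13, p14, v11, v12, v13, v14, v15⟩ := h1
  obtain ⟨a2, q21, q22, p21, p22, p23, p24, v21, v22, v23, v24, v25⟩ := h2
  obtain ⟨p31, p32, p33, p34, v31, v32, v33, v34, v35⟩ := h3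
  have f7 : x (c1 - 1) < y (i + 3) := v13
  have f14 : y (b2 - 1) < z i := v21
  have f24 : z (i + 2) < x (i + 3) := v32
  have m44 : x (i + 3) < x (c1 - 1) := hx _ _ (by omega) (by omega)
  have m61 : y (i + 3) < y (b2 - 1) := hy _ _ (by omega) (by omega)
  have m94 : z i < z (i + 2) := hz _ _ (by omega) (by omega)
  omega

theorem flat_DEE {n b1 b2 b3 c1 c2 c3 i : ℕ} {x y z : ℕ → ℕ}
    (hx : Inc n x)
    (hy : Inc n y)
    (hz : Inc n z)
    (h1 : TP n i x y b1 c1 .D)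
    (h2 : TP n i y z b2 c2 .E)
    (h3 : TP n i x z b3 c3 .E) : False := by
  obtain ⟨p11, p12, p13, p14, v11, v12, v13, v14, v15⟩ := h1
  obtain ⟨a2, q21, q22, p21, p22, p23, p24, v21, v22, v23, v24, v25⟩ := h2
  obtain ⟨a3, q31, q32, p31, p32, p33, p34, v31, v32, v33, v34, v35⟩ := h3
  have f9 : x (n - 1) < y (i + 4) := v15
  have f14 : y (b2 - 1) < z i := v21
  have f24 : z (a3 - 1) < x b3 := v32
  have m33 : x b3 < x (n - 1) := hx _ _ (by omega) (by omega)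
  have m78 : y (i + 4) ≤ y (b2 - 1) := hy.le (by omega) (by omega)
  have m107 : z i < z (a3 - 1) := hz _ _ (by omega) (by omega)
  omega

end Pool.Agent.Helper77.EH
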