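import Pool.Agent.Helper77.EH.Split

/-!
Upper bounds for the cliques of a colouring, relative to an initial block of positions, and the
extension of such bounds by finitely many top levels.
-/

namespace Pool.Agent.Helper77.EH

open Pool.Agent.Helper18.EH

/-- There is a relation which meets every tree of height four starting at a position at least `t`,
and whose cliques inside a fixed initial segment of length `t` have at most `M` elements. -/
def UB (n t M : ℕ) : Prop := ∃ R : (ℕ → ℕ) → (ℕ → ℕ) → Prop,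
  (∀ (H : Set (ℕ → ℕ)) (s s2 s3 s4 : ℕ) (q : ℕ → ℕ), (∀ x ∈ H, Inc n x) → t ≤ s →
    Node n H [s2, s3, s4] s q → ∃ x ∈ H, ∃ y ∈ H, x ≠ y ∧ (∀ j < s, x j = y j) ∧ R x y) ∧
  (∀ K : Finset (ℕ → ℕ), (∀ x ∈ K, Inc n x) →
    (∀ x ∈ K, ∀ y ∈ K, x ≠ y → LexLt n x y ∨ LexLt n y x) →
    (∀ x ∈ K, ∀ y ∈ K, x ≠ y → R x y ∨ R y x) →
    (∀ x ∈ K, ∀ y ∈ K, ∀ j < t, x j = y j) → K.card ≤ M)

theorem UB.mono {n t M M' : ℕ} (h : UB n t M) (hM : M ≤ M') : UB n t M' := by
  obtain ⟨R, h1, h2⟩ := h
  exact ⟨R, h1, fun K a b c d => (h2 K a b c d).trans hM⟩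

theorem UB.not_arrow {n M : ℕ} (h : UB n 0 M) :
    ¬ Arrow (Ordinal.omega0 ^ n) (Ordinal.omega0 ^ 4) (M + 1) := by
  obtain ⟨R, h1, h2⟩ := h
  refine Pool.Agent.Helper18.EH.not_arrow (k := 3) R ?_ ?_
  · intro H s S q hH hS hN
    match S, hS, hN with
    | [s2, s3, s4], _, hN =>
      obtain ⟨x, hx, y, hy, hne, _, hR⟩ := h1 H s s2 s3 s4 q hH (Nat.zero_le _) hN
      exact ⟨x, hx, y, hy, hne, hR⟩
  · intro K a b c
    exact h2 K a b c (fun _ _ _ _ j hj => absurd hj (Nat.not_lt_zero _))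

theorem ub_triv {n t : ℕ} (h : n ≤ t + 3) : UB n t 1 := by
  refine ⟨fun _ _ => False, ?_, ?_⟩
  · intro H s s2 s3 s4 q _ hs hN
    exfalso
    obtain ⟨o1, h0⟩ := hN
    obtain ⟨_, _, _, o2, h1⟩ := h0 0
    obtain ⟨_, _, _, o3, h2⟩ := h1 0
    obtain ⟨_, _, _, o4, _⟩ := h2 0
    omega
  · intro K _ _ h3 _
    rw [Finset.card_le_one]
    intro x hx y hy
    by_contra hne
    rcases h3 x hx y hy hne with g | g <;> exact g

theorem LexLt.ne' {n : ℕ} {x y : ℕ → ℕ} (h : LexLt n x y) : x ≠ y := by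
  rintro rfl
  obtain ⟨i, _, _, h⟩ := h
  exact lt_irrefl _ h

/-- Adding `m` levels with at most `N` classes multiplies the bound by `N`. -/
theorem ub_step {n i m N M : ℕ} (T : (ℕ → ℕ) → (ℕ → ℕ) → Prop)
    (hT : ∀ x y, Inc n x → Inc n y → T x y →
      ∃ s, i ≤ s ∧ s < i + m ∧ (∀ j < s, x j = y j) ∧ x s < y s)
    (hhit : ∀ (H : Set (ℕ → ℕ)) (s s2 s3 s4 : ℕ) (q : ℕ → ℕ), (∀ x ∈ H, Inc n x) → i ≤ s →
      s < i + m → Node n H [s2, s3, s4] s q → ∃ x ∈ H, ∃ y ∈ H, (∀ j < s, x j = y j) ∧ T x y)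
    (hno : ∀ x : Fin (N + 1) → ℕ → ℕ, (∀ k, Inc n (x k)) → (∀ k l, k < l → T (x k) (x l)) →
      False)
    (hUB : UB n (i + m) M) : UB n i (N * M) := by
  classical
  obtain ⟨R, h1, h2⟩ := hUB
  have hTne : ∀ x y, Inc n x → Inc n y → T x y → x ≠ y := by
    rintro x y hx hy hxy rfl
    obtain ⟨s, _, _, _, h⟩ := hT x x hx hy hxy
    exact lt_irrefl _ h
  refine ⟨fun x y => ((∀ j < i + m, x j = y j) ∧ R x y) ∨ T x y, ?_, ?_⟩
  · intro H s s2 s3 s4 q hH hs hN
    rcases Nat.lt_or_ge s (i + m) with g | g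
    · obtain ⟨x, hx, y, hy, he, hxy⟩ := hhit H s s2 s3 s4 q hH hs g hN
      exact ⟨x, hx, y, hy, hTne x y (hH x hx) (hH y hy) hxy, he, Or.inr hxy⟩
    · obtain ⟨x, hx, y, hy, hne, he, hxy⟩ := h1 H s s2 s3 s4 q hH g hN
      exact ⟨x, hx, y, hy, hne, he, Or.inl ⟨fun j hj => he j (by omega), hxy⟩⟩
  · intro K k1 k2 k3 k4
    let φ : (ℕ → ℕ) → Lex (Fin (i + m) → ℕ) := fun x => toLex (fun j : Fin (i + m) => x j)
    have hφ : ∀ x y, φ x = φ y → ∀ j < i + m, x j = y j := by
      intro x y h j hj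
      have := congrFun (show (fun j : Fin (i + m) => x j) = (fun j : Fin (i + m) => y j) from h)
        ⟨j, hj⟩
      exact this
    have hfib : ∀ a ∈ K.image φ, (K.filter (fun x => φ x = a)).card ≤ M := by
      intro a _
      have hsame : ∀ x ∈ K.filter (fun x => φ x = a), ∀ y ∈ K.filter (fun x => φ x = a),
          ∀ j < i + m, x j = y j := by
        intro x hx y hy
        exact hφ x y ((Finset.mem_filter.1 hx).2.trans (Finset.mem_filter.1 hy).2.symm)
      have hnT : ∀ x ∈ K.filter (fun x => φ x = a), ∀ y ∈ K.filter (fun x => φ x = a),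
          ¬ T x y := by
        intro x hx y hy hxy
        obtain ⟨s, _, hs, _, hlt⟩ := hT x y (k1 x (Finset.mem_filter.1 hx).1)
          (k1 y (Finset.mem_filter.1 hy).1) hxy
        have := hsame x hx y hy s hs
        omega
      apply h2
      · exact fun x hx => k1 x (Finset.mem_filter.1 hx).1
      · exact fun x hx y hy => k2 x (Finset.mem_filter.1 hx).1 y (Finset.mem_filter.1 hy).1
      · intro x hx y hy hne
        rcases k3 x (Finset.mem_filter.1 hx).1 y (Finset.mem_filter.1 hy).1 hne with g | g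
        · rcases g with g | g
          · exact Or.inl g.2
          · exact absurd g (hnT x hx y hy)
        · rcases g with g | g
          · exact Or.inr g.2
          · exact absurd g (hnT y hy x hx)
      · exact hsame
    have himg : (K.image φ).card ≤ N := by
      by_contra hcon
      have hcard : N + 1 ≤ (K.image φ).card := by omega
      let f := (K.image φ).orderEmbOfCardLe hcard
      have hf : ∀ k, ∃ x ∈ K, φ x = f k := by
        intro k
        exact Finset.mem_image.1 ((K.image φ).orderEmbOfCardLe_mem hcard k)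
      choose x hxK hxf using hf
      refine hno x (fun k => k1 _ (hxK k)) ?_
      intro k l hkl
      have hlt : φ (x k) < φ (x l) := by
        rw [hxf, hxf]
        exact f.strictMono hkl
      obtain ⟨⟨s, hs⟩, he, hl⟩ := hlt
      have he' : ∀ j < s, x k j = x l j := fun j hj => he ⟨j, by omega⟩ hj
      have hl' : x k s < x l s := hl
      have hne : x k ≠ x l := by
        intro h
        rw [h] at hl'
        exact lt_irrefl _ hl'
      rcases k3 _ (hxK k) _ (hxK l) hne with (g | g) | (g | g)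
      · have := g.1 s hs
        omega
      · exact g
      · have := g.1 s hs
        omega
      · exfalso
        obtain ⟨u, _, _, u3, u4⟩ := hT _ _ (k1 _ (hxK l)) (k1 _ (hxK k)) g
        rcases lt_trichotomy s u with h | h | h
        · have := u3 s h
          omega
        · subst h
          omega
        · have := he' u h
          omega
    calc K.card ≤ M * (K.image φ).card := Finset.card_le_mul_card_image K M hfib
      _ ≤ M * N := Nat.mul_le_mul_left _ himg
      _ = N * M := Nat.mul_comm _ _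

end Pool.Agent.Helper77.EH
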