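import Pool.Agent.Helper77.EH.Types

/-!
Triangles of the five-level colouring (generated case analysis).
-/

set_option linter.unusedVariables false

namespace Pool.Agent.Helper77.EH

open Pool.Agent.Helper18.EH

theorem g_AA_s {n a1 b1 b2 b3 c1 c2 c3 i s : ℕ} {x y z : ℕ → ℕ}
    (hx : Inc n x)
    (hy : Inc n y)
    (hz : Inc n z)
    (e1 : ∀ j < s, x j = y j)
    (h1 : Q4 x y s a1 b1 c1 n)
    (hs1 : i + 1 ≤ s)
    (hs2 : s ≤ i + 4)
    (h2 : TP n i y z b2 c2 .A)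
    (h3 : TP n i x z b3 c3 .A)
    (g1 : s ≤ i + 2) : False := by
  obtain ⟨p11, p12, p13, p14, v11, v12, v13, v14, v15⟩ := h1
  obtain ⟨p21, p22, p23, p24, v21, v22, v23, v24, v25⟩ := h2
  obtain ⟨p31, p32, p33, p34, v31, v32, v33, v34, v35⟩ := h3
  have f5 : x (b1 - 1) < y s := v11
  have f7 : x (c1 - 1) < y a1 := v13
  have f9 : x (n - 1) < y b1 := v15
  have f16 : y (c2 - 1) < z (i + 1) := v23
  have f18 : y (n - 1) < z c2 := v25
  have f26 : z (c3 - 1) < x c3 := v34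
  have m36 : x c3 ≤ x (n - 1) := hx.le (by omega) (by omega)
  have m59 : y b1 < y (n - 1) := hy _ _ (by omega) (by omega)
  have m76 : y s ≤ y (c2 - 1) := hy.le (by omega) (by omega)
  have m85 : z (i + 1) < z (c3 - 1) := hz _ _ (by omega) (by omega)
  have d90 : b1 - 1 < c3 := hx.lt_of (a := (b1 - 1)) (b := c3) (by omega) (by omega)
  have d92 : c2 - 1 < b1 := hy.lt_of (a := (c2 - 1)) (b := b1) (by omega) (by omega)
  have d93 : c3 - 1 < c2 := hz.lt_of (a := (c3 - 1)) (b := c2) (by omega) (by omega)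
  have m105 : x c3 ≤ x (c1 - 1) := hx.le (by omega) (by omega)
  have m116 : y a1 ≤ y (c2 - 1) := hy.le (by omega) (by omega)
  omega

theorem g_AA_c2 {n a1 b1 b2 b3 c1 c2 c3 i s : ℕ} {x y z : ℕ → ℕ}
    (hx : Inc n x)
    (hy : Inc n y)
    (hz : Inc n z)
    (e1 : ∀ j < s, x j = y j)
    (h1 : Q4 x y s a1 b1 c1 n)
    (hs1 : i + 1 ≤ s)
    (hs2 : s ≤ i + 4)
    (h2 : TP n i y z b2 c2 .A)
    (h3 : TP n i x z b3 c3 .A)
    (g1 : s + 1 ≤ c2) : False := by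
  obtain ⟨p11, p12, p13, p14, v11, v12, v13, v14, v15⟩ := h1
  obtain ⟨p21, p22, p23, p24, v21, v22, v23, v24, v25⟩ := h2
  obtain ⟨p31, p32, p33, p34, v31, v32, v33, v34, v35⟩ := h3
  have f5 : x (b1 - 1) < y s := v11
  have f7 : x (c1 - 1) < y a1 := v13
  have f9 : x (n - 1) < y b1 := v15
  have f16 : y (c2 - 1) < z (i + 1) := v23
  have f18 : y (n - 1) < z c2 := v25
  have f26 : z (c3 - 1) < x c3 := v34
  have m36 : x c3 ≤ x (n - 1) := hx.le (by omega) (by omega)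
  have m59 : y b1 < y (n - 1) := hy _ _ (by omega) (by omega)
  have m75 : y s ≤ y (c2 - 1) := hy.le (by omega) (by omega)
  have m84 : z (i + 1) < z (c3 - 1) := hz _ _ (by omega) (by omega)
  have d89 : b1 - 1 < c3 := hx.lt_of (a := (b1 - 1)) (b := c3) (by omega) (by omega)
  have d91 : c2 - 1 < b1 := hy.lt_of (a := (c2 - 1)) (b := b1) (by omega) (by omega)
  have d92 : c3 - 1 < c2 := hz.lt_of (a := (c3 - 1)) (b := c2) (by omega) (by omega)
  have m104 : x c3 ≤ x (c1 - 1) := hx.le (by omega) (by omega)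
  have m115 : y a1 ≤ y (c2 - 1) := hy.le (by omega) (by omega)
  omega

theorem g_AA_c3 {n a1 b1 b2 b3 c1 c2 c3 i s : ℕ} {x y z : ℕ → ℕ}
    (hx : Inc n x)
    (hy : Inc n y)
    (hz : Inc n z)
    (e1 : ∀ j < s, x j = y j)
    (h1 : Q4 x y s a1 b1 c1 n)
    (hs1 : i + 1 ≤ s)
    (hs2 : s ≤ i + 4)
    (h2 : TP n i y z b2 c2 .A)
    (h3 : TP n i x z b3 c3 .A)
    (g1 : s + 1 ≤ c3) : False := by
  obtain ⟨p11, p12, p13, p14, v11, v12, v13, v14, v15⟩ := h1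
  obtain ⟨p21, p22, p23, p24, v21, v22, v23, v24, v25⟩ := h2
  obtain ⟨p31, p32, p33, p34, v31, v32, v33, v34, v35⟩ := h3
  have f5 : x (b1 - 1) < y s := v11
  have f7 : x (c1 - 1) < y a1 := v13
  have f9 : x (n - 1) < y b1 := v15
  have f16 : y (c2 - 1) < z (i + 1) := v23
  have f18 : y (n - 1) < z c2 := v25
  have f26 : z (c3 - 1) < x c3 := v34
  have m36 : x c3 ≤ x (n - 1) := hx.le (by omega) (by omega)
  have m59 : y b1 < y (n - 1) := hy _ _ (by omega) (by omega)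
  have m82 : z (i + 1) < z (c3 - 1) := hz _ _ (by omega) (by omega)
  have d88 : c2 - 1 < b1 := hy.lt_of (a := (c2 - 1)) (b := b1) (by omega) (by omega)
  have d89 : c3 - 1 < c2 := hz.lt_of (a := (c3 - 1)) (b := c2) (by omega) (by omega)
  have m101 : x c3 ≤ x (c1 - 1) := hx.le (by omega) (by omega)
  have m113 : y s ≤ y (c2 - 1) := hy.le (by omega) (by omega)
  have d119 : b1 - 1 < c3 := hx.lt_of (a := (b1 - 1)) (b := c3) (by omega) (by omega)
  have d122 : c2 - 1 < a1 := hy.lt_of (a := (c2 - 1)) (b := a1) (by omega) (by omega)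
  omega

theorem g_AB {n a1 b1 b2 b3 c1 c2 c3 i s : ℕ} {x y z : ℕ → ℕ}
    (hx : Inc n x)
    (hy : Inc n y)
    (hz : Inc n z)
    (e1 : ∀ j < s, x j = y j)
    (h1 : Q4 x y s a1 b1 c1 n)
    (hs1 : i + 1 ≤ s)
    (hs2 : s ≤ i + 4)
    (h2 : TP n i y z b2 c2 .A)
    (h3 : TP n i x z b3 c3 .B) : False := by
  obtain ⟨p11, p12, p13, p14, v11, v12, v13, v14, v15⟩ := h1
  obtain ⟨p21, p22, p23, p24, v21, v22, v23, v24, v25⟩ := h2
  obtain ⟨⟨p31, p32, p33, p34, v31, v32, v33, v34, v35⟩, q31, q32⟩ := h3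
  have f5 : x (b1 - 1) < y s := v11
  have f9 : x (n - 1) < y b1 := v15
  have f16 : y (c2 - 1) < z (i + 1) := v23
  have f18 : y (n - 1) < z c2 := v25
  have f24 : z (i + 1) < x b3 := v32
  have f26 : z (c3 - 1) < x c3 := v34
  have m33 : x b3 < x (n - 1) := hx _ _ (by omega) (by omega)
  have m39 : x c3 ≤ x (n - 1) := hx.le (by omega) (by omega)
  have m65 : y b1 < y (n - 1) := hy _ _ (by omega) (by omega)
  have d100 : c2 - 1 < b1 := hy.lt_of (a := (c2 - 1)) (b := b1) (by omega) (by omega)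
  have d101 : c3 - 1 < c2 := hz.lt_of (a := (c3 - 1)) (b := c2) (by omega) (by omega)
  have m103 : x b3 ≤ x (b1 - 1) := hx.le (by omega) (by omega)
  have m124 : y s ≤ y (c2 - 1) := hy.le (by omega) (by omega)
  omega

theorem g_AC {n a1 b1 b2 b3 c1 c2 c3 i s : ℕ} {x y z : ℕ → ℕ}
    (hx : Inc n x)
    (hy : Inc n y)
    (hz : Inc n z)
    (e1 : ∀ j < s, x j = y j)
    (h1 : Q4 x y s a1 b1 c1 n)
    (hs1 : i + 1 ≤ s)
    (hs2 : s ≤ i + 4)
    (h2 : TP n i y z b2 c2 .A)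
    (h3 : TP n i x z b3 c3 .C) : False := by
  obtain ⟨p11, p12, p13, p14, v11, v12, v13, v14, v15⟩ := h1
  obtain ⟨p21, p22, p23, p24, v21, v22, v23, v24, v25⟩ := h2
  obtain ⟨p31, p32, p33, p34, v31, v32, v33, v34, v35⟩ := h3
  have f5 : x (b1 - 1) < y s := v11
  have f16 : y (c2 - 1) < z (i + 1) := v23
  have f24 : z (i + 1) < x (i + 2) := v32
  have m41 : x (i + 2) ≤ x (b1 - 1) := hx.le (by omega) (by omega)
  have d106 : c2 - 1 < s := hy.lt_of (a := (c2 - 1)) (b := s) (by omega) (by omega)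
  have m110 : x (c2 - 1) = y (c2 - 1) := e1 _ (by omega)
  have m140 : x (i + 2) ≤ x (c2 - 1) := hx.le (by omega) (by omega)
  omega

theorem g_AD {n a1 b1 b2 b3 c1 c2 c3 i s : ℕ} {x y z : ℕ → ℕ}
    (hx : Inc n x)
    (hy : Inc n y)
    (hz : Inc n z)
    (e1 : ∀ j < s, x j = y j)
    (h1 : Q4 x y s a1 b1 c1 n)
    (hs1 : i + 1 ≤ s)
    (hs2 : s ≤ i + 4)
    (h2 : TP n i y z b2 c2 .A)
    (h3 : TP n i x z b3 c3 .D) : False := by
  obtain ⟨p11, p12, p13, p14, v11, v12, v13, v14, v15⟩ := h1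
  obtain ⟨p21, p22, p23, p24, v21, v22, v23, v24, v25⟩ := h2
  obtain ⟨p31, p32, p33, p34, v31, v32, v33, v34, v35⟩ := h3
  have f5 : x (b1 - 1) < y s := v11
  have f7 : x (c1 - 1) < y a1 := v13
  have f9 : x (n - 1) < y b1 := v15
  have f16 : y (c2 - 1) < z (i + 1) := v23
  have f18 : y (n - 1) < z c2 := v25
  have f24 : z (i + 2) < x (i + 3) := v32
  have f26 : z (i + 3) < x c3 := v34
  have m33 : x c3 ≤ x (n - 1) := hx.le (by omega) (by omega)
  have m52 : x (i + 3) ≤ x (c1 - 1) := hx.le (by omega) (by omega)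
  have m66 : y b1 < y (n - 1) := hy _ _ (by omega) (by omega)
  have m92 : z (i + 1) < z (i + 2) := hz _ _ (by omega) (by omega)
  have d102 : c2 - 1 < a1 := hy.lt_of (a := (c2 - 1)) (b := a1) (by omega) (by omega)
  have d103 : i + 3 < c2 := hz.lt_of (a := (i + 3)) (b := c2) (by omega) (by omega)
  have m105 : x (i + 3) < x (b1 - 1) := hx _ _ (by omega) (by omega)
  have d133 : c2 - 1 < s := hy.lt_of (a := (c2 - 1)) (b := s) (by omega) (by omega)
  have m136 : x (c2 - 1) = y (c2 - 1) := e1 _ (by omega)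
  have m172 : x (i + 3) ≤ x (c2 - 1) := hx.le (by omega) (by omega)
  omega

theorem g_AE {n a1 b1 b2 b3 c1 c2 c3 i s : ℕ} {x y z : ℕ → ℕ}
    (hx : Inc n x)
    (hy : Inc n y)
    (hz : Inc n z)
    (e1 : ∀ j < s, x j = y j)
    (h1 : Q4 x y s a1 b1 c1 n)
    (hs1 : i + 1 ≤ s)
    (hs2 : s ≤ i + 4)
    (h2 : TP n i y z b2 c2 .A)
    (h3 : TP n i x z b3 c3 .E) : False := by
  obtain ⟨p11, p12, p13, p14, v11, v12, v13, v14, v15⟩ := h1
  obtain ⟨p21, p22, p23, p24, v21, v22, v23, v24, v25⟩ := h2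
  obtain ⟨a3, q31, q32, p31, p32, p33, p34, v31, v32, v33, v34, v35⟩ := h3
  have f5 : x (b1 - 1) < y s := v11
  have f7 : x (c1 - 1) < y a1 := v13
  have f9 : x (n - 1) < y b1 := v15
  have f16 : y (c2 - 1) < z (i + 1) := v23
  have f18 : y (n - 1) < z c2 := v25
  have f24 : z (a3 - 1) < x b3 := v32
  have f26 : z (b3 - 1) < x c3 := v34
  have m32 : x b3 < x (n - 1) := hx _ _ (by omega) (by omega)
  have m37 : x c3 ≤ x (n - 1) := hx.le (by omega) (by omega)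
  have m60 : y b1 < y (n - 1) := hy _ _ (by omega) (by omega)
  have m92 : z (i + 1) ≤ z (a3 - 1) := hz.le (by omega) (by omega)
  have d98 : c2 - 1 < b1 := hy.lt_of (a := (c2 - 1)) (b := b1) (by omega) (by omega)
  have d99 : b3 - 1 < c2 := hz.lt_of (a := (b3 - 1)) (b := c2) (by omega) (by omega)
  have m102 : x b3 ≤ x (c1 - 1) := hx.le (by omega) (by omega)
  have m114 : y s ≤ y (c2 - 1) := hy.le (by omega) (by omega)
  have d124 : b1 - 1 < b3 := hx.lt_of (a := (b1 - 1)) (b := b3) (by omega) (by omega)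
  have d126 : c2 - 1 < a1 := hy.lt_of (a := (c2 - 1)) (b := a1) (by omega) (by omega)
  omega

theorem g_BA {n a1 b1 b2 b3 c1 c2 c3 i s : ℕ} {x y z : ℕ → ℕ}
    (hx : Inc n x)
    (hy : Inc n y)
    (hz : Inc n z)
    (e1 : ∀ j < s, x j = y j)
    (h1 : Q4 x y s a1 b1 c1 n)
    (hs1 : i + 1 ≤ s)
    (hs2 : s ≤ i + 4)
    (h2 : TP n i y z b2 c2 .B)
    (h3 : TP n i x z b3 c3 .A) : False := by
  obtain ⟨p11, p12, p13, p14, v11, v12, v13, v14, v15⟩ := h1
  obtain ⟨⟨p21, p22, p23, p24, v21, v22, v23, v24, v25⟩, q21, q22⟩ := h2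
  obtain ⟨p31, p32, p33, p34, v31, v32, v33, v34, v35⟩ := h3
  have f5 : x (b1 - 1) < y s := v11
  have f7 : x (c1 - 1) < y a1 := v13
  have f9 : x (n - 1) < y b1 := v15
  have f16 : y (c2 - 1) < z (i + 2) := v23
  have f18 : y (n - 1) < z c2 := v25
  have f26 : z (c3 - 1) < x c3 := v34
  have m38 : x c3 ≤ x (n - 1) := hx.le (by omega) (by omega)
  have m61 : y b1 < y (n - 1) := hy _ _ (by omega) (by omega)
  have m78 : y s ≤ y (c2 - 1) := hy.le (by omega) (by omega)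
  have m94 : z (i + 2) ≤ z (c3 - 1) := hz.le (by omega) (by omega)
  have d98 : b1 - 1 < c3 := hx.lt_of (a := (b1 - 1)) (b := c3) (by omega) (by omega)
  have d100 : c2 - 1 < b1 := hy.lt_of (a := (c2 - 1)) (b := b1) (by omega) (by omega)
  have d101 : c3 - 1 < c2 := hz.lt_of (a := (c3 - 1)) (b := c2) (by omega) (by omega)
  have m113 : x c3 ≤ x (c1 - 1) := hx.le (by omega) (by omega)
  have m124 : y a1 ≤ y (c2 - 1) := hy.le (by omega) (by omega)
  have m143 : z (i + 2) < z (c3 - 1) := hz _ _ (by omega) (by omega)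
  omega

theorem g_BB {n a1 b1 b2 b3 c1 c2 c3 i s : ℕ} {x y z : ℕ → ℕ}
    (hx : Inc n x)
    (hy : Inc n y)
    (hz : Inc n z)
    (e1 : ∀ j < s, x j = y j)
    (h1 : Q4 x y s a1 b1 c1 n)
    (hs1 : i + 1 ≤ s)
    (hs2 : s ≤ i + 4)
    (h2 : TP n i y z b2 c2 .B)
    (h3 : TP n i x z b3 c3 .B) : False := by
  obtain ⟨p11, p12, p13, p14, v11, v12, v13, v14, v15⟩ := h1
  obtain ⟨⟨p21, p22, p23, p24, v21, v22, v23, v24, v25⟩, q21, q22⟩ := h2
  obtain ⟨⟨p31, p32, p33, p34, v31, v32, v33, v34, v35⟩, q31, q32⟩ := h3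
  have f5 : x (b1 - 1) < y s := v11
  have f7 : x (c1 - 1) < y a1 := v13
  have f9 : x (n - 1) < y b1 := v15
  have f16 : y (c2 - 1) < z (i + 2) := v23
  have f18 : y (n - 1) < z c2 := v25
  have f26 : z (c3 - 1) < x c3 := v34
  have m42 : x c3 ≤ x (n - 1) := hx.le (by omega) (by omega)
  have m68 : y b1 < y (n - 1) := hy _ _ (by omega) (by omega)
  have m85 : y s ≤ y (c2 - 1) := hy.le (by omega) (by omega)
  have m101 : z (i + 2) < z (c3 - 1) := hz _ _ (by omega) (by omega)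
  have d105 : b1 - 1 < c3 := hx.lt_of (a := (b1 - 1)) (b := c3) (by omega) (by omega)
  have d107 : c2 - 1 < b1 := hy.lt_of (a := (c2 - 1)) (b := b1) (by omega) (by omega)
  have d108 : c3 - 1 < c2 := hz.lt_of (a := (c3 - 1)) (b := c2) (by omega) (by omega)
  have m120 : x c3 ≤ x (c1 - 1) := hx.le (by omega) (by omega)
  have m130 : y a1 ≤ y (c2 - 1) := hy.le (by omega) (by omega)
  omega

theorem g_BC {n a1 b1 b2 b3 c1 c2 c3 i s : ℕ} {x y z : ℕ → ℕ}
    (hx : Inc n x)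
    (hy : Inc n y)
    (hz : Inc n z)
    (e1 : ∀ j < s, x j = y j)
    (h1 : Q4 x y s a1 b1 c1 n)
    (hs1 : i + 1 ≤ s)
    (hs2 : s ≤ i + 4)
    (h2 : TP n i y z b2 c2 .B)
    (h3 : TP n i x z b3 c3 .C) : False := by
  obtain ⟨p11, p12, p13, p14, v11, v12, v13, v14, v15⟩ := h1
  obtain ⟨⟨p21, p22, p23, p24, v21, v22, v23, v24, v25⟩, q21, q22⟩ := h2
  obtain ⟨p31, p32, p33, p34, v31, v32, v33, v34, v35⟩ := h3
  have f5 : x (b1 - 1) < y s := v11
  have f14 : y (b2 - 1) < z i := v21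
  have f16 : y (c2 - 1) < z (i + 2) := v23
  have f24 : z (i + 1) < x (i + 2) := v32
  have f26 : z (i + 2) < x (i + 4) := v34
  have m44 : x (i + 2) ≤ x (b1 - 1) := hx.le (by omega) (by omega)
  have m88 : y s ≤ y (a1 - 1) := hy.le (by omega) (by omega)
  have m90 : y s ≤ y (c2 - 1) := hy.le (by omega) (by omega)
  have m94 : z i < z (i + 1) := hz _ _ (by omega) (by omega)
  have d108 : b1 - 1 < i + 4 := hx.lt_of (a := (b1 - 1)) (b := (i + 4)) (by omega) (by omega)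
  have d111 : b2 - 1 < a1 - 1 := hy.lt_of (a := (b2 - 1)) (b := (a1 - 1)) (by omega) (by omega)
  omega

theorem g_BD {n a1 b1 b2 b3 c1 c2 c3 i s : ℕ} {x y z : ℕ → ℕ}
    (hx : Inc n x)
    (hy : Inc n y)
    (hz : Inc n z)
    (e1 : ∀ j < s, x j = y j)
    (h1 : Q4 x y s a1 b1 c1 n)
    (hs1 : i + 1 ≤ s)
    (hs2 : s ≤ i + 4)
    (h2 : TP n i y z b2 c2 .B)
    (h3 : TP n i x z b3 c3 .D) : False := by
  obtain ⟨p11, p12, p13, p14, v11, v12, v13, v14, v15⟩ := h1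
  obtain ⟨⟨p21, p22, p23, p24, v21, v22, v23, v24, v25⟩, q21, q22⟩ := h2
  obtain ⟨p31, p32, p33, p34, v31, v32, v33, v34, v35⟩ := h3
  have f5 : x (b1 - 1) < y s := v11
  have f7 : x (c1 - 1) < y a1 := v13
  have f16 : y (c2 - 1) < z (i + 2) := v23
  have f24 : z (i + 2) < x (i + 3) := v32
  have m55 : x (i + 3) ≤ x (c1 - 1) := hx.le (by omega) (by omega)
  have m63 : y b2 ≤ y (c2 - 1) := hy.le (by omega) (by omega)
  have m86 : y s ≤ y (c2 - 1) := hy.le (by omega) (by omega)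
  have d111 : b1 - 1 < i + 3 := hx.lt_of (a := (b1 - 1)) (b := (i + 3)) (by omega) (by omega)
  have d112 : b2 < a1 := hy.lt_of (a := b2) (b := a1) (by omega) (by omega)
  omega

theorem g_CA {n a1 b1 b2 b3 c1 c2 c3 i s : ℕ} {x y z : ℕ → ℕ}
    (hx : Inc n x)
    (hy : Inc n y)
    (hz : Inc n z)
    (e1 : ∀ j < s, x j = y j)
    (h1 : Q4 x y s a1 b1 c1 n)
    (hs1 : i + 1 ≤ s)
    (hs2 : s ≤ i + 4)
    (h2 : TP n i y z b2 c2 .C)
    (h3 : TP n i x z b3 c3 .A) : False := by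
  obtain ⟨p11, p12, p13, p14, v11, v12, v13, v14, v15⟩ := h1
  obtain ⟨p21, p22, p23, p24, v21, v22, v23, v24, v25⟩ := h2
  obtain ⟨p31, p32, p33, p34, v31, v32, v33, v34, v35⟩ := h3
  have f5 : x (b1 - 1) < y s := v11
  have f9 : x (n - 1) < y b1 := v15
  have f15 : z (i + 1) < y (i + 2) := v22
  have f16 : y (i + 3) < z (i + 2) := v23
  have f18 : y (n - 1) < z (i + 3) := v25
  have f25 : x (c3 - 1) < z (i + 1) := v33
  have f26 : z (c3 - 1) < x c3 := v34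
  have m35 : x c3 ≤ x (n - 1) := hx.le (by omega) (by omega)
  have m65 : y b1 < y (n - 1) := hy _ _ (by omega) (by omega)
  have m95 : z (i + 2) ≤ z (c3 - 1) := hz.le (by omega) (by omega)
  have d101 : i + 3 < b1 := hy.lt_of (a := (i + 3)) (b := b1) (by omega) (by omega)
  have d102 : c3 - 1 < i + 3 := hz.lt_of (a := (c3 - 1)) (b := (i + 3)) (by omega) (by omega)
  have m114 : x c3 ≤ x (b1 - 1) := hx.le (by omega) (by omega)
  have d133 : i + 3 < s := hy.lt_of (a := (i + 3)) (b := s) (by omega) (by omega)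
  have m134 : x (i + 2) = y (i + 2) := e1 _ (by omega)
  have m160 : x (i + 2) ≤ x (c3 - 1) := hx.le (by omega) (by omega)
  omega

theorem g_CB {n a1 b1 b2 b3 c1 c2 c3 i s : ℕ} {x y z : ℕ → ℕ}
    (hx : Inc n x)
    (hy : Inc n y)
    (hz : Inc n z)
    (e1 : ∀ j < s, x j = y j)
    (h1 : Q4 x y s a1 b1 c1 n)
    (hs1 : i + 1 ≤ s)
    (hs2 : s ≤ i + 4)
    (h2 : TP n i y z b2 c2 .C)
    (h3 : TP n i x z b3 c3 .B) : False := by
  obtain ⟨p11, p12, p13, p14, v11, v12, v13, v14, v15⟩ := h1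
  obtain ⟨p21, p22, p23, p24, v21, v22, v23, v24, v25⟩ := h2
  obtain ⟨⟨p31, p32, p33, p34, v31, v32, v33, v34, v35⟩, q31, q32⟩ := h3
  have f9 : x (n - 1) < y b1 := v15
  have f18 : y (n - 1) < z (i + 3) := v25
  have f26 : z (c3 - 1) < x c3 := v34
  have m39 : x c3 ≤ x (n - 1) := hx.le (by omega) (by omega)
  have m72 : y b1 < y (n - 1) := hy _ _ (by omega) (by omega)
  have m105 : z (i + 3) < z (c3 - 1) := hz _ _ (by omega) (by omega)
  omega

theorem g_CC_s {n a1 b1 b2 b3 c1 c2 c3 i s : ℕ} {x y z : ℕ → ℕ}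
    (hx : Inc n x)
    (hy : Inc n y)
    (hz : Inc n z)
    (e1 : ∀ j < s, x j = y j)
    (h1 : Q4 x y s a1 b1 c1 n)
    (hs1 : i + 1 ≤ s)
    (hs2 : s ≤ i + 4)
    (h2 : TP n i y z b2 c2 .C)
    (h3 : TP n i x z b3 c3 .C)
    (g1 : s ≤ i + 2) : False := by
  obtain ⟨p11, p12, p13, p14, v11, v12, v13, v14, v15⟩ := h1
  obtain ⟨p21, p22, p23, p24, v21, v22, v23, v24, v25⟩ := h2
  obtain ⟨p31, p32, p33, p34, v31, v32, v33, v34, v35⟩ := h3
  have f5 : x (b1 - 1) < y s := v11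
  have f7 : x (c1 - 1) < y a1 := v13
  have f9 : x (n - 1) < y b1 := v15
  have f16 : y (i + 3) < z (i + 2) := v23
  have f26 : z (i + 2) < x (i + 4) := v34
  have m56 : x (i + 4) ≤ x (n - 1) := hx.le (by omega) (by omega)
  have m86 : y s < y (i + 3) := hy _ _ (by omega) (by omega)
  have d106 : b1 - 1 < i + 4 := hx.lt_of (a := (b1 - 1)) (b := (i + 4)) (by omega) (by omega)
  have d107 : i + 3 < b1 := hy.lt_of (a := (i + 3)) (b := b1) (by omega) (by omega)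
  have m120 : x (i + 4) ≤ x (c1 - 1) := hx.le (by omega) (by omega)
  have m126 : y a1 ≤ y (i + 3) := hy.le (by omega) (by omega)
  omega

theorem g_CD {n a1 b1 b2 b3 c1 c2 c3 i s : ℕ} {x y z : ℕ → ℕ}
    (hx : Inc n x)
    (hy : Inc n y)
    (hz : Inc n z)
    (e1 : ∀ j < s, x j = y j)
    (h1 : Q4 x y s a1 b1 c1 n)
    (hs1 : i + 1 ≤ s)
    (hs2 : s ≤ i + 4)
    (h2 : TP n i y z b2 c2 .C)
    (h3 : TP n i x z b3 c3 .D) : False := by
  obtain ⟨p11, p12, p13, p14, v11, v12, v13, v14, v15⟩ := h1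
  obtain ⟨p21, p22, p23, p24, v21, v22, v23, v24, v25⟩ := h2
  obtain ⟨p31, p32, p33, p34, v31, v32, v33, v34, v35⟩ := h3
  have f9 : x (n - 1) < y b1 := v15
  have f18 : y (n - 1) < z (i + 3) := v25
  have f26 : z (i + 3) < x c3 := v34
  have m33 : x c3 ≤ x (n - 1) := hx.le (by omega) (by omega)
  have m73 : y b1 < y (n - 1) := hy _ _ (by omega) (by omega)
  omega

theorem g_CE {n a1 b1 b2 b3 c1 c2 c3 i s : ℕ} {x y z : ℕ → ℕ}
    (hx : Inc n x)
    (hy : Inc n y)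
    (hz : Inc n z)
    (e1 : ∀ j < s, x j = y j)
    (h1 : Q4 x y s a1 b1 c1 n)
    (hs1 : i + 1 ≤ s)
    (hs2 : s ≤ i + 4)
    (h2 : TP n i y z b2 c2 .C)
    (h3 : TP n i x z b3 c3 .E) : False := by
  obtain ⟨p11, p12, p13, p14, v11, v12, v13, v14, v15⟩ := h1
  obtain ⟨p21, p22, p23, p24, v21, v22, v23, v24, v25⟩ := h2
  obtain ⟨a3, q31, q32, p31, p32, p33, p34, v31, v32, v33, v34, v35⟩ := h3
  have f9 : x (n - 1) < y b1 := v15
  have f18 : y (n - 1) < z (i + 3) := v25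
  have f26 : z (b3 - 1) < x c3 := v34
  have m37 : x c3 ≤ x (n - 1) := hx.le (by omega) (by omega)
  have m67 : y b1 < y (n - 1) := hy _ _ (by omega) (by omega)
  have m110 : z (i + 3) < z (b3 - 1) := hz _ _ (by omega) (by omega)
  omega

theorem g_DA {n a1 b1 b2 b3 c1 c2 c3 i s : ℕ} {x y z : ℕ → ℕ}
    (hx : Inc n x)
    (hy : Inc n y)
    (hz : Inc n z)
    (e1 : ∀ j < s, x j = y j)
    (h1 : Q4 x y s a1 b1 c1 n)
    (hs1 : i + 1 ≤ s)
    (hs2 : s ≤ i + 4)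
    (h2 : TP n i y z b2 c2 .D)
    (h3 : TP n i x z b3 c3 .A) : False := by
  obtain ⟨p11, p12, p13, p14, v11, v12, v13, v14, v15⟩ := h1
  obtain ⟨p21, p22, p23, p24, v21, v22, v23, v24, v25⟩ := h2
  obtain ⟨p31, p32, p33, p34, v31, v32, v33, v34, v35⟩ := h3
  have f5 : x (b1 - 1) < y s := v11
  have f7 : x (c1 - 1) < y a1 := v13
  have f9 : x (n - 1) < y b1 := v15
  have f14 : y (i + 2) < z i := v21
  have f16 : y (c2 - 1) < z (i + 3) := v23
  have f18 : y (n - 1) < z (i + 4) := v25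
  have f24 : z i < x b3 := v32
  have f26 : z (c3 - 1) < x c3 := v34
  have m36 : x c3 ≤ x (n - 1) := hx.le (by omega) (by omega)
  have m67 : y b1 < y (n - 1) := hy _ _ (by omega) (by omega)
  have m77 : y s ≤ y (a1 - 1) := hy.le (by omega) (by omega)
  have m79 : y s ≤ y (c2 - 1) := hy.le (by omega) (by omega)
  have d100 : c3 - 1 < i + 4 := hz.lt_of (a := (c3 - 1)) (b := (i + 4)) (by omega) (by omega)
  have m103 : x b3 ≤ x (c1 - 1) := hx.le (by omega) (by omega)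
  have d116 : i + 2 < a1 := hy.lt_of (a := (i + 2)) (b := a1) (by omega) (by omega)
  have m117 : x b3 ≤ x (b1 - 1) := hx.le (by omega) (by omega)
  have d133 : i + 2 < a1 - 1 := hy.lt_of (a := (i + 2)) (b := (a1 - 1)) (by omega) (by omega)
  have d134 : i + 2 < s := hy.lt_of (a := (i + 2)) (b := s) (by omega) (by omega)
  have m135 : x (i + 2) = y (i + 2) := e1 _ (by omega)
  have m139 : x c3 ≤ x (b1 - 1) := hx.le (by omega) (by omega)
  have d167 : i + 2 < b3 := hx.lt_of (a := (i + 2)) (b := b3) (by omega) (by omega)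
  have d168 : c3 - 1 < i + 3 := hz.lt_of (a := (c3 - 1)) (b := (i + 3)) (by omega) (by omega)
  omega

theorem g_DB {n a1 b1 b2 b3 c1 c2 c3 i s : ℕ} {x y z : ℕ → ℕ}
    (hx : Inc n x)
    (hy : Inc n y)
    (hz : Inc n z)
    (e1 : ∀ j < s, x j = y j)
    (h1 : Q4 x y s a1 b1 c1 n)
    (hs1 : i + 1 ≤ s)
    (hs2 : s ≤ i + 4)
    (h2 : TP n i y z b2 c2 .D)
    (h3 : TP n i x z b3 c3 .B) : False := by
  obtain ⟨p11, p12, p13, p14, v11, v12, v13, v14, v15⟩ := h1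
  obtain ⟨p21, p22, p23, p24, v21, v22, v23, v24, v25⟩ := h2
  obtain ⟨⟨p31, p32, p33, p34, v31, v32, v33, v34, v35⟩, q31, q32⟩ := h3
  have f9 : x (n - 1) < y b1 := v15
  have f18 : y (n - 1) < z (i + 4) := v25
  have f26 : z (c3 - 1) < x c3 := v34
  have m40 : x c3 ≤ x (n - 1) := hx.le (by omega) (by omega)
  have m74 : y b1 < y (n - 1) := hy _ _ (by omega) (by omega)
  have m89 : z (i + 4) ≤ z (c3 - 1) := hz.le (by omega) (by omega)
  omega

theorem g_DC {n a1 b1 b2 b3 c1 c2 c3 i s : ℕ} {x y z : ℕ → ℕ}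
    (hx : Inc n x)
    (hy : Inc n y)
    (hz : Inc n z)
    (e1 : ∀ j < s, x j = y j)
    (h1 : Q4 x y s a1 b1 c1 n)
    (hs1 : i + 1 ≤ s)
    (hs2 : s ≤ i + 4)
    (h2 : TP n i y z b2 c2 .D)
    (h3 : TP n i x z b3 c3 .C) : False := by
  obtain ⟨p11, p12, p13, p14, v11, v12, v13, v14, v15⟩ := h1
  obtain ⟨p21, p22, p23, p24, v21, v22, v23, v24, v25⟩ := h2
  obtain ⟨p31, p32, p33, p34, v31, v32, v33, v34, v35⟩ := h3
  have f5 : x (b1 - 1) < y s := v11
  have f14 : y (i + 2) < z i := v21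
  have f24 : z (i + 1) < x (i + 2) := v32
  have m42 : x (i + 2) ≤ x (b1 - 1) := hx.le (by omega) (by omega)
  have m95 : z i < z (i + 1) := hz _ _ (by omega) (by omega)
  have d106 : i + 2 < s := hy.lt_of (a := (i + 2)) (b := s) (by omega) (by omega)
  have m109 : x (i + 2) = y (i + 2) := e1 _ (by omega)
  omega

theorem g_DD_s {n a1 b1 b2 b3 c1 c2 c3 i s : ℕ} {x y z : ℕ → ℕ}
    (hx : Inc n x)
    (hy : Inc n y)
    (hz : Inc n z)
    (e1 : ∀ j < s, x j = y j)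
    (h1 : Q4 x y s a1 b1 c1 n)
    (hs1 : i + 1 ≤ s)
    (hs2 : s ≤ i + 4)
    (h2 : TP n i y z b2 c2 .D)
    (h3 : TP n i x z b3 c3 .D)
    (g1 : s ≤ i + 2) : False := by
  obtain ⟨p11, p12, p13, p14, v11, v12, v13, v14, v15⟩ := h1
  obtain ⟨p21, p22, p23, p24, v21, v22, v23, v24, v25⟩ := h2
  obtain ⟨p31, p32, p33, p34, v31, v32, v33, v34, v35⟩ := h3
  have f5 : x (b1 - 1) < y s := v11
  have f7 : x (c1 - 1) < y a1 := v13
  have f14 : y (i + 2) < z i := v21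
  have f24 : z (i + 2) < x (i + 3) := v32
  have m54 : x (i + 3) ≤ x (c1 - 1) := hx.le (by omega) (by omega)
  have m82 : y s ≤ y (i + 2) := hy.le (by omega) (by omega)
  have m94 : z i < z (i + 2) := hz _ _ (by omega) (by omega)
  have d100 : b1 - 1 < i + 3 := hx.lt_of (a := (b1 - 1)) (b := (i + 3)) (by omega) (by omega)
  have d101 : i + 2 < a1 := hy.lt_of (a := (i + 2)) (b := a1) (by omega) (by omega)
  omega

theorem g_DE {n a1 b1 b2 b3 c1 c2 c3 i s : ℕ} {x y z : ℕ → ℕ}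
    (hx : Inc n x)
    (hy : Inc n y)
    (hz : Inc n z)
    (e1 : ∀ j < s, x j = y j)
    (h1 : Q4 x y s a1 b1 c1 n)
    (hs1 : i + 1 ≤ s)
    (hs2 : s ≤ i + 4)
    (h2 : TP n i y z b2 c2 .D)
    (h3 : TP n i x z b3 c3 .E) : False := by
  obtain ⟨p11, p12, p13, p14, v11, v12, v13, v14, v15⟩ := h1
  obtain ⟨p21, p22, p23, p24, v21, v22, v23, v24, v25⟩ := h2
  obtain ⟨a3, q31, q32, p31, p32, p33, p34, v31, v32, v33, v34, v35⟩ := h3
  have f9 : x (n - 1) < y b1 := v15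
  have f18 : y (n - 1) < z (i + 4) := v25
  have f26 : z (b3 - 1) < x c3 := v34
  have m38 : x c3 ≤ x (n - 1) := hx.le (by omega) (by omega)
  have m69 : y b1 < y (n - 1) := hy _ _ (by omega) (by omega)
  have m85 : z (i + 4) ≤ z (b3 - 1) := hz.le (by omega) (by omega)
  omega

theorem g_EA {n a1 b1 b2 b3 c1 c2 c3 i s : ℕ} {x y z : ℕ → ℕ}
    (hx : Inc n x)
    (hy : Inc n y)
    (hz : Inc n z)
    (e1 : ∀ j < s, x j = y j)
    (h1 : Q4 x y s a1 b1 c1 n)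
    (hs1 : i + 1 ≤ s)
    (hs2 : s ≤ i + 4)
    (h2 : TP n i y z b2 c2 .E)
    (h3 : TP n i x z b3 c3 .A) : False := by
  obtain ⟨p11, p12, p13, p14, v11, v12, v13, v14, v15⟩ := h1
  obtain ⟨a2, q21, q22, p21, p22, p23, p24, v21, v22, v23, v24, v25⟩ := h2
  obtain ⟨p31, p32, p33, p34, v31, v32, v33, v34, v35⟩ := h3
  have f5 : x (b1 - 1) < y s := v11
  have f9 : x (n - 1) < y b1 := v15
  have f14 : y (b2 - 1) < z i := v21
  have f18 : y (n - 1) < z b2 := v25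
  have f24 : z i < x b3 := v32
  have f26 : z (c3 - 1) < x c3 := v34
  have m32 : x b3 < x (n - 1) := hx _ _ (by omega) (by omega)
  have m37 : x c3 ≤ x (n - 1) := hx.le (by omega) (by omega)
  have m60 : y b1 < y (n - 1) := hy _ _ (by omega) (by omega)
  have m74 : y s ≤ y (b2 - 1) := hy.le (by omega) (by omega)
  have d101 : b1 - 1 < b3 := hx.lt_of (a := (b1 - 1)) (b := b3) (by omega) (by omega)
  have d102 : b2 - 1 < b1 := hy.lt_of (a := (b2 - 1)) (b := b1) (by omega) (by omega)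
  have d103 : c3 - 1 < b2 := hz.lt_of (a := (c3 - 1)) (b := b2) (by omega) (by omega)
  omega

theorem g_EB {n a1 b1 b2 b3 c1 c2 c3 i s : ℕ} {x y z : ℕ → ℕ}
    (hx : Inc n x)
    (hy : Inc n y)
    (hz : Inc n z)
    (e1 : ∀ j < s, x j = y j)
    (h1 : Q4 x y s a1 b1 c1 n)
    (hs1 : i + 1 ≤ s)
    (hs2 : s ≤ i + 4)
    (h2 : TP n i y z b2 c2 .E)
    (h3 : TP n i x z b3 c3 .B) : False := by
  obtain ⟨p11, p12, p13, p14, v11, v12, v13, v14, v15⟩ := h1
  obtain ⟨a2, q21, q22, p21, p22, p23, p24, v21, v22, v23, v24, v25⟩ := h2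
  obtain ⟨⟨p31, p32, p33, p34, v31, v32, v33, v34, v35⟩, q31, q32⟩ := h3
  have f5 : x (b1 - 1) < y s := v11
  have f9 : x (n - 1) < y b1 := v15
  have f14 : y (b2 - 1) < z i := v21
  have f24 : z (i + 1) < x b3 := v32
  have f26 : z (c3 - 1) < x c3 := v34
  have m41 : x c3 ≤ x (n - 1) := hx.le (by omega) (by omega)
  have m81 : y s ≤ y (b2 - 1) := hy.le (by omega) (by omega)
  have m92 : z i < z (c3 - 1) := hz _ _ (by omega) (by omega)
  have m95 : z i < z (i + 1) := hz _ _ (by omega) (by omega)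
  have d115 : b1 - 1 < b3 := hx.lt_of (a := (b1 - 1)) (b := b3) (by omega) (by omega)
  have d116 : b2 - 1 < b1 := hy.lt_of (a := (b2 - 1)) (b := b1) (by omega) (by omega)
  omega

theorem g_EC {n a1 b1 b2 b3 c1 c2 c3 i s : ℕ} {x y z : ℕ → ℕ}
    (hx : Inc n x)
    (hy : Inc n y)
    (hz : Inc n z)
    (e1 : ∀ j < s, x j = y j)
    (h1 : Q4 x y s a1 b1 c1 n)
    (hs1 : i + 1 ≤ s)
    (hs2 : s ≤ i + 4)
    (h2 : TP n i y z b2 c2 .E)
    (h3 : TP n i x z b3 c3 .C) : False := by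
  obtain ⟨p11, p12, p13, p14, v11, v12, v13, v14, v15⟩ := h1
  obtain ⟨a2, q21, q22, p21, p22, p23, p24, v21, v22, v23, v24, v25⟩ := h2
  obtain ⟨p31, p32, p33, p34, v31, v32, v33, v34, v35⟩ := h3
  have f5 : x (b1 - 1) < y s := v11
  have f14 : y (b2 - 1) < z i := v21
  have f24 : z (i + 1) < x (i + 2) := v32
  have m43 : x (i + 2) ≤ x (b1 - 1) := hx.le (by omega) (by omega)
  have m86 : y s ≤ y (b2 - 1) := hy.le (by omega) (by omega)
  have m98 : z i < z (i + 1) := hz _ _ (by omega) (by omega)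
  omega

theorem g_ED {n a1 b1 b2 b3 c1 c2 c3 i s : ℕ} {x y z : ℕ → ℕ}
    (hx : Inc n x)
    (hy : Inc n y)
    (hz : Inc n z)
    (e1 : ∀ j < s, x j = y j)
    (h1 : Q4 x y s a1 b1 c1 n)
    (hs1 : i + 1 ≤ s)
    (hs2 : s ≤ i + 4)
    (h2 : TP n i y z b2 c2 .E)
    (h3 : TP n i x z b3 c3 .D) : False := by
  obtain ⟨p11, p12, p13, p14, v11, v12, v13, v14, v15⟩ := h1
  obtain ⟨a2, q21, q22, p21, p22, p23, p24, v21, v22, v23, v24, v25⟩ := h2
  obtain ⟨p31, p32, p33, p34, v31, v32, v33, v34, v35⟩ := h3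
  have f5 : x (b1 - 1) < y s := v11
  have f7 : x (c1 - 1) < y a1 := v13
  have f14 : y (b2 - 1) < z i := v21
  have f24 : z (i + 2) < x (i + 3) := v32
  have m54 : x (i + 3) ≤ x (c1 - 1) := hx.le (by omega) (by omega)
  have m82 : y s ≤ y (b2 - 1) := hy.le (by omega) (by omega)
  have m98 : z i < z (i + 2) := hz _ _ (by omega) (by omega)
  have d113 : b1 - 1 < i + 3 := hx.lt_of (a := (b1 - 1)) (b := (i + 3)) (by omega) (by omega)
  have d114 : b2 - 1 < a1 := hy.lt_of (a := (b2 - 1)) (b := a1) (by omega) (by omega)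
  omega

theorem g_EE {n a1 b1 b2 b3 c1 c2 c3 i s : ℕ} {x y z : ℕ → ℕ}
    (hx : Inc n x)
    (hy : Inc n y)
    (hz : Inc n z)
    (e1 : ∀ j < s, x j = y j)
    (h1 : Q4 x y s a1 b1 c1 n)
    (hs1 : i + 1 ≤ s)
    (hs2 : s ≤ i + 4)
    (h2 : TP n i y z b2 c2 .E)
    (h3 : TP n i x z b3 c3 .E) : False := by
  obtain ⟨p11, p12, p13, p14, v11, v12, v13, v14, v15⟩ := h1
  obtain ⟨a2, q21, q22, p21, p22, p23, p24, v21, v22, v23, v24, v25⟩ := h2
  obtain ⟨a3, q31, q32, p31, p32, p33, p34, v31, v32, v33, v34, v35⟩ := h3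
  have f5 : x (b1 - 1) < y s := v11
  have f9 : x (n - 1) < y b1 := v15
  have f14 : y (b2 - 1) < z i := v21
  have f16 : y (c2 - 1) < z a2 := v23
  have f18 : y (n - 1) < z b2 := v25
  have f24 : z (a3 - 1) < x b3 := v32
  have f26 : z (b3 - 1) < x c3 := v34
  have m34 : x b3 < x (n - 1) := hx _ _ (by omega) (by omega)
  have m39 : x c3 ≤ x (n - 1) := hx.le (by omega) (by omega)
  have m62 : y b1 < y (n - 1) := hy _ _ (by omega) (by omega)
  have m76 : y s ≤ y (b2 - 1) := hy.le (by omega) (by omega)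
  have m93 : z i < z (a3 - 1) := hz _ _ (by omega) (by omega)
  have d103 : b1 - 1 < b3 := hx.lt_of (a := (b1 - 1)) (b := b3) (by omega) (by omega)
  have d104 : b2 - 1 < b1 := hy.lt_of (a := (b2 - 1)) (b := b1) (by omega) (by omega)
  have d105 : b3 - 1 < b2 := hz.lt_of (a := (b3 - 1)) (b := b2) (by omega) (by omega)
  have m131 : y b1 ≤ y (c2 - 1) := hy.le (by omega) (by omega)
  have m141 : z a2 ≤ z (b3 - 1) := hz.le (by omega) (by omega)
  omega

theorem h_AA_s {n a2 b1 b2 b3 c1 c2 c3 i s : ℕ} {x y z : ℕ → ℕ}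
    (hx : Inc n x)
    (hy : Inc n y)
    (hz : Inc n z)
    (h1 : TP n i x y b1 c1 .A)
    (e1 : ∀ j < s, y j = z j)
    (h2 : Q4 y z s a2 b2 c2 n)
    (hs1 : i + 1 ≤ s)
    (hs2 : s ≤ i + 4)
    (h3 : TP n i x z b3 c3 .A)
    (g1 : s ≤ i + 2) : False := by
  obtain ⟨p11, p12, p13, p14, v11, v12, v13, v14, v15⟩ := h1
  obtain ⟨p21, p22, p23, p24, v21, v22, v23, v24, v25⟩ := h2
  obtain ⟨p31, p32, p33, p34, v31, v32, v33, v34, v35⟩ := h3
  have f7 : x (c1 - 1) < y (i + 1) := v13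
  have f9 : x (n - 1) < y c1 := v15
  have f14 : y (b2 - 1) < z s := v21
  have f16 : y (c2 - 1) < z a2 := v23
  have f18 : y (n - 1) < z b2 := v25
  have f26 : z (c3 - 1) < x c3 := v34
  have m39 : x c3 ≤ x (n - 1) := hx.le (by omega) (by omega)
  have m71 : y (i + 1) < y (b2 - 1) := hy _ _ (by omega) (by omega)
  have m79 : y c1 ≤ y (n - 1) := hy.le (by omega) (by omega)
  have m92 : z s ≤ z (c3 - 1) := hz.le (by omega) (by omega)
  have d108 : c1 - 1 < c3 := hx.lt_of (a := (c1 - 1)) (b := c3) (by omega) (by omega)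
  have d112 : b2 - 1 < c1 := hy.lt_of (a := (b2 - 1)) (b := c1) (by omega) (by omega)
  have d113 : c3 - 1 < b2 := hz.lt_of (a := (c3 - 1)) (b := b2) (by omega) (by omega)
  have m121 : x c3 < x (n - 1) := hx _ _ (by omega) (by omega)
  have m146 : y c1 ≤ y (c2 - 1) := hy.le (by omega) (by omega)
  have m149 : z a2 ≤ z (c3 - 1) := hz.le (by omega) (by omega)
  omega

theorem h_AA_c1 {n a2 b1 b2 b3 c1 c2 c3 i s : ℕ} {x y z : ℕ → ℕ}
    (hx : Inc n x)
    (hy : Inc n y)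
    (hz : Inc n z)
    (h1 : TP n i x y b1 c1 .A)
    (e1 : ∀ j < s, y j = z j)
    (h2 : Q4 y z s a2 b2 c2 n)
    (hs1 : i + 1 ≤ s)
    (hs2 : s ≤ i + 4)
    (h3 : TP n i x z b3 c3 .A)
    (g1 : s + 1 ≤ c1) : False := by
  obtain ⟨p11, p12, p13, p14, v11, v12, v13, v14, v15⟩ := h1
  obtain ⟨p21, p22, p23, p24, v21, v22, v23, v24, v25⟩ := h2
  obtain ⟨p31, p32, p33, p34, v31, v32, v33, v34, v35⟩ := h3
  have f7 : x (c1 - 1) < y (i + 1) := v13
  have f9 : x (n - 1) < y c1 := v15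
  have f14 : y (b2 - 1) < z s := v21
  have f16 : y (c2 - 1) < z a2 := v23
  have f18 : y (n - 1) < z b2 := v25
  have f26 : z (c3 - 1) < x c3 := v34
  rcases Nat.lt_or_ge (c1 - 1) c3 with hs | hs
  · have m39 : x c3 ≤ x (n - 1) := hx.le (by omega) (by omega)
    have m79 : y c1 ≤ y (n - 1) := hy.le (by omega) (by omega)
    have d109 : c3 - 1 < b2 := hz.lt_of (a := (c3 - 1)) (b := b2) (by omega) (by omega)
    have m113 : x c3 < x (n - 1) := hx _ _ (by omega) (by omega)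
    have m140 : y c1 ≤ y (c2 - 1) := hy.le (by omega) (by omega)
    have m141 : z s ≤ z (c3 - 1) := hz.le (by omega) (by omega)
    have d143 : b2 - 1 < c1 := hy.lt_of (a := (b2 - 1)) (b := c1) (by omega) (by omega)
    have d144 : c3 - 1 < a2 := hz.lt_of (a := (c3 - 1)) (b := a2) (by omega) (by omega)
    omega
  · have m71 : y (i + 1) < y (b2 - 1) := hy _ _ (by omega) (by omega)
    have m134 : x c3 ≤ x (c1 - 1) := hx.le (by omega) (by omega)
    have d135 : c3 - 1 < s := hz.lt_of (a := (c3 - 1)) (b := s) (by omega) (by omega)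
    have m137 : y (c3 - 1) = z (c3 - 1) := e1 _ (by omega)
    have m146 : y (i + 1) < y (c3 - 1) := hy _ _ (by omega) (by omega)
    omega

theorem h_AA_c3 {n a2 b1 b2 b3 c1 c2 c3 i s : ℕ} {x y z : ℕ → ℕ}
    (hx : Inc n x)
    (hy : Inc n y)
    (hz : Inc n z)
    (h1 : TP n i x y b1 c1 .A)
    (e1 : ∀ j < s, y j = z j)
    (h2 : Q4 y z s a2 b2 c2 n)
    (hs1 : i + 1 ≤ s)
    (hs2 : s ≤ i + 4)
    (h3 : TP n i x z b3 c3 .A)
    (g1 : s + 1 ≤ c3) : False := by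
  obtain ⟨p11, p12, p13, p14, v11, v12, v13, v14, v15⟩ := h1
  obtain ⟨p21, p22, p23, p24, v21, v22, v23, v24, v25⟩ := h2
  obtain ⟨p31, p32, p33, p34, v31, v32, v33, v34, v35⟩ := h3
  have f7 : x (c1 - 1) < y (i + 1) := v13
  have f9 : x (n - 1) < y c1 := v15
  have f14 : y (b2 - 1) < z s := v21
  have f16 : y (c2 - 1) < z a2 := v23
  have f18 : y (n - 1) < z b2 := v25
  have f26 : z (c3 - 1) < x c3 := v34
  have m39 : x c3 ≤ x (n - 1) := hx.le (by omega) (by omega)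
  have m71 : y (i + 1) < y (b2 - 1) := hy _ _ (by omega) (by omega)
  have m79 : y c1 ≤ y (n - 1) := hy.le (by omega) (by omega)
  have m92 : z s ≤ z (c3 - 1) := hz.le (by omega) (by omega)
  have d108 : c1 - 1 < c3 := hx.lt_of (a := (c1 - 1)) (b := c3) (by omega) (by omega)
  have d112 : b2 - 1 < c1 := hy.lt_of (a := (b2 - 1)) (b := c1) (by omega) (by omega)
  have d113 : c3 - 1 < b2 := hz.lt_of (a := (c3 - 1)) (b := b2) (by omega) (by omega)
  have m121 : x c3 < x (n - 1) := hx _ _ (by omega) (by omega)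
  have m146 : y c1 ≤ y (c2 - 1) := hy.le (by omega) (by omega)
  have m149 : z a2 ≤ z (c3 - 1) := hz.le (by omega) (by omega)
  omega

theorem h_AB {n a2 b1 b2 b3 c1 c2 c3 i s : ℕ} {x y z : ℕ → ℕ}
    (hx : Inc n x)
    (hy : Inc n y)
    (hz : Inc n z)
    (h1 : TP n i x y b1 c1 .A)
    (e1 : ∀ j < s, y j = z j)
    (h2 : Q4 y z s a2 b2 c2 n)
    (hs1 : i + 1 ≤ s)
    (hs2 : s ≤ i + 4)
    (h3 : TP n i x z b3 c3 .B) : False := by
  obtain ⟨p11, p12, p13, p14, v11, v12, v13, v14, v15⟩ := h1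
  obtain ⟨p21, p22, p23, p24, v21, v22, v23, v24, v25⟩ := h2
  obtain ⟨⟨p31, p32, p33, p34, v31, v32, v33, v34, v35⟩, q31, q32⟩ := h3
  have f7 : x (c1 - 1) < y (i + 1) := v13
  have f9 : x (n - 1) < y c1 := v15
  have f14 : y (b2 - 1) < z s := v21
  have f16 : y (c2 - 1) < z a2 := v23
  have f18 : y (n - 1) < z b2 := v25
  have f26 : z (c3 - 1) < x c3 := v34
  have m41 : x c3 ≤ x (n - 1) := hx.le (by omega) (by omega)
  have m74 : y (i + 1) < y (b2 - 1) := hy _ _ (by omega) (by omega)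
  have m82 : y c1 ≤ y (n - 1) := hy.le (by omega) (by omega)
  have m96 : z s ≤ z (c3 - 1) := hz.le (by omega) (by omega)
  have d118 : c1 - 1 < c3 := hx.lt_of (a := (c1 - 1)) (b := c3) (by omega) (by omega)
  have d122 : b2 - 1 < c1 := hy.lt_of (a := (b2 - 1)) (b := c1) (by omega) (by omega)
  have d123 : c3 - 1 < b2 := hz.lt_of (a := (c3 - 1)) (b := b2) (by omega) (by omega)
  have m131 : x c3 < x (n - 1) := hx _ _ (by omega) (by omega)
  have m156 : y c1 ≤ y (c2 - 1) := hy.le (by omega) (by omega)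
  have m159 : z a2 ≤ z (c3 - 1) := hz.le (by omega) (by omega)
  omega

theorem h_AC {n a2 b1 b2 b3 c1 c2 c3 i s : ℕ} {x y z : ℕ → ℕ}
    (hx : Inc n x)
    (hy : Inc n y)
    (hz : Inc n z)
    (h1 : TP n i x y b1 c1 .A)
    (e1 : ∀ j < s, y j = z j)
    (h2 : Q4 y z s a2 b2 c2 n)
    (hs1 : i + 1 ≤ s)
    (hs2 : s ≤ i + 4)
    (h3 : TP n i x z b3 c3 .C) : False := by
  obtain ⟨p11, p12, p13, p14, v11, v12, v13, v14, v15⟩ := h1
  obtain ⟨p21, p22, p23, p24, v21, v22, v23, v24, v25⟩ := h2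
  obtain ⟨p31, p32, p33, p34, v31, v32, v33, v34, v35⟩ := h3
  have f7 : x (c1 - 1) < y (i + 1) := v13
  have f14 : y (b2 - 1) < z s := v21
  have f24 : z (i + 1) < x (i + 2) := v32
  have m43 : x (i + 2) ≤ x (c1 - 1) := hx.le (by omega) (by omega)
  have m78 : y (i + 1) < y (b2 - 1) := hy _ _ (by omega) (by omega)
  have d118 : i + 1 < s := hz.lt_of (a := (i + 1)) (b := s) (by omega) (by omega)
  have m119 : y (i + 1) = z (i + 1) := e1 _ (by omega)
  omega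

theorem h_AD {n a2 b1 b2 b3 c1 c2 c3 i s : ℕ} {x y z : ℕ → ℕ}
    (hx : Inc n x)
    (hy : Inc n y)
    (hz : Inc n z)
    (h1 : TP n i x y b1 c1 .A)
    (e1 : ∀ j < s, y j = z j)
    (h2 : Q4 y z s a2 b2 c2 n)
    (hs1 : i + 1 ≤ s)
    (hs2 : s ≤ i + 4)
    (h3 : TP n i x z b3 c3 .D) : False := by
  obtain ⟨p11, p12, p13, p14, v11, v12, v13, v14, v15⟩ := h1
  obtain ⟨p21, p22, p23, p24, v21, v22, v23, v24, v25⟩ := h2
  obtain ⟨p31, p32, p33, p34, v31, v32, v33, v34, v35⟩ := h3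
  have f6 : y i < x b1 := v12
  have f7 : x (c1 - 1) < y (i + 1) := v13
  have f14 : y (b2 - 1) < z s := v21
  have f23 : x (i + 2) < z i := v31
  have f24 : z (i + 2) < x (i + 3) := v32
  have m31 : y i = z i := e1 _ (by omega)
  have m54 : x b1 ≤ x (c1 - 1) := hx.le (by omega) (by omega)
  have m75 : y (i + 1) < y (b2 - 1) := hy _ _ (by omega) (by omega)
  have d110 : i + 2 < c1 - 1 := hx.lt_of (a := (i + 2)) (b := (c1 - 1)) (by omega) (by omega)
  have m122 : x (i + 3) ≤ x (c1 - 1) := hx.le (by omega) (by omega)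
  have d133 : i + 2 < s := hz.lt_of (a := (i + 2)) (b := s) (by omega) (by omega)
  have m135 : y (i + 2) = z (i + 2) := e1 _ (by omega)
  have m144 : y (i + 1) < y (i + 2) := hy _ _ (by omega) (by omega)
  omega

theorem h_AE {n a2 b1 b2 b3 c1 c2 c3 i s : ℕ} {x y z : ℕ → ℕ}
    (hx : Inc n x)
    (hy : Inc n y)
    (hz : Inc n z)
    (h1 : TP n i x y b1 c1 .A)
    (e1 : ∀ j < s, y j = z j)
    (h2 : Q4 y z s a2 b2 c2 n)
    (hs1 : i + 1 ≤ s)
    (hs2 : s ≤ i + 4)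
    (h3 : TP n i x z b3 c3 .E) : False := by
  obtain ⟨p11, p12, p13, p14, v11, v12, v13, v14, v15⟩ := h1
  obtain ⟨p21, p22, p23, p24, v21, v22, v23, v24, v25⟩ := h2
  obtain ⟨a3, q31, q32, p31, p32, p33, p34, v31, v32, v33, v34, v35⟩ := h3
  have f6 : y i < x b1 := v12
  have f7 : x (c1 - 1) < y (i + 1) := v13
  have f14 : y (b2 - 1) < z s := v21
  have f23 : x (b3 - 1) < z i := v31
  have f24 : z (a3 - 1) < x b3 := v32
  have m32 : y i = z i := e1 _ (by omega)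
  have m51 : x b1 ≤ x (c1 - 1) := hx.le (by omega) (by omega)
  have m72 : y (i + 1) < y (b2 - 1) := hy _ _ (by omega) (by omega)
  have d110 : b3 - 1 < c1 - 1 := hx.lt_of (a := (b3 - 1)) (b := (c1 - 1)) (by omega) (by omega)
  have m114 : x b3 ≤ x (c1 - 1) := hx.le (by omega) (by omega)
  have d142 : a3 - 1 < s := hz.lt_of (a := (a3 - 1)) (b := s) (by omega) (by omega)
  have m144 : y (a3 - 1) = z (a3 - 1) := e1 _ (by omega)
  have m153 : y (i + 1) ≤ y (a3 - 1) := hy.le (by omega) (by omega)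
  omega

theorem h_BA {n a2 b1 b2 b3 c1 c2 c3 i s : ℕ} {x y z : ℕ → ℕ}
    (hx : Inc n x)
    (hy : Inc n y)
    (hz : Inc n z)
    (h1 : TP n i x y b1 c1 .B)
    (e1 : ∀ j < s, y j = z j)
    (h2 : Q4 y z s a2 b2 c2 n)
    (hs1 : i + 1 ≤ s)
    (hs2 : s ≤ i + 4)
    (h3 : TP n i x z b3 c3 .A) : False := by
  obtain ⟨⟨p11, p12, p13, p14, v11, v12, v13, v14, v15⟩, q11, q12⟩ := h1
  obtain ⟨p21, p22, p23, p24, v21, v22, v23, v24, v25⟩ := h2
  obtain ⟨p31, p32, p33, p34, v31, v32, v33, v34, v35⟩ := h3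
  have f5 : x (b1 - 1) < y i := v11
  have f6 : y (i + 1) < x b1 := v12
  have f7 : x (c1 - 1) < y (i + 2) := v13
  have f9 : x (n - 1) < y c1 := v15
  have f14 : y (b2 - 1) < z s := v21
  have f16 : y (c2 - 1) < z a2 := v23
  have f18 : y (n - 1) < z b2 := v25
  have f24 : z i < x b3 := v32
  have f25 : x (c3 - 1) < z (i + 1) := v33
  have f26 : z (c3 - 1) < x c3 := v34
  rcases Nat.lt_or_ge (c1 - 1) c3 with hs | hs
  · have m41 : x c3 ≤ x (n - 1) := hx.le (by omega) (by omega)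
    have m91 : y c1 ≤ y (n - 1) := hy.le (by omega) (by omega)
    have d121 : c3 - 1 < b2 := hz.lt_of (a := (c3 - 1)) (b := b2) (by omega) (by omega)
    have m125 : x c3 < x (n - 1) := hx _ _ (by omega) (by omega)
    have m154 : y c1 ≤ y (c2 - 1) := hy.le (by omega) (by omega)
    have m155 : z s ≤ z (c3 - 1) := hz.le (by omega) (by omega)
    have d157 : b2 - 1 < c1 := hy.lt_of (a := (b2 - 1)) (b := c1) (by omega) (by omega)
    have d158 : c3 - 1 < a2 := hz.lt_of (a := (c3 - 1)) (b := a2) (by omega) (by omega)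
    omega
  · have m33 : y i = z i := e1 _ (by omega)
    have m41 : x c3 ≤ x (n - 1) := hx.le (by omega) (by omega)
    have m91 : y c1 ≤ y (n - 1) := hy.le (by omega) (by omega)
    have d118 : b1 - 1 < b3 := hx.lt_of (a := (b1 - 1)) (b := b3) (by omega) (by omega)
    have d121 : c3 - 1 < b2 := hz.lt_of (a := (c3 - 1)) (b := b2) (by omega) (by omega)
    have m135 : x b1 ≤ x (c3 - 1) := hx.le (by omega) (by omega)
    have m137 : y (i + 2) < y (b2 - 1) := hy _ _ (by omega) (by omega)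
    have m148 : x c3 ≤ x (c1 - 1) := hx.le (by omega) (by omega)
    have d149 : c3 - 1 < s := hz.lt_of (a := (c3 - 1)) (b := s) (by omega) (by omega)
    have m151 : y (i + 1) = z (i + 1) := e1 _ (by omega)
    omega

theorem h_BB {n a2 b1 b2 b3 c1 c2 c3 i s : ℕ} {x y z : ℕ → ℕ}
    (hx : Inc n x)
    (hy : Inc n y)
    (hz : Inc n z)
    (h1 : TP n i x y b1 c1 .B)
    (e1 : ∀ j < s, y j = z j)
    (h2 : Q4 y z s a2 b2 c2 n)
    (hs1 : i + 1 ≤ s)
    (hs2 : s ≤ i + 4)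
    (h3 : TP n i x z b3 c3 .B) : False := by
  obtain ⟨⟨p11, p12, p13, p14, v11, v12, v13, v14, v15⟩, q11, q12⟩ := h1
  obtain ⟨p21, p22, p23, p24, v21, v22, v23, v24, v25⟩ := h2
  obtain ⟨⟨p31, p32, p33, p34, v31, v32, v33, v34, v35⟩, q31, q32⟩ := h3
  have f7 : x (c1 - 1) < y (i + 2) := v13
  have f9 : x (n - 1) < y c1 := v15
  have f14 : y (b2 - 1) < z s := v21
  have f16 : y (c2 - 1) < z a2 := v23
  have f18 : y (n - 1) < z b2 := v25
  have f26 : z (c3 - 1) < x c3 := v34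
  have m46 : x c3 ≤ x (n - 1) := hx.le (by omega) (by omega)
  have m71 : y (i + 2) ≤ y (b2 - 1) := hy.le (by omega) (by omega)
  have m103 : y c1 ≤ y (n - 1) := hy.le (by omega) (by omega)
  have m117 : z s ≤ z (c3 - 1) := hz.le (by omega) (by omega)
  have d139 : c1 - 1 < c3 := hx.lt_of (a := (c1 - 1)) (b := c3) (by omega) (by omega)
  have d142 : b2 - 1 < c1 := hy.lt_of (a := (b2 - 1)) (b := c1) (by omega) (by omega)
  have d143 : c3 - 1 < b2 := hz.lt_of (a := (c3 - 1)) (b := b2) (by omega) (by omega)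
  have m151 : x c3 < x (n - 1) := hx _ _ (by omega) (by omega)
  have m171 : y c1 ≤ y (c2 - 1) := hy.le (by omega) (by omega)
  have m174 : z a2 ≤ z (c3 - 1) := hz.le (by omega) (by omega)
  omega

theorem h_BC {n a2 b1 b2 b3 c1 c2 c3 i s : ℕ} {x y z : ℕ → ℕ}
    (hx : Inc n x)
    (hy : Inc n y)
    (hz : Inc n z)
    (h1 : TP n i x y b1 c1 .B)
    (e1 : ∀ j < s, y j = z j)
    (h2 : Q4 y z s a2 b2 c2 n)
    (hs1 : i + 1 ≤ s)
    (hs2 : s ≤ i + 4)
    (h3 : TP n i x z b3 c3 .C) : False := by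
  obtain ⟨⟨p11, p12, p13, p14, v11, v12, v13, v14, v15⟩, q11, q12⟩ := h1
  obtain ⟨p21, p22, p23, p24, v21, v22, v23, v24, v25⟩ := h2
  obtain ⟨p31, p32, p33, p34, v31, v32, v33, v34, v35⟩ := h3
  have f5 : x (b1 - 1) < y i := v11
  have f24 : z (i + 1) < x (i + 2) := v32
  have m33 : y i = z i := e1 _ (by omega)
  have m48 : x (i + 2) ≤ x (b1 - 1) := hx.le (by omega) (by omega)
  have m113 : z i < z (i + 1) := hz _ _ (by omega) (by omega)
  omega

theorem h_BD {n a2 b1 b2 b3 c1 c2 c3 i s : ℕ} {x y z : ℕ → ℕ}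
    (hx : Inc n x)
    (hy : Inc n y)
    (hz : Inc n z)
    (h1 : TP n i x y b1 c1 .B)
    (e1 : ∀ j < s, y j = z j)
    (h2 : Q4 y z s a2 b2 c2 n)
    (hs1 : i + 1 ≤ s)
    (hs2 : s ≤ i + 4)
    (h3 : TP n i x z b3 c3 .D) : False := by
  obtain ⟨⟨p11, p12, p13, p14, v11, v12, v13, v14, v15⟩, q11, q12⟩ := h1
  obtain ⟨p21, p22, p23, p24, v21, v22, v23, v24, v25⟩ := h2
  obtain ⟨p31, p32, p33, p34, v31, v32, v33, v34, v35⟩ := h3
  have f7 : x (c1 - 1) < y (i + 2) := v13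
  have f14 : y (b2 - 1) < z s := v21
  have f24 : z (i + 2) < x (i + 3) := v32
  have m58 : x (i + 3) < x (c1 - 1) := hx _ _ (by omega) (by omega)
  have m71 : y (i + 2) ≤ y (b2 - 1) := hy.le (by omega) (by omega)
  have d132 : i + 2 < s := hz.lt_of (a := (i + 2)) (b := s) (by omega) (by omega)
  have m133 : y (i + 2) = z (i + 2) := e1 _ (by omega)
  omega

theorem h_BE {n a2 b1 b2 b3 c1 c2 c3 i s : ℕ} {x y z : ℕ → ℕ}
    (hx : Inc n x)
    (hy : Inc n y)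
    (hz : Inc n z)
    (h1 : TP n i x y b1 c1 .B)
    (e1 : ∀ j < s, y j = z j)
    (h2 : Q4 y z s a2 b2 c2 n)
    (hs1 : i + 1 ≤ s)
    (hs2 : s ≤ i + 4)
    (h3 : TP n i x z b3 c3 .E) : False := by
  obtain ⟨⟨p11, p12, p13, p14, v11, v12, v13, v14, v15⟩, q11, q12⟩ := h1
  obtain ⟨p21, p22, p23, p24, v21, v22, v23, v24, v25⟩ := h2
  obtain ⟨a3, q31, q32, p31, p32, p33, p34, v31, v32, v33, v34, v35⟩ := h3
  have f6 : y (i + 1) < x b1 := v12
  have f23 : x (b3 - 1) < z i := v31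
  have m35 : y i = z i := e1 _ (by omega)
  have m63 : x b1 ≤ x (b3 - 1) := hx.le (by omega) (by omega)
  have m86 : y i < y (i + 1) := hy _ _ (by omega) (by omega)
  omega

theorem h_CA {n a2 b1 b2 b3 c1 c2 c3 i s : ℕ} {x y z : ℕ → ℕ}
    (hx : Inc n x)
    (hy : Inc n y)
    (hz : Inc n z)
    (h1 : TP n i x y b1 c1 .C)
    (e1 : ∀ j < s, y j = z j)
    (h2 : Q4 y z s a2 b2 c2 n)
    (hs1 : i + 1 ≤ s)
    (hs2 : s ≤ i + 4)
    (h3 : TP n i x z b3 c3 .A) : False := by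
  obtain ⟨p11, p12, p13, p14, v11, v12, v13, v14, v15⟩ := h1
  obtain ⟨p21, p22, p23, p24, v21, v22, v23, v24, v25⟩ := h2
  obtain ⟨p31, p32, p33, p34, v31, v32, v33, v34, v35⟩ := h3
  have f6 : y (i + 1) < x (i + 2) := v12
  have f9 : x (n - 1) < y (i + 3) := v15
  have f14 : y (b2 - 1) < z s := v21
  have f16 : y (c2 - 1) < z a2 := v23
  have f25 : x (c3 - 1) < z (i + 1) := v33
  have f26 : z (c3 - 1) < x c3 := v34
  have m34 : x c3 ≤ x (n - 1) := hx.le (by omega) (by omega)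
  have m48 : x (i + 2) ≤ x (c3 - 1) := hx.le (by omega) (by omega)
  have m71 : y (i + 3) ≤ y (c2 - 1) := hy.le (by omega) (by omega)
  have d121 : c3 - 1 < a2 := hz.lt_of (a := (c3 - 1)) (b := a2) (by omega) (by omega)
  have m125 : x c3 < x (n - 1) := hx _ _ (by omega) (by omega)
  have m133 : y (i + 3) ≤ y (b2 - 1) := hy.le (by omega) (by omega)
  have d143 : c3 - 1 < s := hz.lt_of (a := (c3 - 1)) (b := s) (by omega) (by omega)
  have m145 : y (i + 1) = z (i + 1) := e1 _ (by omega)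
  omega

theorem h_CB {n a2 b1 b2 b3 c1 c2 c3 i s : ℕ} {x y z : ℕ → ℕ}
    (hx : Inc n x)
    (hy : Inc n y)
    (hz : Inc n z)
    (h1 : TP n i x y b1 c1 .C)
    (e1 : ∀ j < s, y j = z j)
    (h2 : Q4 y z s a2 b2 c2 n)
    (hs1 : i + 1 ≤ s)
    (hs2 : s ≤ i + 4)
    (h3 : TP n i x z b3 c3 .B) : False := by
  obtain ⟨p11, p12, p13, p14, v11, v12, v13, v14, v15⟩ := h1
  obtain ⟨p21, p22, p23, p24, v21, v22, v23, v24, v25⟩ := h2
  obtain ⟨⟨p31, p32, p33, p34, v31, v32, v33, v34, v35⟩, q31, q32⟩ := h3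
  have f6 : y (i + 1) < x (i + 2) := v12
  have f23 : x (b3 - 1) < z i := v31
  have m33 : y i = z i := e1 _ (by omega)
  have m51 : x (i + 2) ≤ x (b3 - 1) := hx.le (by omega) (by omega)
  have m93 : y i < y (i + 1) := hy _ _ (by omega) (by omega)
  omega

theorem h_CC_s {n a2 b1 b2 b3 c1 c2 c3 i s : ℕ} {x y z : ℕ → ℕ}
    (hx : Inc n x)
    (hy : Inc n y)
    (hz : Inc n z)
    (h1 : TP n i x y b1 c1 .C)
    (e1 : ∀ j < s, y j = z j)
    (h2 : Q4 y z s a2 b2 c2 n)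
    (hs1 : i + 1 ≤ s)
    (hs2 : s ≤ i + 4)
    (h3 : TP n i x z b3 c3 .C)
    (g1 : s ≤ i + 2) : False := by
  obtain ⟨p11, p12, p13, p14, v11, v12, v13, v14, v15⟩ := h1
  obtain ⟨p21, p22, p23, p24, v21, v22, v23, v24, v25⟩ := h2
  obtain ⟨p31, p32, p33, p34, v31, v32, v33, v34, v35⟩ := h3
  have f7 : x (i + 3) < y (i + 2) := v13
  have f9 : x (n - 1) < y (i + 3) := v15
  have f14 : y (b2 - 1) < z s := v21
  have f24 : z (i + 1) < x (i + 2) := v32
  have f26 : z (i + 2) < x (i + 4) := v34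
  have m37 : x (i + 2) < x (i + 3) := hx _ _ (by omega) (by omega)
  have m41 : x (i + 4) ≤ x (n - 1) := hx.le (by omega) (by omega)
  have m47 : y (i + 2) ≤ y (b2 - 1) := hy.le (by omega) (by omega)
  have m91 : z s ≤ z (i + 2) := hz.le (by omega) (by omega)
  have d109 : b2 - 1 < i + 3 := hy.lt_of (a := (b2 - 1)) (b := (i + 3)) (by omega) (by omega)
  have d110 : i + 1 < s := hz.lt_of (a := (i + 1)) (b := s) (by omega) (by omega)
  omega

theorem h_CD {n a2 b1 b2 b3 c1 c2 c3 i s : ℕ} {x y z : ℕ → ℕ}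
    (hx : Inc n x)
    (hy : Inc n y)
    (hz : Inc n z)
    (h1 : TP n i x y b1 c1 .C)
    (e1 : ∀ j < s, y j = z j)
    (h2 : Q4 y z s a2 b2 c2 n)
    (hs1 : i + 1 ≤ s)
    (hs2 : s ≤ i + 4)
    (h3 : TP n i x z b3 c3 .D) : False := by
  obtain ⟨p11, p12, p13, p14, v11, v12, v13, v14, v15⟩ := h1
  obtain ⟨p21, p22, p23, p24, v21, v22, v23, v24, v25⟩ := h2
  obtain ⟨p31, p32, p33, p34, v31, v32, v33, v34, v35⟩ := h3
  have f6 : y (i + 1) < x (i + 2) := v12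
  have f23 : x (i + 2) < z i := v31
  have m31 : y i = z i := e1 _ (by omega)
  have m76 : y i < y (i + 1) := hy _ _ (by omega) (by omega)
  omega

theorem h_CE {n a2 b1 b2 b3 c1 c2 c3 i s : ℕ} {x y z : ℕ → ℕ}
    (hx : Inc n x)
    (hy : Inc n y)
    (hz : Inc n z)
    (h1 : TP n i x y b1 c1 .C)
    (e1 : ∀ j < s, y j = z j)
    (h2 : Q4 y z s a2 b2 c2 n)
    (hs1 : i + 1 ≤ s)
    (hs2 : s ≤ i + 4)
    (h3 : TP n i x z b3 c3 .E) : False := by
  obtain ⟨p11, p12, p13, p14, v11, v12, v13, v14, v15⟩ := h1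
  obtain ⟨p21, p22, p23, p24, v21, v22, v23, v24, v25⟩ := h2
  obtain ⟨a3, q31, q32, p31, p32, p33, p34, v31, v32, v33, v34, v35⟩ := h3
  have f6 : y (i + 1) < x (i + 2) := v12
  have f23 : x (b3 - 1) < z i := v31
  have m32 : y i = z i := e1 _ (by omega)
  have m49 : x (i + 2) < x (b3 - 1) := hx _ _ (by omega) (by omega)
  have m92 : y i < y (i + 1) := hy _ _ (by omega) (by omega)
  omega

theorem h_DA {n a2 b1 b2 b3 c1 c2 c3 i s : ℕ} {x y z : ℕ → ℕ}
    (hx : Inc n x)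
    (hy : Inc n y)
    (hz : Inc n z)
    (h1 : TP n i x y b1 c1 .D)
    (e1 : ∀ j < s, y j = z j)
    (h2 : Q4 y z s a2 b2 c2 n)
    (hs1 : i + 1 ≤ s)
    (hs2 : s ≤ i + 4)
    (h3 : TP n i x z b3 c3 .A) : False := by
  obtain ⟨p11, p12, p13, p14, v11, v12, v13, v14, v15⟩ := h1
  obtain ⟨p21, p22, p23, p24, v21, v22, v23, v24, v25⟩ := h2
  obtain ⟨p31, p32, p33, p34, v31, v32, v33, v34, v35⟩ := h3
  have f5 : x (i + 2) < y i := v11
  have f6 : y (i + 2) < x (i + 3) := v12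
  have f9 : x (n - 1) < y (i + 4) := v15
  have f14 : y (b2 - 1) < z s := v21
  have f16 : y (c2 - 1) < z a2 := v23
  have f18 : y (n - 1) < z b2 := v25
  have f24 : z i < x b3 := v32
  have f25 : x (c3 - 1) < z (i + 1) := v33
  have f26 : z (c3 - 1) < x c3 := v34
  have m31 : y i = z i := e1 _ (by omega)
  have m35 : x c3 ≤ x (n - 1) := hx.le (by omega) (by omega)
  have m72 : y (i + 4) < y (n - 1) := hy _ _ (by omega) (by omega)
  have d114 : i + 2 < b3 := hx.lt_of (a := (i + 2)) (b := b3) (by omega) (by omega)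
  have d117 : c3 - 1 < b2 := hz.lt_of (a := (c3 - 1)) (b := b2) (by omega) (by omega)
  have m121 : x c3 < x (n - 1) := hx _ _ (by omega) (by omega)
  have m127 : x (i + 3) ≤ x (c3 - 1) := hx.le (by omega) (by omega)
  have m138 : y (i + 4) ≤ y (c2 - 1) := hy.le (by omega) (by omega)
  have d143 : c3 - 1 < a2 := hz.lt_of (a := (c3 - 1)) (b := a2) (by omega) (by omega)
  have m146 : y (i + 4) ≤ y (b2 - 1) := hy.le (by omega) (by omega)
  have d155 : c3 - 1 < s := hz.lt_of (a := (c3 - 1)) (b := s) (by omega) (by omega)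
  have m158 : y (i + 1) = z (i + 1) := e1 _ (by omega)
  have m179 : y (i + 1) < y (i + 2) := hy _ _ (by omega) (by omega)
  omega

theorem h_DB {n a2 b1 b2 b3 c1 c2 c3 i s : ℕ} {x y z : ℕ → ℕ}
    (hx : Inc n x)
    (hy : Inc n y)
    (hz : Inc n z)
    (h1 : TP n i x y b1 c1 .D)
    (e1 : ∀ j < s, y j = z j)
    (h2 : Q4 y z s a2 b2 c2 n)
    (hs1 : i + 1 ≤ s)
    (hs2 : s ≤ i + 4)
    (h3 : TP n i x z b3 c3 .B) : False := by
  obtain ⟨p11, p12, p13, p14, v11, v12, v13, v14, v15⟩ := h1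
  obtain ⟨p21, p22, p23, p24, v21, v22, v23, v24, v25⟩ := h2
  obtain ⟨⟨p31, p32, p33, p34, v31, v32, v33, v34, v35⟩, q31, q32⟩ := h3
  have f9 : x (n - 1) < y (i + 4) := v15
  have f14 : y (b2 - 1) < z s := v21
  have f18 : y (n - 1) < z b2 := v25
  have f26 : z (c3 - 1) < x c3 := v34
  have m40 : x c3 ≤ x (n - 1) := hx.le (by omega) (by omega)
  have m83 : y (i + 4) < y (n - 1) := hy _ _ (by omega) (by omega)
  have m112 : z s ≤ z (c3 - 1) := hz.le (by omega) (by omega)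
  have d135 : b2 - 1 < i + 4 := hy.lt_of (a := (b2 - 1)) (b := (i + 4)) (by omega) (by omega)
  have d136 : c3 - 1 < b2 := hz.lt_of (a := (c3 - 1)) (b := b2) (by omega) (by omega)
  omega

theorem h_DC {n a2 b1 b2 b3 c1 c2 c3 i s : ℕ} {x y z : ℕ → ℕ}
    (hx : Inc n x)
    (hy : Inc n y)
    (hz : Inc n z)
    (h1 : TP n i x y b1 c1 .D)
    (e1 : ∀ j < s, y j = z j)
    (h2 : Q4 y z s a2 b2 c2 n)
    (hs1 : i + 1 ≤ s)
    (hs2 : s ≤ i + 4)
    (h3 : TP n i x z b3 c3 .C) : False := by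
  obtain ⟨p11, p12, p13, p14, v11, v12, v13, v14, v15⟩ := h1
  obtain ⟨p21, p22, p23, p24, v21, v22, v23, v24, v25⟩ := h2
  obtain ⟨p31, p32, p33, p34, v31, v32, v33, v34, v35⟩ := h3
  have f5 : x (i + 2) < y i := v11
  have f24 : z (i + 1) < x (i + 2) := v32
  have m31 : y i = z i := e1 _ (by omega)
  have m91 : z i < z (i + 1) := hz _ _ (by omega) (by omega)
  omega

theorem h_DD_s {n a2 b1 b2 b3 c1 c2 c3 i s : ℕ} {x y z : ℕ → ℕ}
    (hx : Inc n x)
    (hy : Inc n y)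
    (hz : Inc n z)
    (h1 : TP n i x y b1 c1 .D)
    (e1 : ∀ j < s, y j = z j)
    (h2 : Q4 y z s a2 b2 c2 n)
    (hs1 : i + 1 ≤ s)
    (hs2 : s ≤ i + 4)
    (h3 : TP n i x z b3 c3 .D)
    (g1 : s ≤ i + 2) : False := by
  obtain ⟨p11, p12, p13, p14, v11, v12, v13, v14, v15⟩ := h1
  obtain ⟨p21, p22, p23, p24, v21, v22, v23, v24, v25⟩ := h2
  obtain ⟨p31, p32, p33, p34, v31, v32, v33, v34, v35⟩ := h3
  have f7 : x (c1 - 1) < y (i + 3) := v13
  have f14 : y (b2 - 1) < z s := v21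
  have f16 : y (c2 - 1) < z a2 := v23
  have f24 : z (i + 2) < x (i + 3) := v32
  have m46 : x (i + 3) < x (c1 - 1) := hx _ _ (by omega) (by omega)
  have m65 : y (i + 3) ≤ y (c2 - 1) := hy.le (by omega) (by omega)
  have m98 : z s ≤ z (i + 2) := hz.le (by omega) (by omega)
  have d111 : b2 - 1 < i + 3 := hy.lt_of (a := (b2 - 1)) (b := (i + 3)) (by omega) (by omega)
  have d112 : i + 2 < a2 := hz.lt_of (a := (i + 2)) (b := a2) (by omega) (by omega)
  omega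

theorem h_DE {n a2 b1 b2 b3 c1 c2 c3 i s : ℕ} {x y z : ℕ → ℕ}
    (hx : Inc n x)
    (hy : Inc n y)
    (hz : Inc n z)
    (h1 : TP n i x y b1 c1 .D)
    (e1 : ∀ j < s, y j = z j)
    (h2 : Q4 y z s a2 b2 c2 n)
    (hs1 : i + 1 ≤ s)
    (hs2 : s ≤ i + 4)
    (h3 : TP n i x z b3 c3 .E) : False := by
  obtain ⟨p11, p12, p13, p14, v11, v12, v13, v14, v15⟩ := h1
  obtain ⟨p21, p22, p23, p24, v21, v22, v23, v24, v25⟩ := h2
  obtain ⟨a3, q31, q32, p31, p32, p33, p34, v31, v32, v33, v34, v35⟩ := h3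
  have f6 : y (i + 2) < x (i + 3) := v12
  have f23 : x (b3 - 1) < z i := v31
  have m33 : y i = z i := e1 _ (by omega)
  have m51 : x (i + 3) < x (b3 - 1) := hx _ _ (by omega) (by omega)
  have m84 : y i < y (i + 2) := hy _ _ (by omega) (by omega)
  omega

theorem h_EA {n a2 b1 b2 b3 c1 c2 c3 i s : ℕ} {x y z : ℕ → ℕ}
    (hx : Inc n x)
    (hy : Inc n y)
    (hz : Inc n z)
    (h1 : TP n i x y b1 c1 .E)
    (e1 : ∀ j < s, y j = z j)
    (h2 : Q4 y z s a2 b2 c2 n)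
    (hs1 : i + 1 ≤ s)
    (hs2 : s ≤ i + 4)
    (h3 : TP n i x z b3 c3 .A) : False := by
  obtain ⟨a1, q11, q12, p11, p12, p13, p14, v11, v12, v13, v14, v15⟩ := h1
  obtain ⟨p21, p22, p23, p24, v21, v22, v23, v24, v25⟩ := h2
  obtain ⟨p31, p32, p33, p34, v31, v32, v33, v34, v35⟩ := h3
  have f5 : x (b1 - 1) < y i := v11
  have f9 : x (n - 1) < y b1 := v15
  have f14 : y (b2 - 1) < z s := v21
  have f18 : y (n - 1) < z b2 := v25
  have f24 : z i < x b3 := v32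
  have f26 : z (c3 - 1) < x c3 := v34
  have m32 : y i = z i := e1 _ (by omega)
  have m38 : x c3 ≤ x (n - 1) := hx.le (by omega) (by omega)
  have m61 : y b1 < y (n - 1) := hy _ _ (by omega) (by omega)
  have d108 : b1 - 1 < b3 := hx.lt_of (a := (b1 - 1)) (b := b3) (by omega) (by omega)
  have d111 : c3 - 1 < b2 := hz.lt_of (a := (c3 - 1)) (b := b2) (by omega) (by omega)
  have m115 : x c3 < x (n - 1) := hx _ _ (by omega) (by omega)
  have m136 : y b1 ≤ y (b2 - 1) := hy.le (by omega) (by omega)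
  have m145 : z s < z (c3 - 1) := hz _ _ (by omega) (by omega)
  omega

theorem h_EB {n a2 b1 b2 b3 c1 c2 c3 i s : ℕ} {x y z : ℕ → ℕ}
    (hx : Inc n x)
    (hy : Inc n y)
    (hz : Inc n z)
    (h1 : TP n i x y b1 c1 .E)
    (e1 : ∀ j < s, y j = z j)
    (h2 : Q4 y z s a2 b2 c2 n)
    (hs1 : i + 1 ≤ s)
    (hs2 : s ≤ i + 4)
    (h3 : TP n i x z b3 c3 .B) : False := by
  obtain ⟨a1, q11, q12, p11, p12, p13, p14, v11, v12, v13, v14, v15⟩ := h1
  obtain ⟨p21, p22, p23, p24, v21, v22, v23, v24, v25⟩ := h2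
  obtain ⟨⟨p31, p32, p33, p34, v31, v32, v33, v34, v35⟩, q31, q32⟩ := h3
  have f5 : x (b1 - 1) < y i := v11
  have f24 : z (i + 1) < x b3 := v32
  have m35 : y i = z i := e1 _ (by omega)
  have m40 : x b3 ≤ x (b1 - 1) := hx.le (by omega) (by omega)
  have m101 : z i < z (i + 1) := hz _ _ (by omega) (by omega)
  omega

theorem h_EC {n a2 b1 b2 b3 c1 c2 c3 i s : ℕ} {x y z : ℕ → ℕ}
    (hx : Inc n x)
    (hy : Inc n y)
    (hz : Inc n z)
    (h1 : TP n i x y b1 c1 .E)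
    (e1 : ∀ j < s, y j = z j)
    (h2 : Q4 y z s a2 b2 c2 n)
    (hs1 : i + 1 ≤ s)
    (hs2 : s ≤ i + 4)
    (h3 : TP n i x z b3 c3 .C) : False := by
  obtain ⟨a1, q11, q12, p11, p12, p13, p14, v11, v12, v13, v14, v15⟩ := h1
  obtain ⟨p21, p22, p23, p24, v21, v22, v23, v24, v25⟩ := h2
  obtain ⟨p31, p32, p33, p34, v31, v32, v33, v34, v35⟩ := h3
  have f5 : x (b1 - 1) < y i := v11
  have f24 : z (i + 1) < x (i + 2) := v32
  have m32 : y i = z i := e1 _ (by omega)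
  have m44 : x (i + 2) < x (b1 - 1) := hx _ _ (by omega) (by omega)
  have m104 : z i < z (i + 1) := hz _ _ (by omega) (by omega)
  omega

theorem h_ED {n a2 b1 b2 b3 c1 c2 c3 i s : ℕ} {x y z : ℕ → ℕ}
    (hx : Inc n x)
    (hy : Inc n y)
    (hz : Inc n z)
    (h1 : TP n i x y b1 c1 .E)
    (e1 : ∀ j < s, y j = z j)
    (h2 : Q4 y z s a2 b2 c2 n)
    (hs1 : i + 1 ≤ s)
    (hs2 : s ≤ i + 4)
    (h3 : TP n i x z b3 c3 .D) : False := by
  obtain ⟨a1, q11, q12, p11, p12, p13, p14, v11, v12, v13, v14, v15⟩ := h1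
  obtain ⟨p21, p22, p23, p24, v21, v22, v23, v24, v25⟩ := h2
  obtain ⟨p31, p32, p33, p34, v31, v32, v33, v34, v35⟩ := h3
  have f5 : x (b1 - 1) < y i := v11
  have f24 : z (i + 2) < x (i + 3) := v32
  have m33 : y i = z i := e1 _ (by omega)
  have m54 : x (i + 3) < x (b1 - 1) := hx _ _ (by omega) (by omega)
  have m99 : z i < z (i + 2) := hz _ _ (by omega) (by omega)
  omega

theorem h_EE {n a2 b1 b2 b3 c1 c2 c3 i s : ℕ} {x y z : ℕ → ℕ}
    (hx : Inc n x)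
    (hy : Inc n y)
    (hz : Inc n z)
    (h1 : TP n i x y b1 c1 .E)
    (e1 : ∀ j < s, y j = z j)
    (h2 : Q4 y z s a2 b2 c2 n)
    (hs1 : i + 1 ≤ s)
    (hs2 : s ≤ i + 4)
    (h3 : TP n i x z b3 c3 .E) : False := by
  obtain ⟨a1, q11, q12, p11, p12, p13, p14, v11, v12, v13, v14, v15⟩ := h1
  obtain ⟨p21, p22, p23, p24, v21, v22, v23, v24, v25⟩ := h2
  obtain ⟨a3, q31, q32, p31, p32, p33, p34, v31, v32, v33, v34, v35⟩ := h3
  have f5 : x (b1 - 1) < y i := v11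
  have f9 : x (n - 1) < y b1 := v15
  have f14 : y (b2 - 1) < z s := v21
  have f16 : y (c2 - 1) < z a2 := v23
  have f18 : y (n - 1) < z b2 := v25
  have f24 : z (a3 - 1) < x b3 := v32
  have f26 : z (b3 - 1) < x c3 := v34
  have m34 : y i = z i := e1 _ (by omega)
  have m40 : x c3 ≤ x (n - 1) := hx.le (by omega) (by omega)
  have m63 : y b1 < y (n - 1) := hy _ _ (by omega) (by omega)
  have m95 : z i < z (a3 - 1) := hz _ _ (by omega) (by omega)
  have m99 : z s ≤ z (b3 - 1) := hz.le (by omega) (by omega)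
  have d111 : b1 - 1 < b3 := hx.lt_of (a := (b1 - 1)) (b := b3) (by omega) (by omega)
  have d114 : b2 - 1 < b1 := hy.lt_of (a := (b2 - 1)) (b := b1) (by omega) (by omega)
  have d115 : b3 - 1 < b2 := hz.lt_of (a := (b3 - 1)) (b := b2) (by omega) (by omega)
  have m141 : y b1 ≤ y (c2 - 1) := hy.le (by omega) (by omega)
  have m150 : z a2 ≤ z (b3 - 1) := hz.le (by omega) (by omega)
  omega

end Pool.Agent.Helper77.EH
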