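import Pool.Agent.Helper77.EH.Types

/-!
Triangles of the three-level colouring (generated case analysis).
-/

set_option linter.unusedVariables false

namespace Pool.Agent.Helper77.EH

open Pool.Agent.Helper18.EH

theorem t3_flat_AAA {n c1 c2 c3 i : ℕ} {x y z : ℕ → ℕ}
    (hx : Inc n x)
    (hy : Inc n y)
    (hz : Inc n z)
    (h1 : L4 x y i (i + 1) (i + 2) c1 n)
    (h2 : L4 y z i (i + 1) (i + 2) c2 n)
    (h3 : L4 x z i (i + 1) (i + 2) c3 n) : False := by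
  obtain ⟨p11, p12, p13, p14, v11, v12, v13, v14, v15⟩ := h1
  obtain ⟨p21, p22, p23, p24, v21, v22, v23, v24, v25⟩ := h2
  obtain ⟨p31, p32, p33, p34, v31, v32, v33, v34, v35⟩ := h3
  have f7 : x (c1 - 1) < y (i + 1) := v13
  have f14 : y (i + 1) < z i := v21
  have f24 : z i < x (i + 2) := v32
  have m28 : x (i + 2) ≤ x (c1 - 1) := hx.le (by omega) (by omega)
  omega

theorem t3_flat_AEA {n a2 b2 c1 c2 c3 i : ℕ} {x y z : ℕ → ℕ}
    (hx : Inc n x)
    (hy : Inc n y)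
    (hz : Inc n z)
    (h1 : L4 x y i (i + 1) (i + 2) c1 n)
    (h2 : Q4 y z i a2 b2 c2 n)
    (q2 : i + 3 ≤ b2)
    (h3 : L4 x z i (i + 1) (i + 2) c3 n) : False := by
  obtain ⟨p11, p12, p13, p14, v11, v12, v13, v14, v15⟩ := h1
  obtain ⟨p21, p22, p23, p24, v21, v22, v23, v24, v25⟩ := h2
  obtain ⟨p31, p32, p33, p34, v31, v32, v33, v34, v35⟩ := h3
  have f7 : x (c1 - 1) < y (i + 1) := v13
  have f14 : y (b2 - 1) < z i := v21
  have f24 : z i < x (i + 2) := v32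
  have m29 : x (i + 2) ≤ x (c1 - 1) := hx.le (by omega) (by omega)
  have m63 : y (i + 1) < y (b2 - 1) := hy _ _ (by omega) (by omega)
  omega

theorem t3_flat_AEE {n a2 a3 b2 b3 c1 c2 c3 i : ℕ} {x y z : ℕ → ℕ}
    (hx : Inc n x)
    (hy : Inc n y)
    (hz : Inc n z)
    (h1 : L4 x y i (i + 1) (i + 2) c1 n)
    (h2 : Q4 y z i a2 b2 c2 n)
    (q2 : i + 3 ≤ b2)
    (h3 : Q4 x z i a3 b3 c3 n)
    (q3 : i + 3 ≤ b3) : False := by
  obtain ⟨p11, p12, p13, p14, v11, v12, v13, v14, v15⟩ := h1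
  obtain ⟨p21, p22, p23, p24, v21, v22, v23, v24, v25⟩ := h2
  obtain ⟨p31, p32, p33, p34, v31, v32, v33, v34, v35⟩ := h3
  have f7 : x (c1 - 1) < y (i + 1) := v13
  have f9 : x (n - 1) < y c1 := v15
  have f14 : y (b2 - 1) < z i := v21
  have f16 : y (c2 - 1) < z a2 := v23
  have f18 : y (n - 1) < z b2 := v25
  have f24 : z (a3 - 1) < x b3 := v32
  have f26 : z (b3 - 1) < x c3 := v34
  have m30 : x b3 < x (n - 1) := hx _ _ (by omega) (by omega)
  have m57 : x c3 ≤ x (n - 1) := hx.le (by omega) (by omega)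
  have m73 : y c1 ≤ y (n - 1) := hy.le (by omega) (by omega)
  have m75 : y (i + 1) < y (b2 - 1) := hy _ _ (by omega) (by omega)
  have m87 : z i ≤ z (a3 - 1) := hz.le (by omega) (by omega)
  have d106 : c1 - 1 < b3 := hx.lt_of (a := (c1 - 1)) (b := b3) (by omega) (by omega)
  have d107 : b2 - 1 < c1 := hy.lt_of (a := (b2 - 1)) (b := c1) (by omega) (by omega)
  have d108 : b3 - 1 < b2 := hz.lt_of (a := (b3 - 1)) (b := b2) (by omega) (by omega)
  have m129 : y c1 ≤ y (c2 - 1) := hy.le (by omega) (by omega)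
  have m141 : z a2 ≤ z (b3 - 1) := hz.le (by omega) (by omega)
  omega

theorem t3_flat_EAA {n a1 b1 c1 c2 c3 i : ℕ} {x y z : ℕ → ℕ}
    (hx : Inc n x)
    (hy : Inc n y)
    (hz : Inc n z)
    (h1 : Q4 x y i a1 b1 c1 n)
    (q1 : i + 3 ≤ b1)
    (h2 : L4 y z i (i + 1) (i + 2) c2 n)
    (h3 : L4 x z i (i + 1) (i + 2) c3 n) : False := by
  obtain ⟨p11, p12, p13, p14, v11, v12, v13, v14, v15⟩ := h1
  obtain ⟨p21, p22, p23, p24, v21, v22, v23, v24, v25⟩ := h2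
  obtain ⟨p31, p32, p33, p34, v31, v32, v33, v34, v35⟩ := h3
  have f5 : x (b1 - 1) < y i := v11
  have f14 : y (i + 1) < z i := v21
  have f24 : z i < x (i + 2) := v32
  have m38 : x (i + 2) ≤ x (b1 - 1) := hx.le (by omega) (by omega)
  have m77 : y i < y (i + 1) := hy _ _ (by omega) (by omega)
  omega

theorem t3_flat_EEA {n a1 a2 b1 b2 c1 c2 c3 i : ℕ} {x y z : ℕ → ℕ}
    (hx : Inc n x)
    (hy : Inc n y)
    (hz : Inc n z)
    (h1 : Q4 x y i a1 b1 c1 n)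
    (q1 : i + 3 ≤ b1)
    (h2 : Q4 y z i a2 b2 c2 n)
    (q2 : i + 3 ≤ b2)
    (h3 : L4 x z i (i + 1) (i + 2) c3 n) : False := by
  obtain ⟨p11, p12, p13, p14, v11, v12, v13, v14, v15⟩ := h1
  obtain ⟨p21, p22, p23, p24, v21, v22, v23, v24, v25⟩ := h2
  obtain ⟨p31, p32, p33, p34, v31, v32, v33, v34, v35⟩ := h3
  have f5 : x (b1 - 1) < y i := v11
  have f14 : y (b2 - 1) < z i := v21
  have f24 : z i < x (i + 2) := v32
  have m39 : x (i + 2) ≤ x (b1 - 1) := hx.le (by omega) (by omega)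
  have m74 : y i < y (b2 - 1) := hy _ _ (by omega) (by omega)
  omega

theorem t3_flat_EEE {n a1 a2 a3 b1 b2 b3 c1 c2 c3 i : ℕ} {x y z : ℕ → ℕ}
    (hx : Inc n x)
    (hy : Inc n y)
    (hz : Inc n z)
    (h1 : Q4 x y i a1 b1 c1 n)
    (q1 : i + 3 ≤ b1)
    (h2 : Q4 y z i a2 b2 c2 n)
    (q2 : i + 3 ≤ b2)
    (h3 : Q4 x z i a3 b3 c3 n)
    (q3 : i + 3 ≤ b3) : False := by
  obtain ⟨p11, p12, p13, p14, v11, v12, v13, v14, v15⟩ := h1
  obtain ⟨p21, p22, p23, p24, v21, v22, v23, v24, v25⟩ := h2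
  obtain ⟨p31, p32, p33, p34, v31, v32, v33, v34, v35⟩ := h3
  have f5 : x (b1 - 1) < y i := v11
  have f9 : x (n - 1) < y b1 := v15
  have f14 : y (b2 - 1) < z i := v21
  have f16 : y (c2 - 1) < z a2 := v23
  have f18 : y (n - 1) < z b2 := v25
  have f24 : z (a3 - 1) < x b3 := v32
  have f26 : z (b3 - 1) < x c3 := v34
  have m31 : x b3 < x (n - 1) := hx _ _ (by omega) (by omega)
  have m46 : x c3 ≤ x (n - 1) := hx.le (by omega) (by omega)
  have m51 : y b1 < y (n - 1) := hy _ _ (by omega) (by omega)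
  have m67 : y i < y (b2 - 1) := hy _ _ (by omega) (by omega)
  have m81 : z i ≤ z (a3 - 1) := hz.le (by omega) (by omega)
  have d100 : b1 - 1 < b3 := hx.lt_of (a := (b1 - 1)) (b := b3) (by omega) (by omega)
  have d101 : b2 - 1 < b1 := hy.lt_of (a := (b2 - 1)) (b := b1) (by omega) (by omega)
  have d102 : b3 - 1 < b2 := hz.lt_of (a := (b3 - 1)) (b := b2) (by omega) (by omega)
  have m119 : y b1 ≤ y (c2 - 1) := hy.le (by omega) (by omega)
  have m145 : z a2 ≤ z (b3 - 1) := hz.le (by omega) (by omega)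
  omega

theorem t3_g_AA {n a1 b1 c1 c2 c3 i s : ℕ} {x y z : ℕ → ℕ}
    (hx : Inc n x)
    (hy : Inc n y)
    (hz : Inc n z)
    (e1 : ∀ j < s, x j = y j)
    (h1 : Q4 x y s a1 b1 c1 n)
    (hs1 : i + 1 ≤ s)
    (hs2 : s ≤ i + 2)
    (h2 : L4 y z i (i + 1) (i + 2) c2 n)
    (h3 : L4 x z i (i + 1) (i + 2) c3 n) : False := by
  obtain ⟨p11, p12, p13, p14, v11, v12, v13, v14, v15⟩ := h1
  obtain ⟨p21, p22, p23, p24, v21, v22, v23, v24, v25⟩ := h2
  obtain ⟨p31, p32, p33, p34, v31, v32, v33, v34, v35⟩ := h3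
  have f5 : x (b1 - 1) < y s := v11
  have f7 : x (c1 - 1) < y a1 := v13
  have f9 : x (n - 1) < y b1 := v15
  have f16 : y (c2 - 1) < z (i + 1) := v23
  have f18 : y (n - 1) < z c2 := v25
  have f26 : z (c3 - 1) < x c3 := v34
  have m53 : x c3 ≤ x (n - 1) := hx.le (by omega) (by omega)
  have m58 : y b1 < y (n - 1) := hy _ _ (by omega) (by omega)
  have m79 : y s ≤ y (c2 - 1) := hy.le (by omega) (by omega)
  have m100 : z (i + 1) < z (c3 - 1) := hz _ _ (by omega) (by omega)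
  have d105 : b1 - 1 < c3 := hx.lt_of (a := (b1 - 1)) (b := c3) (by omega) (by omega)
  have d108 : c2 - 1 < b1 := hy.lt_of (a := (c2 - 1)) (b := b1) (by omega) (by omega)
  have d109 : c3 - 1 < c2 := hz.lt_of (a := (c3 - 1)) (b := c2) (by omega) (by omega)
  have m119 : x c3 ≤ x (c1 - 1) := hx.le (by omega) (by omega)
  have m135 : y a1 ≤ y (c2 - 1) := hy.le (by omega) (by omega)
  omega

theorem t3_g_EA {n a1 a2 b1 b2 c1 c2 c3 i s : ℕ} {x y z : ℕ → ℕ}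
    (hx : Inc n x)
    (hy : Inc n y)
    (hz : Inc n z)
    (e1 : ∀ j < s, x j = y j)
    (h1 : Q4 x y s a1 b1 c1 n)
    (hs1 : i + 1 ≤ s)
    (hs2 : s ≤ i + 2)
    (h2 : Q4 y z i a2 b2 c2 n)
    (q2 : i + 3 ≤ b2)
    (h3 : L4 x z i (i + 1) (i + 2) c3 n) : False := by
  obtain ⟨p11, p12, p13, p14, v11, v12, v13, v14, v15⟩ := h1
  obtain ⟨p21, p22, p23, p24, v21, v22, v23, v24, v25⟩ := h2
  obtain ⟨p31, p32, p33, p34, v31, v32, v33, v34, v35⟩ := h3
  have f5 : x (b1 - 1) < y s := v11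
  have f14 : y (b2 - 1) < z i := v21
  have f24 : z i < x (i + 2) := v32
  have m40 : x (i + 2) ≤ x (b1 - 1) := hx.le (by omega) (by omega)
  have m75 : y s ≤ y (b2 - 1) := hy.le (by omega) (by omega)
  omega

theorem t3_g_EE {n a1 a2 a3 b1 b2 b3 c1 c2 c3 i s : ℕ} {x y z : ℕ → ℕ}
    (hx : Inc n x)
    (hy : Inc n y)
    (hz : Inc n z)
    (e1 : ∀ j < s, x j = y j)
    (h1 : Q4 x y s a1 b1 c1 n)
    (hs1 : i + 1 ≤ s)
    (hs2 : s ≤ i + 2)
    (h2 : Q4 y z i a2 b2 c2 n)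
    (q2 : i + 3 ≤ b2)
    (h3 : Q4 x z i a3 b3 c3 n)
    (q3 : i + 3 ≤ b3) : False := by
  obtain ⟨p11, p12, p13, p14, v11, v12, v13, v14, v15⟩ := h1
  obtain ⟨p21, p22, p23, p24, v21, v22, v23, v24, v25⟩ := h2
  obtain ⟨p31, p32, p33, p34, v31, v32, v33, v34, v35⟩ := h3
  have f5 : x (b1 - 1) < y s := v11
  have f9 : x (n - 1) < y b1 := v15
  have f14 : y (b2 - 1) < z i := v21
  have f16 : y (c2 - 1) < z a2 := v23
  have f18 : y (n - 1) < z b2 := v25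
  have f24 : z (a3 - 1) < x b3 := v32
  have f26 : z (b3 - 1) < x c3 := v34
  have m32 : x b3 < x (n - 1) := hx _ _ (by omega) (by omega)
  have m47 : x c3 ≤ x (n - 1) := hx.le (by omega) (by omega)
  have m52 : y b1 < y (n - 1) := hy _ _ (by omega) (by omega)
  have m68 : y s ≤ y (b2 - 1) := hy.le (by omega) (by omega)
  have m82 : z i ≤ z (a3 - 1) := hz.le (by omega) (by omega)
  have d101 : b1 - 1 < b3 := hx.lt_of (a := (b1 - 1)) (b := b3) (by omega) (by omega)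
  have d102 : b2 - 1 < b1 := hy.lt_of (a := (b2 - 1)) (b := b1) (by omega) (by omega)
  have d103 : b3 - 1 < b2 := hz.lt_of (a := (b3 - 1)) (b := b2) (by omega) (by omega)
  have m120 : y b1 ≤ y (c2 - 1) := hy.le (by omega) (by omega)
  have m147 : z a2 ≤ z (b3 - 1) := hz.le (by omega) (by omega)
  omega

theorem t3_h_AA {n a2 b2 c1 c2 c3 i s : ℕ} {x y z : ℕ → ℕ}
    (hx : Inc n x)
    (hy : Inc n y)
    (hz : Inc n z)
    (h1 : L4 x y i (i + 1) (i + 2) c1 n)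
    (e1 : ∀ j < s, y j = z j)
    (h2 : Q4 y z s a2 b2 c2 n)
    (hs1 : i + 1 ≤ s)
    (hs2 : s ≤ i + 2)
    (h3 : L4 x z i (i + 1) (i + 2) c3 n) : False := by
  obtain ⟨p11, p12, p13, p14, v11, v12, v13, v14, v15⟩ := h1
  obtain ⟨p21, p22, p23, p24, v21, v22, v23, v24, v25⟩ := h2
  obtain ⟨p31, p32, p33, p34, v31, v32, v33, v34, v35⟩ := h3
  have f7 : x (c1 - 1) < y (i + 1) := v13
  have f9 : x (n - 1) < y c1 := v15
  have f14 : y (b2 - 1) < z s := v21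
  have f16 : y (c2 - 1) < z a2 := v23
  have f18 : y (n - 1) < z b2 := v25
  have f26 : z (c3 - 1) < x c3 := v34
  have m47 : x c3 ≤ x (n - 1) := hx.le (by omega) (by omega)
  have m63 : y c1 ≤ y (n - 1) := hy.le (by omega) (by omega)
  have m65 : y (i + 1) < y (b2 - 1) := hy _ _ (by omega) (by omega)
  have m76 : z s ≤ z (c3 - 1) := hz.le (by omega) (by omega)
  have d104 : c1 - 1 < c3 := hx.lt_of (a := (c1 - 1)) (b := c3) (by omega) (by omega)
  have d105 : b2 - 1 < c1 := hy.lt_of (a := (b2 - 1)) (b := c1) (by omega) (by omega)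
  have d106 : c3 - 1 < b2 := hz.lt_of (a := (c3 - 1)) (b := b2) (by omega) (by omega)
  have m113 : x c3 < x (n - 1) := hx _ _ (by omega) (by omega)
  have m124 : y c1 ≤ y (c2 - 1) := hy.le (by omega) (by omega)
  have m133 : z a2 ≤ z (c3 - 1) := hz.le (by omega) (by omega)
  omega

theorem t3_h_AE {n a2 a3 b2 b3 c1 c2 c3 i s : ℕ} {x y z : ℕ → ℕ}
    (hx : Inc n x)
    (hy : Inc n y)
    (hz : Inc n z)
    (h1 : L4 x y i (i + 1) (i + 2) c1 n)
    (e1 : ∀ j < s, y j = z j)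
    (h2 : Q4 y z s a2 b2 c2 n)
    (hs1 : i + 1 ≤ s)
    (hs2 : s ≤ i + 2)
    (h3 : Q4 x z i a3 b3 c3 n)
    (q3 : i + 3 ≤ b3) : False := by
  obtain ⟨p11, p12, p13, p14, v11, v12, v13, v14, v15⟩ := h1
  obtain ⟨p21, p22, p23, p24, v21, v22, v23, v24, v25⟩ := h2
  obtain ⟨p31, p32, p33, p34, v31, v32, v33, v34, v35⟩ := h3
  have f6 : y i < x (i + 2) := v12
  have f23 : x (b3 - 1) < z i := v31
  have m31 : y i = z i := e1 _ (by omega)
  have m38 : x (i + 2) ≤ x (b3 - 1) := hx.le (by omega) (by omega)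
  omega

theorem t3_h_EA {n a1 a2 b1 b2 c1 c2 c3 i s : ℕ} {x y z : ℕ → ℕ}
    (hx : Inc n x)
    (hy : Inc n y)
    (hz : Inc n z)
    (h1 : Q4 x y i a1 b1 c1 n)
    (q1 : i + 3 ≤ b1)
    (e1 : ∀ j < s, y j = z j)
    (h2 : Q4 y z s a2 b2 c2 n)
    (hs1 : i + 1 ≤ s)
    (hs2 : s ≤ i + 2)
    (h3 : L4 x z i (i + 1) (i + 2) c3 n) : False := by
  obtain ⟨p11, p12, p13, p14, v11, v12, v13, v14, v15⟩ := h1
  obtain ⟨p21, p22, p23, p24, v21, v22, v23, v24, v25⟩ := h2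
  obtain ⟨p31, p32, p33, p34, v31, v32, v33, v34, v35⟩ := h3
  have f5 : x (b1 - 1) < y i := v11
  have f24 : z i < x (i + 2) := v32
  have m31 : y i = z i := e1 _ (by omega)
  have m41 : x (i + 2) ≤ x (b1 - 1) := hx.le (by omega) (by omega)
  omega

theorem t3_h_EE {n a1 a2 a3 b1 b2 b3 c1 c2 c3 i s : ℕ} {x y z : ℕ → ℕ}
    (hx : Inc n x)
    (hy : Inc n y)
    (hz : Inc n z)
    (h1 : Q4 x y i a1 b1 c1 n)
    (q1 : i + 3 ≤ b1)
    (e1 : ∀ j < s, y j = z j)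
    (h2 : Q4 y z s a2 b2 c2 n)
    (hs1 : i + 1 ≤ s)
    (hs2 : s ≤ i + 2)
    (h3 : Q4 x z i a3 b3 c3 n)
    (q3 : i + 3 ≤ b3) : False := by
  obtain ⟨p11, p12, p13, p14, v11, v12, v13, v14, v15⟩ := h1
  obtain ⟨p21, p22, p23, p24, v21, v22, v23, v24, v25⟩ := h2
  obtain ⟨p31, p32, p33, p34, v31, v32, v33, v34, v35⟩ := h3
  have f5 : x (b1 - 1) < y i := v11
  have f9 : x (n - 1) < y b1 := v15
  have f14 : y (b2 - 1) < z s := v21
  have f16 : y (c2 - 1) < z a2 := v23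
  have f18 : y (n - 1) < z b2 := v25
  have f24 : z (a3 - 1) < x b3 := v32
  have f26 : z (b3 - 1) < x c3 := v34
  have m32 : y i = z i := e1 _ (by omega)
  have m48 : x c3 ≤ x (n - 1) := hx.le (by omega) (by omega)
  have m53 : y b1 < y (n - 1) := hy _ _ (by omega) (by omega)
  have m82 : z s ≤ z (b3 - 1) := hz.le (by omega) (by omega)
  have m90 : z i ≤ z (a3 - 1) := hz.le (by omega) (by omega)
  have d110 : b1 - 1 < b3 := hx.lt_of (a := (b1 - 1)) (b := b3) (by omega) (by omega)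
  have d111 : b2 - 1 < b1 := hy.lt_of (a := (b2 - 1)) (b := b1) (by omega) (by omega)
  have d112 : b3 - 1 < b2 := hz.lt_of (a := (b3 - 1)) (b := b2) (by omega) (by omega)
  have m129 : y b1 ≤ y (c2 - 1) := hy.le (by omega) (by omega)
  have m156 : z a2 ≤ z (b3 - 1) := hz.le (by omega) (by omega)
  omega

end Pool.Agent.Helper77.EH
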