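import Pool.Agent.Helper77.EH.Frame
import Pool.Agent.Helper77.EH.Five
import Pool.Agent.Helper77.EH.Three

/-!
Two, three and five levels.
-/

namespace Pool.Agent.Helper77.EH

open Pool.Agent.Helper18.EH

theorem node_lt4 {n : ℕ} {H : Set (ℕ → ℕ)} {s s2 s3 s4 : ℕ} {q : ℕ → ℕ}
    (h : Node n H [s2, s3, s4] s q) : s < s2 ∧ s2 < s3 ∧ s3 < s4 ∧ s4 < n := by
  obtain ⟨o1, h0⟩ := h
  obtain ⟨_, _, _, o2, h1⟩ := h0 0
  obtain ⟨_, _, _, o3, h2⟩ := h1 0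
  obtain ⟨_, _, _, o4, _⟩ := h2 0
  exact ⟨o1, o2, o3, o4⟩

theorem ub_step2 {n i M : ℕ} (h : UB n (i + 2) M) : UB n i (2 * M) := by
  refine ub_step (m := 2) (N := 2) (fun x y => ∃ s, i ≤ s ∧ s ≤ i + 1 ∧ SP n s x y) ?_ ?_ ?_ h
  · rintro x y hx hy ⟨s, h1, h2, h3⟩
    exact ⟨s, h1, by omega, h3.1, h3.lt hx⟩
  · intro H s s2 s3 s4 q hH h1 h2 hN
    obtain ⟨x, hx, y, hy, he, hQ⟩ := Q4.exists hN
    exact ⟨x, hx, y, hy, he, s, h1, by omega, he, _, _, _, hQ⟩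
  · intro x hx h
    obtain ⟨s01, l01, u01, S01⟩ := h 0 1 (by decide)
    obtain ⟨s12, l12, u12, S12⟩ := h 1 2 (by decide)
    obtain ⟨s02, l02, u02, S02⟩ := h 0 2 (by decide)
    have a1 := ultra S01.1 (S01.lt (hx 0)) S12.1 (S12.lt (hx 1)) S02.1 (S02.lt (hx 0))
    exact noTri (hx 0) (hx 1) (hx 2) S01 S12 S02 (p := i) (by omega) (by omega) (by omega)
      (by omega)

theorem ub_step5 {n i M : ℕ} (h : UB n (i + 5) M) : UB n i (4 * M) := by
  refine ub_step (m := 5) (N := 4) (fun x y => TT n i x y ∨ SS n i x y) ?_ ?_ ?_ h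
  · rintro x y hx hy (h | ⟨s, h1, h2, h3⟩)
    · exact ⟨i, le_rfl, by omega, h.1, h.lt hx⟩
    · exact ⟨s, by omega, by omega, h3.1, h3.lt hx⟩
  · intro H s s2 s3 s4 q hH h1 h2 hN
    obtain ⟨o1, o2, o3, o4⟩ := node_lt4 hN
    rcases Nat.eq_or_lt_of_le h1 with rfl | h1
    · -- the top position
      by_cases g2 : s2 = i + 1
      · subst g2
        obtain ⟨x, hx, y, hy, he, hQ⟩ := L4.exists hN
        exact ⟨x, hx, y, hy, he, Or.inl ⟨he, .A, _, _, hQ⟩⟩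
      · by_cases g3 : i + 5 ≤ s3
        · obtain ⟨x, hx, y, hy, he, hQ⟩ := Q4.exists hN
          exact ⟨x, hx, y, hy, he, Or.inl ⟨he, .E, _, _, _, by omega, g3, hQ⟩⟩
        · by_cases g4 : s2 = i + 2 ∧ i + 5 ≤ s4
          · obtain ⟨rfl, g4⟩ := g4
            obtain ⟨x, hx, y, hy, he, hQ⟩ := L4.exists hN
            exact ⟨x, hx, y, hy, he, Or.inl ⟨he, .B, _, _, hQ, by omega, g4⟩⟩
          · obtain ⟨x, hx, y, hy, he, hQ⟩ := R4.exists hN
            by_cases g5 : s2 = i + 2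
            · subst g5
              obtain rfl : s3 = i + 3 := by omega
              obtain rfl : s4 = i + 4 := by omega
              exact ⟨x, hx, y, hy, he, Or.inl ⟨he, .C, 0, 0, hQ⟩⟩
            · obtain rfl : s2 = i + 3 := by omega
              obtain rfl : s3 = i + 4 := by omega
              exact ⟨x, hx, y, hy, he, Or.inl ⟨he, .D, 0, _, hQ⟩⟩
    · obtain ⟨x, hx, y, hy, he, hQ⟩ := Q4.exists hN
      exact ⟨x, hx, y, hy, he, Or.inr ⟨s, by omega, by omega, he, _, _, _, hQ⟩⟩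
  · intro x hx h
    exact no5 x hx h

/-- The two types of pairs diverging at the top position of the three-level colouring. -/
def TP3 (n i : ℕ) (x y : ℕ → ℕ) (τ : ℕ) : Prop :=
  (τ = 0 ∧ ∃ c, L4 x y i (i + 1) (i + 2) c n) ∨
  (τ = 1 ∧ ∃ a b c, i + 3 ≤ b ∧ Q4 x y i a b c n)

/-- The pair `x, y` is related with first difference at `i`. -/
def T3 (n i : ℕ) (x y : ℕ → ℕ) : Prop := (∀ j < i, x j = y j) ∧ ∃ τ, TP3 n i x y τ

/-- The pair `x, y` is related with first difference at `i + 1` or `i + 2`. -/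
def S3 (n i : ℕ) (x y : ℕ → ℕ) : Prop := ∃ s, i + 1 ≤ s ∧ s ≤ i + 2 ∧ SP n s x y

theorem T3.lt {n i : ℕ} {x y : ℕ → ℕ} (h : T3 n i x y) (hx : Inc n x) : x i < y i := by
  obtain ⟨_, τ, (⟨_, c, h⟩ | ⟨_, a, b, c, _, h⟩)⟩ := h
  · obtain ⟨p1, p2, p3, p4, v1, v2, v3, v4, v5⟩ := h
    have := hx.le (show i ≤ i + 2 - 1 by omega) (by omega)
    omega
  · obtain ⟨p1, p2, p3, p4, v1, v2, v3, v4, v5⟩ := h
    have := hx.le (show i ≤ b - 1 by omega) (by omega)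
    omega

theorem S3.eq {n i : ℕ} {x y : ℕ → ℕ} (h : S3 n i x y) : x i = y i := by
  obtain ⟨s, h1, h2, h3⟩ := h
  exact h3.1 i (by omega)

theorem tri3 {n i t1 t2 t3 : ℕ} {x y z : ℕ → ℕ} (hx : Inc n x) (hy : Inc n y)
    (hz : Inc n z) (T1 : TP3 n i x y t1) (T2 : TP3 n i y z t2) (T3 : TP3 n i x z t3) :
    t2 = 0 ∧ t3 = 1 := by
  rcases T1 with ⟨_, c1, h1⟩ | ⟨_, a1, b1, c1, q1, h1⟩ <;>
  rcases T2 with ⟨g2, c2, h2⟩ | ⟨_, a2, b2, c2, q2, h2⟩ <;>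
  rcases T3 with ⟨_, c3, h3⟩ | ⟨g3, a3, b3, c3, q3, h3⟩
  · exact (t3_flat_AAA hx hy hz h1 h2 h3).elim
  · exact ⟨g2, g3⟩
  · exact (t3_flat_AEA hx hy hz h1 h2 q2 h3).elim
  · exact (t3_flat_AEE hx hy hz h1 h2 q2 h3 q3).elim
  · exact (t3_flat_EAA hx hy hz h1 q1 h2 h3).elim
  · exact ⟨g2, g3⟩
  · exact (t3_flat_EEA hx hy hz h1 q1 h2 q2 h3).elim
  · exact (t3_flat_EEE hx hy hz h1 q1 h2 q2 h3 q3).elim

theorem tri3g {n i s t2 t3 : ℕ} {x y z : ℕ → ℕ} (hx : Inc n x) (hy : Inc n y)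
    (hz : Inc n z) (S : SP n s x y) (hs1 : i + 1 ≤ s) (hs2 : s ≤ i + 2)
    (T2 : TP3 n i y z t2) (T3 : TP3 n i x z t3) : t2 = 0 ∧ t3 = 1 := by
  obtain ⟨e, a, b, c, h⟩ := S
  rcases T2 with ⟨g2, c2, h2⟩ | ⟨_, a2, b2, c2, q2, h2⟩ <;>
  rcases T3 with ⟨_, c3, h3⟩ | ⟨g3, a3, b3, c3, q3, h3⟩
  · exact (t3_g_AA hx hy hz e h hs1 hs2 h2 h3).elim
  · exact ⟨g2, g3⟩
  · exact (t3_g_EA hx hy hz e h hs1 hs2 h2 q2 h3).elim
  · exact (t3_g_EE hx hy hz e h hs1 hs2 h2 q2 h3 q3).elim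

theorem tri3h {n i s t1 t3 : ℕ} {x y z : ℕ → ℕ} (hx : Inc n x) (hy : Inc n y)
    (hz : Inc n z) (S : SP n s y z) (hs1 : i + 1 ≤ s) (hs2 : s ≤ i + 2)
    (T1 : TP3 n i x y t1) (T3 : TP3 n i x z t3) : False := by
  obtain ⟨e, a, b, c, h⟩ := S
  rcases T1 with ⟨g2, c1, h1⟩ | ⟨_, a1, b1, c1, q1, h1⟩ <;>
  rcases T3 with ⟨_, c3, h3⟩ | ⟨g3, a3, b3, c3, q3, h3⟩
  · exact t3_h_AA hx hy hz h1 e h hs1 hs2 h3
  · exact t3_h_AE hx hy hz h1 e h hs1 hs2 h3 q3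
  · exact t3_h_EA hx hy hz h1 q1 e h hs1 hs2 h3
  · exact t3_h_EE hx hy hz h1 q1 e h hs1 hs2 h3 q3

theorem ub_step3 {n i M : ℕ} (h : UB n (i + 3) M) : UB n i (3 * M) := by
  refine ub_step (m := 3) (N := 3) (fun x y => T3 n i x y ∨ S3 n i x y) ?_ ?_ ?_ h
  · rintro x y hx hy (h | ⟨s, h1, h2, h3⟩)
    · exact ⟨i, le_rfl, by omega, h.1, h.lt hx⟩
    · exact ⟨s, by omega, by omega, h3.1, h3.lt hx⟩
  · intro H s s2 s3 s4 q hH h1 h2 hN
    obtain ⟨o1, o2, o3, o4⟩ := node_lt4 hN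
    rcases Nat.eq_or_lt_of_le h1 with rfl | h1
    · -- the top position
      by_cases g2 : s3 = i + 2
      · obtain rfl : s2 = i + 1 := by omega
        subst g2
        obtain ⟨x, hx, y, hy, he, hQ⟩ := L4.exists hN
        exact ⟨x, hx, y, hy, he, Or.inl ⟨he, 0, Or.inl ⟨rfl, _, hQ⟩⟩⟩
      · obtain ⟨x, hx, y, hy, he, hQ⟩ := Q4.exists hN
        exact ⟨x, hx, y, hy, he, Or.inl ⟨he, 1, Or.inr ⟨rfl, _, _, _, by omega, hQ⟩⟩⟩
    · obtain ⟨x, hx, y, hy, he, hQ⟩ := Q4.exists hN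
      exact ⟨x, hx, y, hy, he, Or.inr ⟨s, by omega, by omega, he, _, _, _, hQ⟩⟩
  · intro x hx h
    have hle : ∀ k l, k < l → x k i ≤ x l i := by
      intro k l hkl
      rcases h k l hkl with g | g
      · exact (g.lt (hx k)).le
      · exact g.eq.le
    have hT : ∀ k l, k < l → x k i < x l i → T3 n i (x k) (x l) := by
      intro k l hkl hlt
      rcases h k l hkl with g | g
      · exact g
      · exact absurd g.eq hlt.ne
    have hS : ∀ k l, k < l → x k i = x l i → S3 n i (x k) (x l) := by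
      intro k l hkl he
      rcases h k l hkl with g | g
      · exact absurd he (g.lt (hx k)).ne
      · exact g
    have c01 := hle 0 1 (by decide)
    have c12 := hle 1 2 (by decide)
    have c23 := hle 2 3 (by decide)
    -- `1` and `2` are not in one branch below `0`, and similarly for `2, 3`
    rcases Nat.lt_or_ge (x 1 i) (x 2 i) with d1 | d1
    · rcases Nat.lt_or_ge (x 2 i) (x 3 i) with d2 | d2
      · obtain ⟨_, t12, T12⟩ := hT 1 2 (by decide) (by omega)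
        obtain ⟨_, t23, T23⟩ := hT 2 3 (by decide) (by omega)
        obtain ⟨_, t13, T13⟩ := hT 1 3 (by decide) (by omega)
        obtain ⟨_, t03, T03⟩ := hT 0 3 (by decide) (by omega)
        have f1 := tri3 (hx 1) (hx 2) (hx 3) T12 T23 T13
        rcases Nat.lt_or_ge (x 0 i) (x 1 i) with d0 | d0
        · obtain ⟨_, t01, T01⟩ := hT 0 1 (by decide) (by omega)
          have f2 := tri3 (hx 0) (hx 1) (hx 3) T01 T13 T03
          omega
        · obtain ⟨s, u1, u2, S⟩ := hS 0 1 (by decide) (by omega)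
          have f2 := tri3g (hx 0) (hx 1) (hx 3) S u1 u2 T13 T03
          omega
      · obtain ⟨_, t12, T12⟩ := hT 1 2 (by decide) (by omega)
        obtain ⟨_, t13, T13⟩ := hT 1 3 (by decide) (by omega)
        obtain ⟨s, u1, u2, S⟩ := hS 2 3 (by decide) (by omega)
        exact tri3h (hx 1) (hx 2) (hx 3) S u1 u2 T12 T13
    · rcases Nat.lt_or_ge (x 0 i) (x 1 i) with d0 | d0
      · obtain ⟨_, t01, T01⟩ := hT 0 1 (by decide) (by omega)
        obtain ⟨_, t02, T02⟩ := hT 0 2 (by decide) (by omega)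
        obtain ⟨s, u1, u2, S⟩ := hS 1 2 (by decide) (by omega)
        exact tri3h (hx 0) (hx 1) (hx 2) S u1 u2 T01 T02
      · obtain ⟨s01, l01, u01, S01⟩ := hS 0 1 (by decide) (by omega)
        obtain ⟨s12, l12, u12, S12⟩ := hS 1 2 (by decide) (by omega)
        obtain ⟨s02, l02, u02, S02⟩ := hS 0 2 (by decide) (by omega)
        exact noTri (hx 0) (hx 1) (hx 2) S01 S12 S02 (p := i + 1) (by omega) (by omega)
          (by omega) (by omega)

end Pool.Agent.Helper77.EH
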