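import Pool.Agent.Helper77.EH.FlatA
import Pool.Agent.Helper77.EH.FlatB
import Pool.Agent.Helper77.EH.FlatC
import Pool.Agent.Helper77.EH.FlatD
import Pool.Agent.Helper77.EH.FlatE
import Pool.Agent.Helper77.EH.Mixed

/-!
The possible triangles of the five-level colouring.
-/

namespace Pool.Agent.Helper77.EH

open Pool.Agent.Helper18.EH

/-- A numerical code for the types. -/
def code : Ty → ℕ
  | .A => 0
  | .B => 1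
  | .C => 2
  | .D => 3
  | .E => 4

/-- The possible triangles with three different coordinates at `i`. -/
def FD (i t1 t2 t3 b1 c1 b2 c2 b3 c3 : ℕ) : Prop :=
  (t1 = 0 ∧ t2 = 0 ∧ t3 = 4 ∧ i + 5 ≤ c1 ∧ i + 5 ≤ c2) ∨
  (t1 = 0 ∧ t2 = 1 ∧ t3 = 4 ∧ i + 5 ≤ c1) ∨
  (t1 = 1 ∧ t2 = 0 ∧ t3 = 0 ∧ b2 ≤ i + 2 ∧ i + 3 ≤ b3 ∧ i + 5 ≤ c2 ∧ i + 5 ≤ c3) ∨
  (t1 = 1 ∧ t2 = 0 ∧ t3 = 4 ∧ i + 5 ≤ c2) ∨
  (t1 = 1 ∧ t2 = 1 ∧ t3 = 4) ∨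
  (t1 = 4 ∧ t2 = 1 ∧ t3 = 4)

/-- The possible triangles `x, y, z` in which `x` and `y` split at `s`, `z` at `i`. -/
def GD (i s t2 t3 c2 c3 : ℕ) : Prop :=
  (t2 = 1 ∧ t3 = 4) ∨
  (t2 = 0 ∧ t3 = 0 ∧ i + 3 ≤ s ∧ c2 ≤ s ∧ c3 ≤ s) ∨
  (t2 = 2 ∧ t3 = 2 ∧ i + 3 ≤ s) ∨
  (t2 = 3 ∧ t3 = 3 ∧ i + 3 ≤ s)

/-- The possible triangles `x, y, z` in which `y` and `z` split at `s`, `x` at `i`. -/
def HD (i s t1 t3 c1 c3 : ℕ) : Prop :=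
  (t1 = 0 ∧ t3 = 0 ∧ i + 3 ≤ s ∧ c1 ≤ s ∧ c3 ≤ s) ∨
  (t1 = 2 ∧ t3 = 2 ∧ i + 3 ≤ s) ∨
  (t1 = 3 ∧ t3 = 3 ∧ i + 3 ≤ s)

theorem F_tri {n i b1 c1 b2 c2 b3 c3 : ℕ} {x y z : ℕ → ℕ} (hx : Inc n x) (hy : Inc n y)
    (hz : Inc n z) : ∀ τ1 τ2 τ3 : Ty, TP n i x y b1 c1 τ1 → TP n i y z b2 c2 τ2 →
    TP n i x z b3 c3 τ3 → FD i (code τ1) (code τ2) (code τ3) b1 c1 b2 c2 b3 c3
  | .A, .A, .A, h1, h2, h3 => (flat_AAA hx hy hz h1 h2 h3).elim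
  | .A, .A, .B, h1, h2, h3 => (flat_AAB hx hy hz h1 h2 h3).elim
  | .A, .A, .C, h1, h2, h3 => (flat_AAC hx hy hz h1 h2 h3).elim
  | .A, .A, .D, h1, h2, h3 => (flat_AAD hx hy hz h1 h2 h3).elim
  | .A, .A, .E, h1, h2, h3 => by
    have kc1 : i + 5 ≤ c1 := by
      by_contra g
      exact flat_AAE_c1 hx hy hz h1 h2 h3 (by omega)
    have kc2 : i + 5 ≤ c2 := by
      by_contra g
      exact flat_AAE_c2 hx hy hz h1 h2 h3 (by omega)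
    exact (Or.inl ⟨rfl, rfl, rfl, kc1, kc2⟩)
  | .A, .B, .A, h1, h2, h3 => (flat_ABA hx hy hz h1 h2 h3).elim
  | .A, .B, .B, h1, h2, h3 => (flat_ABB hx hy hz h1 h2 h3).elim
  | .A, .B, .C, h1, h2, h3 => (flat_ABC hx hy hz h1 h2 h3).elim
  | .A, .B, .D, h1, h2, h3 => (flat_ABD hx hy hz h1 h2 h3).elim
  | .A, .B, .E, h1, h2, h3 => by
    have kc1 : i + 5 ≤ c1 := by
      by_contra g
      exact flat_ABE_c1 hx hy hz h1 h2 h3 (by omega)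
    exact (Or.inr (Or.inl ⟨rfl, rfl, rfl, kc1⟩))
  | .A, .C, .A, h1, h2, h3 => (flat_ACA hx hy hz h1 h2 h3).elim
  | .A, .C, .B, h1, h2, h3 => (flat_ACB hx hy hz h1 h2 h3).elim
  | .A, .C, .C, h1, h2, h3 => (flat_ACC hx hy hz h1 h2 h3).elim
  | .A, .C, .D, h1, h2, h3 => (flat_ACD hx hy hz h1 h2 h3).elim
  | .A, .C, .E, h1, h2, h3 => (flat_ACE hx hy hz h1 h2 h3).elim
  | .A, .D, .A, h1, h2, h3 => (flat_ADA hx hy hz h1 h2 h3).elim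
  | .A, .D, .B, h1, h2, h3 => (flat_ADB hx hy hz h1 h2 h3).elim
  | .A, .D, .C, h1, h2, h3 => (flat_ADC hx hy hz h1 h2 h3).elim
  | .A, .D, .D, h1, h2, h3 => (flat_ADD hx hy hz h1 h2 h3).elim
  | .A, .D, .E, h1, h2, h3 => (flat_ADE hx hy hz h1 h2 h3).elim
  | .A, .E, .A, h1, h2, h3 => (flat_AEA hx hy hz h1 h2 h3).elim
  | .A, .E, .B, h1, h2, h3 => (flat_AEB hx hy hz h1 h2 h3).elim
  | .A, .E, .C, h1, h2, h3 => (flat_AEC hx hy hz h1 h2 h3).elim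
  | .A, .E, .D, h1, h2, h3 => (flat_AED hx hy hz h1 h2 h3).elim
  | .A, .E, .E, h1, h2, h3 => (flat_AEE hx hy hz h1 h2 h3).elim
  | .B, .A, .A, h1, h2, h3 => by
    have kb2 : b2 ≤ i + 2 := by
      by_contra g
      exact flat_BAA_b2 hx hy hz h1 h2 h3 (by omega)
    have kb3 : i + 3 ≤ b3 := by
      by_contra g
      exact flat_BAA_b3 hx hy hz h1 h2 h3 (by omega)
    have kc2 : i + 5 ≤ c2 := by
      by_contra g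
      exact flat_BAA_c2 hx hy hz h1 h2 h3 (by omega)
    have kc3 : i + 5 ≤ c3 := by
      by_contra g
      exact flat_BAA_c3 hx hy hz h1 h2 h3 (by omega)
    exact (Or.inr (Or.inr (Or.inl ⟨rfl, rfl, rfl, kb2, kb3, kc2, kc3⟩)))
  | .B, .A, .B, h1, h2, h3 => (flat_BAB hx hy hz h1 h2 h3).elim
  | .B, .A, .C, h1, h2, h3 => (flat_BAC hx hy hz h1 h2 h3).elim
  | .B, .A, .D, h1, h2, h3 => (flat_BAD hx hy hz h1 h2 h3).elim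
  | .B, .A, .E, h1, h2, h3 => by
    have kc2 : i + 5 ≤ c2 := by
      by_contra g
      exact flat_BAE_c2 hx hy hz h1 h2 h3 (by omega)
    exact (Or.inr (Or.inr (Or.inr (Or.inl ⟨rfl, rfl, rfl, kc2⟩))))
  | .B, .B, .A, h1, h2, h3 => (flat_BBA hx hy hz h1 h2 h3).elim
  | .B, .B, .B, h1, h2, h3 => (flat_BBB hx hy hz h1 h2 h3).elim
  | .B, .B, .C, h1, h2, h3 => (flat_BBC hx hy hz h1 h2 h3).elim
  | .B, .B, .D, h1, h2, h3 => (flat_BBD hx hy hz h1 h2 h3).elim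
  | .B, .B, .E, h1, h2, h3 => by
    exact (Or.inr (Or.inr (Or.inr (Or.inr (Or.inl ⟨rfl, rfl, rfl⟩)))))
  | .B, .C, .A, h1, h2, h3 => (flat_BCA hx hy hz h1 h2 h3).elim
  | .B, .C, .B, h1, h2, h3 => (flat_BCB hx hy hz h1 h2 h3).elim
  | .B, .C, .C, h1, h2, h3 => (flat_BCC hx hy hz h1 h2 h3).elim
  | .B, .C, .D, h1, h2, h3 => (flat_BCD hx hy hz h1 h2 h3).elim
  | .B, .C, .E, h1, h2, h3 => (flat_BCE hx hy hz h1 h2 h3).elim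
  | .B, .D, .A, h1, h2, h3 => (flat_BDA hx hy hz h1 h2 h3).elim
  | .B, .D, .B, h1, h2, h3 => (flat_BDB hx hy hz h1 h2 h3).elim
  | .B, .D, .C, h1, h2, h3 => (flat_BDC hx hy hz h1 h2 h3).elim
  | .B, .D, .D, h1, h2, h3 => (flat_BDD hx hy hz h1 h2 h3).elim
  | .B, .D, .E, h1, h2, h3 => (flat_BDE hx hy hz h1 h2 h3).elim
  | .B, .E, .A, h1, h2, h3 => (flat_BEA hx hy hz h1 h2 h3).elim
  | .B, .E, .B, h1, h2, h3 => (flat_BEB hx hy hz h1 h2 h3).elim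
  | .B, .E, .C, h1, h2, h3 => (flat_BEC hx hy hz h1 h2 h3).elim
  | .B, .E, .D, h1, h2, h3 => (flat_BED hx hy hz h1 h2 h3).elim
  | .B, .E, .E, h1, h2, h3 => (flat_BEE hx hy hz h1 h2 h3).elim
  | .C, .A, .A, h1, h2, h3 => (flat_CAA hx hy hz h1 h2 h3).elim
  | .C, .A, .B, h1, h2, h3 => (flat_CAB hx hy hz h1 h2 h3).elim
  | .C, .A, .C, h1, h2, h3 => (flat_CAC hx hy hz h1 h2 h3).elim
  | .C, .A, .D, h1, h2, h3 => (flat_CAD hx hy hz h1 h2 h3).elim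
  | .C, .A, .E, h1, h2, h3 => (flat_CAE hx hy hz h1 h2 h3).elim
  | .C, .B, .A, h1, h2, h3 => (flat_CBA hx hy hz h1 h2 h3).elim
  | .C, .B, .B, h1, h2, h3 => (flat_CBB hx hy hz h1 h2 h3).elim
  | .C, .B, .C, h1, h2, h3 => (flat_CBC hx hy hz h1 h2 h3).elim
  | .C, .B, .D, h1, h2, h3 => (flat_CBD hx hy hz h1 h2 h3).elim
  | .C, .B, .E, h1, h2, h3 => (flat_CBE hx hy hz h1 h2 h3).elim
  | .C, .C, .A, h1, h2, h3 => (flat_CCA hx hy hz h1 h2 h3).elim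
  | .C, .C, .B, h1, h2, h3 => (flat_CCB hx hy hz h1 h2 h3).elim
  | .C, .C, .C, h1, h2, h3 => (flat_CCC hx hy hz h1 h2 h3).elim
  | .C, .C, .D, h1, h2, h3 => (flat_CCD hx hy hz h1 h2 h3).elim
  | .C, .C, .E, h1, h2, h3 => (flat_CCE hx hy hz h1 h2 h3).elim
  | .C, .D, .A, h1, h2, h3 => (flat_CDA hx hy hz h1 h2 h3).elim
  | .C, .D, .B, h1, h2, h3 => (flat_CDB hx hy hz h1 h2 h3).elim
  | .C, .D, .C, h1, h2, h3 => (flat_CDC hx hy hz h1 h2 h3).elim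
  | .C, .D, .D, h1, h2, h3 => (flat_CDD hx hy hz h1 h2 h3).elim
  | .C, .D, .E, h1, h2, h3 => (flat_CDE hx hy hz h1 h2 h3).elim
  | .C, .E, .A, h1, h2, h3 => (flat_CEA hx hy hz h1 h2 h3).elim
  | .C, .E, .B, h1, h2, h3 => (flat_CEB hx hy hz h1 h2 h3).elim
  | .C, .E, .C, h1, h2, h3 => (flat_CEC hx hy hz h1 h2 h3).elim
  | .C, .E, .D, h1, h2, h3 => (flat_CED hx hy hz h1 h2 h3).elim
  | .C, .E, .E, h1, h2, h3 => (flat_CEE hx hy hz h1 h2 h3).elim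
  | .D, .A, .A, h1, h2, h3 => (flat_DAA hx hy hz h1 h2 h3).elim
  | .D, .A, .B, h1, h2, h3 => (flat_DAB hx hy hz h1 h2 h3).elim
  | .D, .A, .C, h1, h2, h3 => (flat_DAC hx hy hz h1 h2 h3).elim
  | .D, .A, .D, h1, h2, h3 => (flat_DAD hx hy hz h1 h2 h3).elim
  | .D, .A, .E, h1, h2, h3 => (flat_DAE hx hy hz h1 h2 h3).elim
  | .D, .B, .A, h1, h2, h3 => (flat_DBA hx hy hz h1 h2 h3).elim
  | .D, .B, .B, h1, h2, h3 => (flat_DBB hx hy hz h1 h2 h3).elim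
  | .D, .B, .C, h1, h2, h3 => (flat_DBC hx hy hz h1 h2 h3).elim
  | .D, .B, .D, h1, h2, h3 => (flat_DBD hx hy hz h1 h2 h3).elim
  | .D, .B, .E, h1, h2, h3 => (flat_DBE hx hy hz h1 h2 h3).elim
  | .D, .C, .A, h1, h2, h3 => (flat_DCA hx hy hz h1 h2 h3).elim
  | .D, .C, .B, h1, h2, h3 => (flat_DCB hx hy hz h1 h2 h3).elim
  | .D, .C, .C, h1, h2, h3 => (flat_DCC hx hy hz h1 h2 h3).elim
  | .D, .C, .D, h1, h2, h3 => (flat_DCD hx hy hz h1 h2 h3).elim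
  | .D, .C, .E, h1, h2, h3 => (flat_DCE hx hy hz h1 h2 h3).elim
  | .D, .D, .A, h1, h2, h3 => (flat_DDA hx hy hz h1 h2 h3).elim
  | .D, .D, .B, h1, h2, h3 => (flat_DDB hx hy hz h1 h2 h3).elim
  | .D, .D, .C, h1, h2, h3 => (flat_DDC hx hy hz h1 h2 h3).elim
  | .D, .D, .D, h1, h2, h3 => (flat_DDD hx hy hz h1 h2 h3).elim
  | .D, .D, .E, h1, h2, h3 => (flat_DDE hx hy hz h1 h2 h3).elim
  | .D, .E, .A, h1, h2, h3 => (flat_DEA hx hy hz h1 h2 h3).elim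
  | .D, .E, .B, h1, h2, h3 => (flat_DEB hx hy hz h1 h2 h3).elim
  | .D, .E, .C, h1, h2, h3 => (flat_DEC hx hy hz h1 h2 h3).elim
  | .D, .E, .D, h1, h2, h3 => (flat_DED hx hy hz h1 h2 h3).elim
  | .D, .E, .E, h1, h2, h3 => (flat_DEE hx hy hz h1 h2 h3).elim
  | .E, .A, .A, h1, h2, h3 => (flat_EAA hx hy hz h1 h2 h3).elim
  | .E, .A, .B, h1, h2, h3 => (flat_EAB hx hy hz h1 h2 h3).elim
  | .E, .A, .C, h1, h2, h3 => (flat_EAC hx hy hz h1 h2 h3).elim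
  | .E, .A, .D, h1, h2, h3 => (flat_EAD hx hy hz h1 h2 h3).elim
  | .E, .A, .E, h1, h2, h3 => (flat_EAE hx hy hz h1 h2 h3).elim
  | .E, .B, .A, h1, h2, h3 => (flat_EBA hx hy hz h1 h2 h3).elim
  | .E, .B, .B, h1, h2, h3 => (flat_EBB hx hy hz h1 h2 h3).elim
  | .E, .B, .C, h1, h2, h3 => (flat_EBC hx hy hz h1 h2 h3).elim
  | .E, .B, .D, h1, h2, h3 => (flat_EBD hx hy hz h1 h2 h3).elim
  | .E, .B, .E, h1, h2, h3 => by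
    exact (Or.inr (Or.inr (Or.inr (Or.inr (Or.inr ⟨rfl, rfl, rfl⟩)))))
  | .E, .C, .A, h1, h2, h3 => (flat_ECA hx hy hz h1 h2 h3).elim
  | .E, .C, .B, h1, h2, h3 => (flat_ECB hx hy hz h1 h2 h3).elim
  | .E, .C, .C, h1, h2, h3 => (flat_ECC hx hy hz h1 h2 h3).elim
  | .E, .C, .D, h1, h2, h3 => (flat_ECD hx hy hz h1 h2 h3).elim
  | .E, .C, .E, h1, h2, h3 => (flat_ECE hx hy hz h1 h2 h3).elim
  | .E, .D, .A, h1, h2, h3 => (flat_EDA hx hy hz h1 h2 h3).elim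
  | .E, .D, .B, h1, h2, h3 => (flat_EDB hx hy hz h1 h2 h3).elim
  | .E, .D, .C, h1, h2, h3 => (flat_EDC hx hy hz h1 h2 h3).elim
  | .E, .D, .D, h1, h2, h3 => (flat_EDD hx hy hz h1 h2 h3).elim
  | .E, .D, .E, h1, h2, h3 => (flat_EDE hx hy hz h1 h2 h3).elim
  | .E, .E, .A, h1, h2, h3 => (flat_EEA hx hy hz h1 h2 h3).elim
  | .E, .E, .B, h1, h2, h3 => (flat_EEB hx hy hz h1 h2 h3).elim
  | .E, .E, .C, h1, h2, h3 => (flat_EEC hx hy hz h1 h2 h3).elim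
  | .E, .E, .D, h1, h2, h3 => (flat_EED hx hy hz h1 h2 h3).elim
  | .E, .E, .E, h1, h2, h3 => (flat_EEE hx hy hz h1 h2 h3).elim

theorem G_tri {n i s a b c b2 c2 b3 c3 : ℕ} {x y z : ℕ → ℕ} (hx : Inc n x) (hy : Inc n y)
    (hz : Inc n z) (e : ∀ j < s, x j = y j) (h : Q4 x y s a b c n) (hs1 : i + 1 ≤ s)
    (hs2 : s ≤ i + 4) : ∀ τ2 τ3 : Ty, TP n i y z b2 c2 τ2 →
    TP n i x z b3 c3 τ3 → GD i s (code τ2) (code τ3) c2 c3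
  | .A, .A, h2, h3 => by
    have ks : i + 3 ≤ s := by
      by_contra g
      exact g_AA_s hx hy hz e h hs1 hs2 h2 h3 (by omega)
    have kc2 : c2 ≤ s := by
      by_contra g
      exact g_AA_c2 hx hy hz e h hs1 hs2 h2 h3 (by omega)
    have kc3 : c3 ≤ s := by
      by_contra g
      exact g_AA_c3 hx hy hz e h hs1 hs2 h2 h3 (by omega)
    exact (Or.inr (Or.inl ⟨rfl, rfl, ks, kc2, kc3⟩))
  | .A, .B, h2, h3 => (g_AB hx hy hz e h hs1 hs2 h2 h3).elim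
  | .A, .C, h2, h3 => (g_AC hx hy hz e h hs1 hs2 h2 h3).elim
  | .A, .D, h2, h3 => (g_AD hx hy hz e h hs1 hs2 h2 h3).elim
  | .A, .E, h2, h3 => (g_AE hx hy hz e h hs1 hs2 h2 h3).elim
  | .B, .A, h2, h3 => (g_BA hx hy hz e h hs1 hs2 h2 h3).elim
  | .B, .B, h2, h3 => (g_BB hx hy hz e h hs1 hs2 h2 h3).elim
  | .B, .C, h2, h3 => (g_BC hx hy hz e h hs1 hs2 h2 h3).elim
  | .B, .D, h2, h3 => (g_BD hx hy hz e h hs1 hs2 h2 h3).elim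
  | .B, .E, h2, h3 => by
    exact (Or.inl ⟨rfl, rfl⟩)
  | .C, .A, h2, h3 => (g_CA hx hy hz e h hs1 hs2 h2 h3).elim
  | .C, .B, h2, h3 => (g_CB hx hy hz e h hs1 hs2 h2 h3).elim
  | .C, .C, h2, h3 => by
    have ks : i + 3 ≤ s := by
      by_contra g
      exact g_CC_s hx hy hz e h hs1 hs2 h2 h3 (by omega)
    exact (Or.inr (Or.inr (Or.inl ⟨rfl, rfl, ks⟩)))
  | .C, .D, h2, h3 => (g_CD hx hy hz e h hs1 hs2 h2 h3).elim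
  | .C, .E, h2, h3 => (g_CE hx hy hz e h hs1 hs2 h2 h3).elim
  | .D, .A, h2, h3 => (g_DA hx hy hz e h hs1 hs2 h2 h3).elim
  | .D, .B, h2, h3 => (g_DB hx hy hz e h hs1 hs2 h2 h3).elim
  | .D, .C, h2, h3 => (g_DC hx hy hz e h hs1 hs2 h2 h3).elim
  | .D, .D, h2, h3 => by
    have ks : i + 3 ≤ s := by
      by_contra g
      exact g_DD_s hx hy hz e h hs1 hs2 h2 h3 (by omega)
    exact (Or.inr (Or.inr (Or.inr ⟨rfl, rfl, ks⟩)))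
  | .D, .E, h2, h3 => (g_DE hx hy hz e h hs1 hs2 h2 h3).elim
  | .E, .A, h2, h3 => (g_EA hx hy hz e h hs1 hs2 h2 h3).elim
  | .E, .B, h2, h3 => (g_EB hx hy hz e h hs1 hs2 h2 h3).elim
  | .E, .C, h2, h3 => (g_EC hx hy hz e h hs1 hs2 h2 h3).elim
  | .E, .D, h2, h3 => (g_ED hx hy hz e h hs1 hs2 h2 h3).elim
  | .E, .E, h2, h3 => (g_EE hx hy hz e h hs1 hs2 h2 h3).elim

theorem H_tri {n i s a b c b1 c1 b3 c3 : ℕ} {x y z : ℕ → ℕ} (hx : Inc n x) (hy : Inc n y)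
    (hz : Inc n z) (e : ∀ j < s, y j = z j) (h : Q4 y z s a b c n) (hs1 : i + 1 ≤ s)
    (hs2 : s ≤ i + 4) : ∀ τ1 τ3 : Ty, TP n i x y b1 c1 τ1 →
    TP n i x z b3 c3 τ3 → HD i s (code τ1) (code τ3) c1 c3
  | .A, .A, h1, h3 => by
    have ks : i + 3 ≤ s := by
      by_contra g
      exact h_AA_s hx hy hz h1 e h hs1 hs2 h3 (by omega)
    have kc1 : c1 ≤ s := by
      by_contra g
      exact h_AA_c1 hx hy hz h1 e h hs1 hs2 h3 (by omega)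
    have kc3 : c3 ≤ s := by
      by_contra g
      exact h_AA_c3 hx hy hz h1 e h hs1 hs2 h3 (by omega)
    exact (Or.inl ⟨rfl, rfl, ks, kc1, kc3⟩)
  | .A, .B, h1, h3 => (h_AB hx hy hz h1 e h hs1 hs2 h3).elim
  | .A, .C, h1, h3 => (h_AC hx hy hz h1 e h hs1 hs2 h3).elim
  | .A, .D, h1, h3 => (h_AD hx hy hz h1 e h hs1 hs2 h3).elim
  | .A, .E, h1, h3 => (h_AE hx hy hz h1 e h hs1 hs2 h3).elim
  | .B, .A, h1, h3 => (h_BA hx hy hz h1 e h hs1 hs2 h3).elim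
  | .B, .B, h1, h3 => (h_BB hx hy hz h1 e h hs1 hs2 h3).elim
  | .B, .C, h1, h3 => (h_BC hx hy hz h1 e h hs1 hs2 h3).elim
  | .B, .D, h1, h3 => (h_BD hx hy hz h1 e h hs1 hs2 h3).elim
  | .B, .E, h1, h3 => (h_BE hx hy hz h1 e h hs1 hs2 h3).elim
  | .C, .A, h1, h3 => (h_CA hx hy hz h1 e h hs1 hs2 h3).elim
  | .C, .B, h1, h3 => (h_CB hx hy hz h1 e h hs1 hs2 h3).elim
  | .C, .C, h1, h3 => by
    have ks : i + 3 ≤ s := by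
      by_contra g
      exact h_CC_s hx hy hz h1 e h hs1 hs2 h3 (by omega)
    exact (Or.inr (Or.inl ⟨rfl, rfl, ks⟩))
  | .C, .D, h1, h3 => (h_CD hx hy hz h1 e h hs1 hs2 h3).elim
  | .C, .E, h1, h3 => (h_CE hx hy hz h1 e h hs1 hs2 h3).elim
  | .D, .A, h1, h3 => (h_DA hx hy hz h1 e h hs1 hs2 h3).elim
  | .D, .B, h1, h3 => (h_DB hx hy hz h1 e h hs1 hs2 h3).elim
  | .D, .C, h1, h3 => (h_DC hx hy hz h1 e h hs1 hs2 h3).elim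
  | .D, .D, h1, h3 => by
    have ks : i + 3 ≤ s := by
      by_contra g
      exact h_DD_s hx hy hz h1 e h hs1 hs2 h3 (by omega)
    exact (Or.inr (Or.inr ⟨rfl, rfl, ks⟩))
  | .D, .E, h1, h3 => (h_DE hx hy hz h1 e h hs1 hs2 h3).elim
  | .E, .A, h1, h3 => (h_EA hx hy hz h1 e h hs1 hs2 h3).elim
  | .E, .B, h1, h3 => (h_EB hx hy hz h1 e h hs1 hs2 h3).elim
  | .E, .C, h1, h3 => (h_EC hx hy hz h1 e h hs1 hs2 h3).elim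
  | .E, .D, h1, h3 => (h_ED hx hy hz h1 e h hs1 hs2 h3).elim
  | .E, .E, h1, h3 => (h_EE hx hy hz h1 e h hs1 hs2 h3).elim

end Pool.Agent.Helper77.EH
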