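import Pool.Agent.Helper77.EH.Words

/-!
The five types of pairs diverging at the top position `i` of the five-level colouring.
-/

namespace Pool.Agent.Helper77.EH

open Pool.Agent.Helper18.EH

/-- The five types of pairs diverging at the top position. -/
inductive Ty
  | A | B | C | D | E

/-- The pair `x, y` has the given type, with third block starting at `b`, fourth at `c`. -/
def TP (n i : ℕ) (x y : ℕ → ℕ) (b c : ℕ) : Ty → Prop
  | .A => L4 x y i (i + 1) b c n
  | .B => L4 x y i (i + 2) b c n ∧ b ≤ i + 4 ∧ i + 5 ≤ c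
  | .C => R4 x y i (i + 2) (i + 3) (i + 4) n
  | .D => R4 x y i (i + 3) (i + 4) c n
  | .E => ∃ a, i + 2 ≤ a ∧ i + 5 ≤ b ∧ Q4 x y i a b c n

end Pool.Agent.Helper77.EH
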