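import Pool.Agent.Helper18.EH.Q4

/-!
Three interleaving patterns of two increasing sequences which agree before `s1`:
`XXYXYXYY` (`Q4` of helper18), `XXYXYYXY` (`L4`) and `XYXXYXYY` (`R4`), where the four blocks
start at the positions `s1 < s2 < s3 < s4` and end at `e`; their realisation inside trees.
-/

namespace Pool.Agent.Helper77.EH

open Pool.Agent.Helper18.EH

/-- The pattern `XXYXYYXY` on the interval `[s1, e)`. -/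
def L4 (x y : ℕ → ℕ) (s1 s2 s3 s4 e : ℕ) : Prop :=
  s1 < s2 ∧ s2 < s3 ∧ s3 < s4 ∧ s4 < e ∧ x (s3 - 1) < y s1 ∧ y (s2 - 1) < x s3 ∧
    x (s4 - 1) < y s2 ∧ y (s4 - 1) < x s4 ∧ x (e - 1) < y s4

/-- The pattern `XYXXYXYY` on the interval `[s1, e)`. -/
def R4 (x y : ℕ → ℕ) (s1 s2 s3 s4 e : ℕ) : Prop :=
  s1 < s2 ∧ s2 < s3 ∧ s3 < s4 ∧ s4 < e ∧ x (s2 - 1) < y s1 ∧ y (s2 - 1) < x s2 ∧
    x (s4 - 1) < y s2 ∧ y (s3 - 1) < x s4 ∧ x (e - 1) < y s3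

theorem le_of {n : ℕ} {x : ℕ → ℕ} (hx : Inc n x) {a b : ℕ} (ha : a < n) (h : x a ≤ x b) :
    a ≤ b := by
  by_contra hab
  exact absurd (hx b a (not_le.1 hab) ha) (by omega)

/-- Realising the pattern `XXYXYYXY` inside a tree. -/
theorem L4.exists {n : ℕ} {H : Set (ℕ → ℕ)} {s s2 s3 s4 : ℕ} {q : ℕ → ℕ}
    (h : Node n H [s2, s3, s4] s q) : ∃ x ∈ H, ∃ y ∈ H, (∀ j < s, x j = y j) ∧
      L4 x y s s2 s3 s4 n := by
  obtain ⟨o1, h0⟩ := h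
  obtain ⟨q1, _, r1, o2, h1⟩ := h0 0
  obtain ⟨q2, _, r2, o3, h2⟩ := h1 0
  obtain ⟨p1, v1, w1, _, k1⟩ := h0 (q2 (s3 - 1))
  obtain ⟨q3, v2, r3, o4, h3⟩ := h2 (p1 (s2 - 1))
  obtain ⟨p2, v3, w2, _, k2⟩ := k1 (q3 (s4 - 1))
  obtain ⟨p3, _, w3, _, k3⟩ := k2 0
  obtain ⟨x, hxH, v4, r4⟩ := h3 (p3 (s4 - 1))
  obtain ⟨y, hyH, v5, w4⟩ := k3 (x (n - 1))
  refine ⟨x, hxH, y, hyH, fun j hj => ?_, o1, o2, o3, o4, ?_, ?_, ?_, ?_, ?_⟩
  · rw [r4 j (by omega), r3 j (by omega), r2 j (by omega), r1 j hj,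
      w4 j (by omega), w3 j (by omega), w2 j (by omega), w1 j hj]
  · rw [r4 _ (by omega), r3 _ (by omega), w4 s (by omega), w3 s (by omega), w2 s (by omega)]
    exact v1
  · rw [w4 _ (by omega), w3 _ (by omega), w2 _ (by omega), r4 s3 (by omega)]
    exact v2
  · rw [r4 _ (by omega), w4 s2 (by omega), w3 s2 (by omega)]
    exact v3
  · rw [w4 _ (by omega)]
    exact v4
  · exact v5

/-- Realising the pattern `XYXXYXYY` inside a tree. -/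
theorem R4.exists {n : ℕ} {H : Set (ℕ → ℕ)} {s s2 s3 s4 : ℕ} {q : ℕ → ℕ}
    (h : Node n H [s2, s3, s4] s q) : ∃ x ∈ H, ∃ y ∈ H, (∀ j < s, x j = y j) ∧
      R4 x y s s2 s3 s4 n := by
  obtain ⟨o1, h0⟩ := h
  obtain ⟨q1, _, r1, o2, h1⟩ := h0 0
  obtain ⟨p1, v1, w1, _, k1⟩ := h0 (q1 (s2 - 1))
  obtain ⟨q2, v2, r2, o3, h2⟩ := h1 (p1 (s2 - 1))
  obtain ⟨q3, _, r3, o4, h3⟩ := h2 0
  obtain ⟨p2, v3, w2, _, k2⟩ := k1 (q3 (s4 - 1))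
  obtain ⟨x, hxH, v4, r4⟩ := h3 (p2 (s3 - 1))
  obtain ⟨p3, v5, w3, _, k3⟩ := k2 (x (n - 1))
  obtain ⟨y, hyH, _, w4⟩ := k3 0
  refine ⟨x, hxH, y, hyH, fun j hj => ?_, o1, o2, o3, o4, ?_, ?_, ?_, ?_, ?_⟩
  · rw [r4 j (by omega), r3 j (by omega), r2 j (by omega), r1 j hj,
      w4 j (by omega), w3 j (by omega), w2 j (by omega), w1 j hj]
  · rw [r4 _ (by omega), r3 _ (by omega), r2 _ (by omega), w4 s (by omega), w3 s (by omega),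
      w2 s (by omega)]
    exact v1
  · rw [w4 _ (by omega), w3 _ (by omega), w2 _ (by omega), r4 s2 (by omega), r3 s2 (by omega)]
    exact v2
  · rw [r4 _ (by omega), w4 s2 (by omega), w3 s2 (by omega)]
    exact v3
  · rw [w4 _ (by omega), w3 _ (by omega)]
    exact v4
  · rw [w4 s3 (by omega)]
    exact v5

end Pool.Agent.Helper77.EH
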